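import Pool.Agent.Helper951_poly.Terms

set_option autoImplicit false

namespace Pool.Agent.Helper951_poly

open Finset

/-- Semilattice step. -/
theorem semi_step {ι : Type} [Fintype ι] [DecidableEq ι] (C : Finset (ι → Bool)) (S : Finset ι)
    (s : ι → Bool → Bool → Bool) (d : ℕ) (hd : 0 < d) (hdist : MinDist d C)
    (hcl : ∀ x ∈ C, ∀ y ∈ C, (fun i => s i (x i) (y i)) ∈ C) (hid : ∀ i b, s i b b = b)
    (hS : ∀ i ∈ S, Semi (s i)) (hU : ∀ i ∉ S, ∀ a b, s i a b = a) :
    ∃ D : Finset (ι → Bool), D ⊆ C ∧ (∀ x ∈ D, ∀ y ∈ D, ∀ i ∈ S, x i = y i) ∧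
      (∀ x ∈ C, ∀ y ∈ D, (∀ i ∈ S, x i = y i) → x ∈ D) ∧
      C.card ≤ 2 ^ (S.card / d) * D.card := by
  classical
  rcases C.eq_empty_or_nonempty with rfl | ⟨w, hw⟩
  · exact ⟨∅, by simp, by simp, by simp, by simp⟩
  -- supports
  let supp : (ι → Bool) → Finset ι := fun x => S.filter (fun i => x i ≠ s i false true)
  have mem_supp : ∀ x i, i ∈ supp x ↔ i ∈ S ∧ x i ≠ s i false true := fun x i => by
    simp only [supp, Finset.mem_filter]
  have sval : ∀ i ∈ S, ∀ a b, s i a b ≠ s i false true ↔ a ≠ s i false true ∧ b ≠ s i false true := by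
    intro i hi a b
    have h1 := hS i hi
    have e0 := hid i false
    have e1 := hid i true
    unfold Semi at h1
    cases a <;> cases b
    · rw [e0]; simp
    · cases h2 : s i false true <;> simp
    · rw [← h1]
      cases h2 : s i false true <;> simp
    · rw [e1]; simp
  have supp_s : ∀ x y, supp (fun i => s i (x i) (y i)) = supp x ∩ supp y := by
    intro x y
    ext i
    rw [Finset.mem_inter, mem_supp, mem_supp, mem_supp]
    constructor
    · rintro ⟨h1, h2⟩
      rw [sval i h1] at h2
      exact ⟨⟨h1, h2.1⟩, h1, h2.2⟩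
    · rintro ⟨⟨h1, h2⟩, -, h3⟩
      exact ⟨h1, (sval i h1 _ _).2 ⟨h2, h3⟩⟩
  have supp_eq : ∀ x y : ι → Bool, supp x = supp y → ∀ i ∈ S, x i = y i := by
    intro x y h i hi
    have h1 := mem_supp x i
    have h2 := mem_supp y i
    rw [h] at h1
    have h3 : (x i ≠ s i false true) ↔ (y i ≠ s i false true) := by
      constructor
      · intro h'
        exact (h2.1 (h1.2 ⟨hi, h'⟩)).2
      · intro h'
        exact (h1.1 (h2.2 ⟨hi, h'⟩)).2
    revert h3
    cases x i <;> cases y i <;> cases s i false true <;> simp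
  let L := C.image supp
  have hL : L.card ≤ 2 ^ (S.card / d) := by
    apply inter_closed_card L S d hd
    · intro A hA
      obtain ⟨x, _, rfl⟩ := Finset.mem_image.1 hA
      exact Finset.filter_subset _ _
    · intro A hA B hB
      obtain ⟨x, hx, rfl⟩ := Finset.mem_image.1 hA
      obtain ⟨y, hy, rfl⟩ := Finset.mem_image.1 hB
      rw [← supp_s]
      exact Finset.mem_image.2 ⟨_, hcl x hx y hy, rfl⟩
    · intro A hA B hB hBA
      obtain ⟨x, hx, rfl⟩ := Finset.mem_image.1 hA
      obtain ⟨y, hy, rfl⟩ := Finset.mem_image.1 hB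
      have hz := hcl x hx y hy
      have hzs : supp (fun i => s i (x i) (y i)) = supp y := by
        rw [supp_s, Finset.inter_eq_right.2 hBA.1]
      have hne : x ≠ (fun i => s i (x i) (y i)) := by
        intro h
        have : supp x = supp y := by rw [← hzs, ← h]
        exact hBA.2 (this ▸ Finset.Subset.refl _)
      refine (hdist x hx _ hz hne).trans (Finset.card_le_card ?_)
      intro i hi
      have hi : x i ≠ s i (x i) (y i) := (Finset.mem_filter.1 hi).2
      rw [Finset.mem_sdiff, mem_supp, mem_supp]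
      by_cases hiS : i ∈ S
      · have h1 := sval i hiS (x i) (y i)
        have h2 := hS i hiS
        have e0 := hid i false
        have e1 := hid i true
        unfold Semi at h2
        revert hi h1
        rw [not_and_not_right]
        cases x i <;> cases y i
        · rw [e0]; simp
        · cases h3 : s i false true <;> simp [hiS]
        · rw [← h2]
          cases h3 : s i false true <;> simp [hiS]
        · rw [e1]; simp
      · exact absurd (hU i hiS _ _).symm hi
  -- the bottom
  have hLne : L.Nonempty := ⟨supp w, Finset.mem_image.2 ⟨w, hw, rfl⟩⟩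
  obtain ⟨m, hm, hmin⟩ := Finset.exists_min_image L Finset.card hLne
  obtain ⟨x0, hx0, rfl⟩ := Finset.mem_image.1 hm
  have hbot : ∀ x ∈ C, supp x0 ⊆ supp x := by
    intro x hx
    have h1 : supp x ∩ supp x0 ∈ L := by
      rw [← supp_s]
      exact Finset.mem_image.2 ⟨_, hcl x hx x0 hx0, rfl⟩
    have h2 := hmin _ h1
    have h3 : supp x ∩ supp x0 = supp x0 :=
      Finset.eq_of_subset_of_card_le Finset.inter_subset_right h2
    exact Finset.inter_eq_right.1 h3
  let D := C.filter (fun x => supp x = supp x0)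
  refine ⟨D, Finset.filter_subset _ _, ?_, ?_, ?_⟩
  · intro x hx y hy i hi
    exact supp_eq x y ((Finset.mem_filter.1 hx).2.trans (Finset.mem_filter.1 hy).2.symm) i hi
  · intro x hx y hy h
    refine Finset.mem_filter.2 ⟨hx, ?_⟩
    rw [← (Finset.mem_filter.1 hy).2]
    ext i
    rw [mem_supp, mem_supp]
    constructor
    · rintro ⟨h1, h2⟩
      exact ⟨h1, by rw [← h i h1]; exact h2⟩
    · rintro ⟨h1, h2⟩
      exact ⟨h1, by rw [h i h1]; exact h2⟩
  · have hinj : C.card ≤ (L ×ˢ D).card := by
      apply Finset.card_le_card_of_injOn (fun x => (supp x, fun i => s i (x i) (x0 i)))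
      · intro x hx
        have hx : x ∈ C := hx
        refine Finset.mem_coe.2 (Finset.mem_product.2 ⟨Finset.mem_image.2 ⟨x, hx, rfl⟩, ?_⟩)
        refine Finset.mem_filter.2 ⟨hcl x hx x0 hx0, ?_⟩
        rw [supp_s, Finset.inter_eq_right.2 (hbot x hx)]
      · intro x hx y hy hxy
        obtain ⟨h1, h2⟩ := Prod.mk.inj hxy
        funext i
        by_cases hi : i ∈ S
        · exact supp_eq x y h1 i hi
        · have := congrFun h2 i
          simpa only [hU i hi] using this
    rw [Finset.card_product] at hinj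
    exact hinj.trans (Nat.mul_le_mul_right _ hL)

/-- Majority step. -/
theorem maj_step {ι : Type} [Fintype ι] [DecidableEq ι] (D : Finset (ι → Bool)) (S M : Finset ι)
    (hSM : Disjoint S M) (g : ι → Bool → Bool → Bool → Bool) (d : ℕ) (hd : 0 < d)
    (hdist : MinDist d D)
    (hcl : ∀ x ∈ D, ∀ y ∈ D, ∀ z ∈ D, (fun i => g i (x i) (y i) (z i)) ∈ D)
    (hid : ∀ i b, g i b b b = b) (hS : ∀ x ∈ D, ∀ y ∈ D, ∀ i ∈ S, x i = y i)
    (hM : ∀ i ∈ M, ∀ a b c, g i a b c = maj a b c)
    (hU : ∀ i, i ∉ S → i ∉ M → ∀ a b c, g i a b c = a) :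
    ∃ E : Finset (ι → Bool), E ⊆ D ∧ (∀ x ∈ E, ∀ y ∈ E, ∀ i ∈ M, x i = y i) ∧
      D.card ≤ 2 ^ (M.card / d) * E.card := by
  classical
  rcases D.eq_empty_or_nonempty with rfl | ⟨x0, hx0⟩
  · exact ⟨∅, by simp, by simp, by simp⟩
  let res : (ι → Bool) → (ι → Bool) := fun x i => if i ∈ M then x i else false
  let Q := D.image res
  have maj3 : ∀ a b : Bool, maj a b b = b := by decide
  have hQ : Q.card ≤ 2 ^ (M.card / d) := by
    apply maj_closed_card Q M d hd
    · intro x hx y hy i hi
      obtain ⟨x, _, rfl⟩ := Finset.mem_image.1 hx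
      obtain ⟨y, _, rfl⟩ := Finset.mem_image.1 hy
      show (if i ∈ M then x i else false) = if i ∈ M then y i else false
      rw [if_neg hi, if_neg hi]
    · intro x' hx' y' hy' z' hz'
      obtain ⟨x, hx, rfl⟩ := Finset.mem_image.1 hx'
      obtain ⟨y, hy, rfl⟩ := Finset.mem_image.1 hy'
      obtain ⟨z, hz, rfl⟩ := Finset.mem_image.1 hz'
      refine Finset.mem_image.2 ⟨_, hcl x hx y hy z hz, ?_⟩
      funext i
      show (if i ∈ M then g i (x i) (y i) (z i) else false) =
        maj (if i ∈ M then x i else false) (if i ∈ M then y i else false)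
          (if i ∈ M then z i else false)
      by_cases hi : i ∈ M
      · simp only [hi, if_true, hM i hi]
      · simp only [hi, if_false]
        rfl
    · intro p hp q hq hpq
      obtain ⟨x, hx, rfl⟩ := Finset.mem_image.1 hp
      obtain ⟨y, hy, rfl⟩ := Finset.mem_image.1 hq
      have hz := hcl x hx y hy y hy
      have hne : x ≠ (fun i => g i (x i) (y i) (y i)) := by
        intro h
        apply hpq
        funext i
        show (if i ∈ M then x i else false) = if i ∈ M then y i else false
        by_cases hi : i ∈ M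
        · rw [if_pos hi, if_pos hi]
          have := congrFun h i
          simp only [hM i hi, maj3] at this
          exact this
        · rw [if_neg hi, if_neg hi]
      refine (hdist x hx _ hz hne).trans (Finset.card_le_card ?_)
      intro i hi
      have hi : x i ≠ g i (x i) (y i) (y i) := (Finset.mem_filter.1 hi).2
      refine Finset.mem_filter.2 ⟨Finset.mem_univ _, ?_⟩
      show (if i ∈ M then x i else false) ≠ if i ∈ M then y i else false
      by_cases hiM : i ∈ M
      · rw [if_pos hiM, if_pos hiM]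
        rw [hM i hiM, maj3] at hi
        exact hi
      · exfalso
        by_cases hiS : i ∈ S
        · rw [hS x hx y hy i hiS, hid] at hi
          exact hi rfl
        · rw [hU i hiS hiM] at hi
          exact hi rfl
  let E := D.filter (fun x => ∀ i ∈ M, x i = x0 i)
  refine ⟨E, Finset.filter_subset _ _, ?_, ?_⟩
  · intro x hx y hy i hi
    rw [(Finset.mem_filter.1 hx).2 i hi, (Finset.mem_filter.1 hy).2 i hi]
  · have hinj : D.card ≤ (Q ×ˢ E).card := by
      apply Finset.card_le_card_of_injOn (fun x => (res x, fun i => g i (x i) (x0 i) (x0 i)))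
      · intro x hx
        have hx : x ∈ D := hx
        refine Finset.mem_coe.2 (Finset.mem_product.2 ⟨Finset.mem_image.2 ⟨x, hx, rfl⟩, ?_⟩)
        refine Finset.mem_filter.2 ⟨hcl x hx x0 hx0 x0 hx0, ?_⟩
        intro i hi
        show g i (x i) (x0 i) (x0 i) = x0 i
        rw [hM i hi, maj3]
      · intro x hx y hy hxy
        have hx : x ∈ D := hx
        have hy : y ∈ D := hy
        obtain ⟨h1, h2⟩ := Prod.mk.inj hxy
        funext i
        by_cases hi : i ∈ M
        · have := congrFun h1 i
          have h3 : (if i ∈ M then x i else false) = if i ∈ M then y i else false := this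
          rw [if_pos hi, if_pos hi] at h3
          exact h3
        · by_cases hiS : i ∈ S
          · exact hS x hx y hy i hiS
          · have h3 : g i (x i) (x0 i) (x0 i) = g i (y i) (x0 i) (x0 i) := congrFun h2 i
            rw [hU i hiS hi, hU i hiS hi] at h3
            exact h3
    rw [Finset.card_product] at hinj
    exact hinj.trans (Nat.mul_le_mul_right _ hQ)

/-- A code closed under an idempotent coordinatewise operation: the coordinates in which the
operation is not affine contribute at most a factor `2 ^ (|N| / d)`. -/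
theorem mixed {ι : Type} [Fintype ι] [DecidableEq ι] {r : ℕ} (f : ι → (Fin r → Bool) → Bool)
    (hid : ∀ i, Idem (f i)) (N : Finset ι) (hN : ∀ i, i ∉ N ↔ Affine (f i))
    (C : Finset (ι → Bool)) (hC : Closed f C) (d : ℕ) (hd : 0 < d) (hdist : MinDist d C) :
    ∃ E : Finset (ι → Bool), E ⊆ C ∧ (∀ x ∈ E, ∀ y ∈ E, ∀ i ∈ N, x i = y i) ∧
      C.card ≤ 2 ^ (N.card / d) * E.card := by
  classical
  obtain ⟨S, M, s, g, hNSM, hdis, hs, hg, hsS, hsU, hgM, hgU⟩ := terms hC hid hN
  obtain ⟨D, hDC, hD1, hD2, hD3⟩ := semi_step C S s d hd hdist hs.closed hs.idem hsS hsU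
  have hDdist : MinDist d D := fun x hx y hy hxy => hdist x (hDC hx) y (hDC hy) hxy
  obtain ⟨E, hED, hE1, hE2⟩ := maj_step D S M hdis g d hd hDdist (by
    intro x hx y hy z hz
    apply hD2 _ (hg.closed x (hDC hx) y (hDC hy) z (hDC hz)) x hx
    intro i hi
    show g i (x i) (y i) (z i) = x i
    rw [hD1 y hy x hx i hi, hD1 z hz x hx i hi, hg.idem]) hg.idem hD1 hgM (by
    intro i h1 h2
    exact hgU i (fun h => by
      rcases (hNSM i).1 h with h' | h'
      · exact h1 h'
      · exact h2 h'))
  refine ⟨E, hED.trans hDC, ?_, ?_⟩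
  · intro x hx y hy i hi
    rcases (hNSM i).1 hi with h | h
    · exact hD1 x (hED hx) y (hED hy) i h
    · exact hE1 x hx y hy i h
  · have hcard : S.card + M.card = N.card := by
      rw [← Finset.card_union_of_disjoint hdis]
      congr 1
      ext i
      rw [Finset.mem_union, hNSM]
    have hdiv : S.card / d + M.card / d ≤ N.card / d := by
      rw [← hcard]
      exact Nat.div_add_div_le_add_div
    calc C.card ≤ 2 ^ (S.card / d) * D.card := hD3
      _ ≤ 2 ^ (S.card / d) * (2 ^ (M.card / d) * E.card) := Nat.mul_le_mul_left _ hE2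
      _ = 2 ^ (S.card / d + M.card / d) * E.card := by rw [pow_add, mul_assoc]
      _ ≤ 2 ^ (N.card / d) * E.card :=
          Nat.mul_le_mul_right _ (Nat.pow_le_pow_right (by norm_num) hdiv)

end Pool.Agent.Helper951_poly
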