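import Mathlib

set_option autoImplicit false

namespace Pool.Agent.Helper951_poly

open Finset

/-- A family of sets with pairwise disjoint members of size at least `d` inside `S`. -/
lemma disj_card {ι : Type} [DecidableEq ι] (K : Finset (Finset ι)) (S : Finset ι) (d : ℕ)
    (hd : 0 < d) (hS : ∀ k ∈ K, k ⊆ S) (hc : ∀ k ∈ K, d ≤ k.card)
    (hdis : ∀ k ∈ K, ∀ l ∈ K, k ≠ l → Disjoint k l) : K.card ≤ S.card / d := by
  rw [Nat.le_div_iff_mul_le hd]
  have h1 : (K.biUnion id).card = ∑ k ∈ K, k.card := by
    rw [Finset.card_biUnion]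
    · rfl
    · intro x hx y hy hxy
      exact hdis x hx y hy hxy
  have h2 : (K.biUnion id).card ≤ S.card := by
    apply Finset.card_le_card
    intro i hi
    rw [Finset.mem_biUnion] at hi
    obtain ⟨k, hk, hik⟩ := hi
    exact hS k hk hik
  calc K.card * d = ∑ _k ∈ K, d := by rw [Finset.sum_const, smul_eq_mul]
    _ ≤ ∑ k ∈ K, k.card := Finset.sum_le_sum hc
    _ ≤ S.card := by rw [← h1]; exact h2

/-- A family of subsets of `S` closed under intersections, in which a member and a smaller member
differ in at least `d` elements, has at most `2 ^ (|S| / d)` members. -/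
theorem inter_closed_card {ι : Type} [DecidableEq ι] (L : Finset (Finset ι)) (S : Finset ι) (d : ℕ)
    (hd : 0 < d) (hS : ∀ A ∈ L, A ⊆ S) (hL : ∀ A ∈ L, ∀ B ∈ L, A ∩ B ∈ L)
    (hg : ∀ A ∈ L, ∀ B ∈ L, B ⊂ A → d ≤ (A \ B).card) : L.card ≤ 2 ^ (S.card / d) := by
  classical
  -- irreducible members
  let P : Finset ι → Finset ι → Prop := fun j l => l ∈ L ∧ l ⊂ j ∧ ∀ A ∈ L, A ⊂ j → A ⊆ l
  let J := L.filter (fun j => ∃ l, P j l)
  have hJ : ∀ j ∈ J, ∃ l, P j l := fun j hj => (Finset.mem_filter.1 hj).2
  let low : Finset ι → Finset ι := fun j => if h : ∃ l, P j l then h.choose else ∅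
  have hlow : ∀ j ∈ J, P j (low j) := by
    intro j hj
    have h := hJ j hj
    have : low j = h.choose := dif_pos h
    rw [this]
    exact h.choose_spec
  have key : ∀ j ∈ J, ∀ k ∈ J, ∀ i, i ∈ j \ low j → i ∈ k \ low k → j = k := by
    intro j hj k hk i h1 h2
    rw [Finset.mem_sdiff] at h1 h2
    have hjL : j ∈ L := (Finset.mem_filter.1 hj).1
    have hkL : k ∈ L := (Finset.mem_filter.1 hk).1
    have hjk := hL j hjL k hkL
    have hi : i ∈ j ∩ k := Finset.mem_inter.2 ⟨h1.1, h2.1⟩
    have e1 : j ∩ k = j := by
      by_contra hne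
      have hs : j ∩ k ⊂ j := Finset.ssubset_iff_subset_ne.2 ⟨Finset.inter_subset_left, hne⟩
      exact h1.2 ((hlow j hj).2.2 _ hjk hs hi)
    have e2 : j ∩ k = k := by
      by_contra hne
      have hs : j ∩ k ⊂ k := Finset.ssubset_iff_subset_ne.2 ⟨Finset.inter_subset_right, hne⟩
      exact h2.2 ((hlow k hk).2.2 _ hjk hs hi)
    rw [← e1, e2]
  have hJc : J.card ≤ S.card / d := by
    have hinj : (J.image (fun j => j \ low j)).card = J.card := by
      apply Finset.card_image_of_injOn
      intro j hj k hk hjk
      have hjk : j \ low j = k \ low k := hjk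
      have h1 : (j \ low j).Nonempty := by
        rw [Finset.sdiff_nonempty]
        exact (hlow j hj).2.1.2
      obtain ⟨i, hi⟩ := h1
      exact key j hj k hk i hi (hjk ▸ hi)
    rw [← hinj]
    apply disj_card _ S d hd
    · intro x hx
      obtain ⟨j, hj, rfl⟩ := Finset.mem_image.1 hx
      exact Finset.sdiff_subset.trans (hS j (Finset.mem_filter.1 hj).1)
    · intro x hx
      obtain ⟨j, hj, rfl⟩ := Finset.mem_image.1 hx
      exact hg j (Finset.mem_filter.1 hj).1 _ (hlow j hj).1 (hlow j hj).2.1
    · intro x hx y hy hxy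
      obtain ⟨j, hj, rfl⟩ := Finset.mem_image.1 hx
      obtain ⟨k, hk, rfl⟩ := Finset.mem_image.1 hy
      rw [Finset.disjoint_left]
      intro i h1 h2
      apply hxy
      rw [key j hj k hk i h1 h2]
  -- the injection
  have hinj : L.card ≤ J.powerset.card := by
    apply Finset.card_le_card_of_injOn (fun A => J.filter (fun j => j ⊆ A))
    · intro A _
      exact Finset.mem_coe.2 (Finset.mem_powerset.2 (Finset.filter_subset _ _))
    · have main : ∀ A ∈ L, ∀ B ∈ L, (∀ j ∈ J, j ⊆ A → j ⊆ B) → A ⊆ B := by
        intro A hA B hB h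
        by_contra hcon
        -- a minimal member below `A` and not below `B`
        let T := L.filter (fun X => X ⊆ A ∧ ¬ X ⊆ B)
        have hT : T.Nonempty := ⟨A, Finset.mem_filter.2 ⟨hA, Finset.Subset.refl _, hcon⟩⟩
        obtain ⟨X, hX, hmin⟩ := Finset.exists_min_image T Finset.card hT
        obtain ⟨hXL, hXA, hXB⟩ := Finset.mem_filter.1 hX
        have hXJ : X ∈ J := by
          refine Finset.mem_filter.2 ⟨hXL, X ∩ B, hL X hXL B hB, ?_, ?_⟩
          · refine Finset.ssubset_iff_subset_ne.2 ⟨Finset.inter_subset_left, ?_⟩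
            intro he
            exact hXB (he ▸ Finset.inter_subset_right)
          · intro Y hY hYX
            refine Finset.subset_inter hYX.1 ?_
            by_contra hYB
            have hYT : Y ∈ T := Finset.mem_filter.2 ⟨hY, hYX.1.trans hXA, hYB⟩
            exact absurd (Finset.card_lt_card hYX) (not_lt.2 (hmin Y hYT))
        exact hXB (h X hXJ hXA)
      intro A hA B hB hAB
      have hAB : J.filter (fun j => j ⊆ A) = J.filter (fun j => j ⊆ B) := hAB
      apply Finset.Subset.antisymm
      · apply main A hA B hB
        intro j hj hjA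
        have : j ∈ J.filter (fun j => j ⊆ B) := hAB ▸ Finset.mem_filter.2 ⟨hj, hjA⟩
        exact (Finset.mem_filter.1 this).2
      · apply main B hB A hA
        intro j hj hjA
        have : j ∈ J.filter (fun j => j ⊆ A) := hAB ▸ Finset.mem_filter.2 ⟨hj, hjA⟩
        exact (Finset.mem_filter.1 this).2
  rw [Finset.card_powerset] at hinj
  exact hinj.trans (Nat.pow_le_pow_right (by norm_num) hJc)

/-- Majority of three bits. -/
def maj (a b c : Bool) : Bool := (a && b) || (a && c) || (b && c)

/-- Every two different words of `C` differ in at least `d` coordinates. -/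
def MinDist {ι : Type} [Fintype ι] (d : ℕ) (C : Finset (ι → Bool)) : Prop :=
  ∀ x ∈ C, ∀ y ∈ C, x ≠ y → d ≤ hammingDist x y

/-- A code which is closed under majorities and constant outside `M`, with minimum distance at
least `d`, has at most `2 ^ (|M| / d)` words. -/
theorem maj_closed_card {ι : Type} [Fintype ι] [DecidableEq ι] (Q : Finset (ι → Bool))
    (M : Finset ι) (d : ℕ) (hd : 0 < d)
    (hM : ∀ x ∈ Q, ∀ y ∈ Q, ∀ i ∉ M, x i = y i)
    (hQ : ∀ x ∈ Q, ∀ y ∈ Q, ∀ z ∈ Q, (fun i => maj (x i) (y i) (z i)) ∈ Q)
    (hdist : MinDist d Q) : Q.card ≤ 2 ^ (M.card / d) := by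
  classical
  rcases Q.eq_empty_or_nonempty with rfl | ⟨x0, hx0⟩
  · simp
  -- classes of coordinates
  let R : ι → ι → Prop := fun i j => ∀ x ∈ Q, ∀ y ∈ Q, (x i = y i ↔ x j = y j)
  have Rsymm : ∀ i j, R i j → R j i := fun i j h x hx y hy => (h x hx y hy).symm
  have Rtrans : ∀ i j k, R i j → R j k → R i k :=
    fun i j k h1 h2 x hx y hy => (h1 x hx y hy).trans (h2 x hx y hy)
  let cls : ι → Finset ι := fun i => Finset.univ.filter (fun j => R i j)
  have mem_cls : ∀ i j, j ∈ cls i ↔ R i j := fun i j => by simp [cls]
  have cls_eq : ∀ i j, R i j → cls i = cls j := by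
    intro i j h
    ext k
    rw [mem_cls, mem_cls]
    exact ⟨fun h1 => Rtrans _ _ _ (Rsymm _ _ h) h1, fun h1 => Rtrans _ _ _ h h1⟩
  let NC : Finset ι := Finset.univ.filter (fun i => ∃ x ∈ Q, ∃ y ∈ Q, x i ≠ y i)
  have mem_NC : ∀ i, i ∈ NC ↔ ∃ x ∈ Q, ∃ y ∈ Q, x i ≠ y i := fun i => by simp [NC]
  let K := NC.image cls
  have hK : K.card ≤ M.card / d := by
    apply disj_card K M d hd
    · intro k hk
      obtain ⟨i, hi, rfl⟩ := Finset.mem_image.1 hk
      intro j hj
      rw [mem_cls] at hj
      by_contra hjM
      obtain ⟨x, hx, y, hy, hxy⟩ := (mem_NC i).1 hi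
      exact hxy ((hj x hx y hy).2 (hM x hx y hy j hjM))
    · intro k hk
      obtain ⟨i, hi, rfl⟩ := Finset.mem_image.1 hk
      -- a closest pair
      let T := (Q ×ˢ Q).filter (fun p => p.1 i ≠ p.2 i)
      have hT : T.Nonempty := by
        obtain ⟨x, hx, y, hy, hxy⟩ := (mem_NC i).1 hi
        exact ⟨(x, y), Finset.mem_filter.2 ⟨Finset.mem_product.2 ⟨hx, hy⟩, hxy⟩⟩
      obtain ⟨⟨x, y⟩, hp, hmin⟩ := Finset.exists_min_image T (fun p => hammingDist p.1 p.2) hT
      obtain ⟨hxyQ, hxy⟩ := Finset.mem_filter.1 hp
      obtain ⟨hx, hy⟩ := Finset.mem_product.1 hxyQ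
      have hx : x ∈ Q := hx
      have hy : y ∈ Q := hy
      have hxy : x i ≠ y i := hxy
      have hmin' : ∀ u ∈ Q, ∀ v ∈ Q, u i ≠ v i → hammingDist x y ≤ hammingDist u v :=
        fun u hu v hv huv =>
          hmin (u, v) (Finset.mem_filter.2 ⟨Finset.mem_product.2 ⟨hu, hv⟩, huv⟩)
      have hsub : Finset.univ.filter (fun j => x j ≠ y j) ⊆ cls i := by
        intro j hj
        have hj : x j ≠ y j := (Finset.mem_filter.1 hj).2
        rw [mem_cls]
        -- every word agrees with `x` at `i` iff it agrees at `j`
        have claim : ∀ z ∈ Q, (z i = x i ↔ z j = x j) := by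
          intro z hz
          have hm := hQ x hx y hy z hz
          have mi : maj (x i) (y i) (z i) = z i := by
            revert hxy
            cases x i <;> cases y i <;> cases z i <;> simp [maj]
          have mj : maj (x j) (y j) (z j) = z j := by
            revert hj
            cases x j <;> cases y j <;> cases z j <;> simp [maj]
          by_contra hcon
          by_cases hzi : z i = x i
          · have hzj : z j ≠ x j := fun h => hcon (iff_of_true hzi h)
            have h1 := hmin' _ hm y hy (by
              show maj (x i) (y i) (z i) ≠ y i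
              rw [mi, hzi]
              exact hxy)
            have h2 : hammingDist (fun i => maj (x i) (y i) (z i)) y < hammingDist x y := by
              apply Finset.card_lt_card
              refine Finset.ssubset_iff_subset_ne.2 ⟨?_, ?_⟩
              · intro k hk
                rw [Finset.mem_filter] at hk ⊢
                refine ⟨hk.1, fun h => hk.2 ?_⟩
                show maj (x k) (y k) (z k) = y k
                rw [h]
                cases y k <;> cases z k <;> simp [maj]
              · intro he
                have : j ∈ Finset.univ.filter (fun k => maj (x k) (y k) (z k) ≠ y k) := by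
                  rw [he]
                  exact Finset.mem_filter.2 ⟨Finset.mem_univ _, hj⟩
                have := (Finset.mem_filter.1 this).2
                rw [mj] at this
                revert this hzj hj
                cases x j <;> cases y j <;> cases z j <;> simp
            omega
          · have hzj : z j = x j := by
              by_contra h
              exact hcon (iff_of_false hzi h)
            have h1 := hmin' x hx _ hm (by
              show x i ≠ maj (x i) (y i) (z i)
              rw [mi]
              exact fun h => hzi h.symm)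
            have h2 : hammingDist x (fun i => maj (x i) (y i) (z i)) < hammingDist x y := by
              apply Finset.card_lt_card
              refine Finset.ssubset_iff_subset_ne.2 ⟨?_, ?_⟩
              · intro k hk
                rw [Finset.mem_filter] at hk ⊢
                refine ⟨hk.1, fun h => hk.2 ?_⟩
                show x k = maj (x k) (y k) (z k)
                rw [← h]
                cases x k <;> cases z k <;> simp [maj]
              · intro he
                have : j ∈ Finset.univ.filter (fun k => x k ≠ maj (x k) (y k) (z k)) := by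
                  rw [he]
                  exact Finset.mem_filter.2 ⟨Finset.mem_univ _, hj⟩
                have := (Finset.mem_filter.1 this).2
                rw [mj, hzj] at this
                exact this rfl
            omega
        intro u hu v hv
        have c1 := claim u hu
        have c2 := claim v hv
        revert c1 c2
        cases u i <;> cases v i <;> cases x i <;> cases u j <;> cases v j <;> cases x j <;> simp
      have h1 : x ≠ y := fun h => hxy (by rw [h])
      have h2 := hdist x hx y hy h1
      exact h2.trans (Finset.card_le_card hsub)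
    · intro k hk l hl hkl
      obtain ⟨i, hi, rfl⟩ := Finset.mem_image.1 hk
      obtain ⟨j, hj, rfl⟩ := Finset.mem_image.1 hl
      rw [Finset.disjoint_left]
      intro m h1 h2
      rw [mem_cls] at h1 h2
      exact hkl (cls_eq i j (Rtrans _ _ _ h1 (Rsymm _ _ h2)))
  have hinj : Q.card ≤ K.powerset.card := by
    apply Finset.card_le_card_of_injOn (fun x => K.filter (fun k => ∃ i ∈ k, x i ≠ x0 i))
    · intro A _
      exact Finset.mem_coe.2 (Finset.mem_powerset.2 (Finset.filter_subset _ _))
    · have main : ∀ x ∈ Q, ∀ y ∈ Q, K.filter (fun k => ∃ i ∈ k, x i ≠ x0 i) =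
          K.filter (fun k => ∃ i ∈ k, y i ≠ x0 i) → ∀ i, x i ≠ x0 i → y i ≠ x0 i := by
        intro x hx y hy h i hi
        have hiN : i ∈ NC := (mem_NC i).2 ⟨x, hx, x0, hx0, hi⟩
        have hiK : cls i ∈ K := Finset.mem_image.2 ⟨i, hiN, rfl⟩
        have hself : i ∈ cls i := (mem_cls i i).2 (fun _ _ _ _ => Iff.rfl)
        have h1 : cls i ∈ K.filter (fun k => ∃ i ∈ k, x i ≠ x0 i) :=
          Finset.mem_filter.2 ⟨hiK, i, hself, hi⟩
        rw [h] at h1
        obtain ⟨_, j, hj, hyj⟩ := Finset.mem_filter.1 h1
        rw [mem_cls] at hj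
        exact fun he => hyj ((hj y hy x0 hx0).1 he)
      intro x hx y hy hxy
      have hxy : K.filter (fun k => ∃ i ∈ k, x i ≠ x0 i) =
          K.filter (fun k => ∃ i ∈ k, y i ≠ x0 i) := hxy
      funext i
      have h1 := main x hx y hy hxy i
      have h2 := main y hy x hx hxy.symm i
      revert h1 h2
      cases x i <;> cases y i <;> cases x0 i <;> simp
  rw [Finset.card_powerset] at hinj
  exact hinj.trans (Nat.pow_le_pow_right (by norm_num) hK)

end Pool.Agent.Helper951_poly
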