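import Pool.Agent.Helper951_poly.Multi

set_option autoImplicit false

namespace Pool.Agent.Helper951_poly

open Finset

variable {ι : Type} [Fintype ι] [DecidableEq ι]

/-- In each coordinate of `N` some operation of the code is not affine, which is affine
outside `N`. -/
def Rich (C : Finset (ι → Bool)) (N : Finset ι) : Prop :=
  ∀ i ∈ N, ∃ (k : ℕ) (f : ι → (Fin k → Bool) → Bool), Closed f C ∧ (∀ l ∉ N, Affine (f l)) ∧
    ¬ Affine (f i)

lemma diag_sq {k : ℕ} (f : (Fin k → Bool) → Bool) (h : f (fun _ => false) ≠ f (fun _ => true))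
    (b : Bool) : comp f f (fun _ => b) = b := by
  show f (fun _ => f (fun _ => b)) = b
  cases h0 : f (fun _ => false) <;> cases h1 : f (fun _ => true) <;> cases b <;>
    simp [h0, h1] at h ⊢

lemma key_op {C : Finset (ι → Bool)} {N : Finset ι} (hN : Rich C N) {vs : ι → Finset ι}
    (h1 : ∀ i, Rt C (vs i)) (h2 : ∀ i, i ∈ vs i) (h3 : ∀ i V', Rt C V' → i ∈ V' → vs i ⊆ V')
    {i : ι} {L : Finset ι} (hL : ∀ l, l ∈ L ↔ vs l = vs i) {i' : ι} (hi'L : i' ∈ L)
    (hi'N : i' ∈ N) :
    ∃ (k : ℕ) (g : ι → (Fin k → Bool) → Bool), Closed g C ∧ (∀ l ∉ N, Affine (g l)) ∧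
      ¬ Affine (g i') ∧ (∀ l ∈ vs i \ L, ∀ b, g l (fun _ => b) = b) ∧
      (∀ l, g l (fun _ => false) ≠ g l (fun _ => true) → ∀ b, g l (fun _ => b) = b) := by
  classical
  obtain ⟨k, f, hf1, hf2, hf3⟩ := hN i' hi'N
  refine ⟨k * k, fun l => comp (f l) (f l), closed_comp hf1 hf1,
    fun l hl => affine_comp (hf2 l hl) (hf2 l hl), fun h => hf3 (affine_of_sq h), ?_, ?_⟩
  · intro l hl b
    apply diag_sq
    obtain ⟨hlV, hlL⟩ := Finset.mem_sdiff.1 hl
    have hsub : vs l ⊆ vs i := h3 l _ (h1 i) hlV
    have hi'l : i' ∉ vs l := by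
      intro h
      have h4 := h3 i' _ (h1 l) h
      rw [(hL i').1 hi'L] at h4
      exact hlL ((hL l).2 (Finset.Subset.antisymm hsub h4))
    obtain ⟨c', hc'⟩ := h1 l
    obtain ⟨J, hJ⟩ := exists_pattern hf3 (c' i')
    let u : ι → Bool → Bool := fun m b =>
      f m (fun j => if J j = true then b else if m ∈ vs l then b else c' m)
    have hu : ∀ x ∈ C, (fun m => u m (x m)) ∈ C := by
      intro x hx
      have := hf1 (fun j => if J j = true then x else mix (vs l) x c') (by
        intro j
        by_cases hj : J j = true
        · simp only [hj, if_true]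
          exact hx
        · simp only [hj]
          exact hc' x hx)
      convert this using 1
      funext m
      show f m _ = f m _
      congr 1
      funext j
      by_cases hj : J j = true
      · simp only [hj, if_true]
      · simp only [hj]
        rfl
    have hui : u i' false ≠ u i' true := by
      have e1 : u i' (c' i') = f i' (fun _ => c' i') := by
        show f i' _ = _
        congr 1
        funext j
        simp [hi'l]
      have e2 : u i' (!c' i') = f i' (fun j => if J j = true then !c' i' else c' i') := by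
        show f i' _ = _
        congr 1
        funext j
        simp [hi'l]
      rw [← e1, ← e2] at hJ
      revert hJ
      cases c' i'
      · exact fun h h' => h h'.symm
      · exact fun h h' => h h'
    have hW := rt_unary u hu
    have h4 := h3 i' _ hW (by simpa using hui)
    rw [(hL i').1 hi'L] at h4
    have h5 := h4 hlV
    have h6 : u l false ≠ u l true := by simpa using h5
    have e3 : ∀ b, u l b = f l (fun _ => b) := by
      intro b
      show f l _ = _
      congr 1
      funext j
      simp [h2 l]
    rw [e3, e3] at h6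
    exact h6
  · intro l hl b
    apply diag_sq
    intro h
    apply hl
    show f l (fun _ => f l (fun _ => false)) = f l (fun _ => f l (fun _ => true))
    rw [h]

lemma affine_pat {k : ℕ} (g : (Fin k → Bool) → Bool) (b e : Bool) :
    Affine (fun J : Fin k → Bool => xor (g (fun j => xor (J j) b)) e) ↔ Affine g := by
  rw [affine_xor (fun J : Fin k → Bool => g (fun j => xor (J j) b)) e]
  constructor
  · exact affine_shift g b
  · intro h x y z
    show g (fun j => xor (x3 (x j) (y j) (z j)) b) = _
    rw [← h]
    congr 1
    funext j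
    unfold x3
    cases x j <;> cases y j <;> cases z j <;> cases b <;> rfl

theorem fibre_bound (C : Finset (ι → Bool)) (N : Finset ι) (d : ℕ) (hd : 0 < d)
    (hdist : MinDist d C) (hN : Rich C N) (vs : ι → Finset ι) (h1 : ∀ i, Rt C (vs i))
    (h2 : ∀ i, i ∈ vs i) (h3 : ∀ i V', Rt C V' → i ∈ V' → vs i ⊆ V') (i : ι) (L : Finset ι)
    (hL : ∀ l, l ∈ L ↔ vs l = vs i) (y : ι → Bool) :
    ((C.filter (fun x => ∀ l ∈ vs i \ L, x l = y l)).image (mask L)).card ≤ Phi N d L := by
  classical
  obtain ⟨c, hc⟩ := h1 i
  have hLV : L ⊆ vs i := by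
    intro l hl
    rw [← (hL l).1 hl]
    exact h2 l
  let F := (C.filter (fun x => ∀ l ∈ vs i \ L, x l = y l)).image (fun x => mix (vs i) x c)
  have hFmix : ∀ x ∈ C, (∀ l ∈ vs i \ L, x l = y l) → mix (vs i) x c ∈ F := by
    intro x hx h
    exact Finset.mem_image.2 ⟨x, Finset.mem_filter.2 ⟨hx, h⟩, rfl⟩
  have hFC : F ⊆ C := by
    intro w hw
    obtain ⟨x, hx, rfl⟩ := Finset.mem_image.1 hw
    exact hc x (Finset.mem_filter.1 hx).1
  have hFM : ∀ x ∈ F, ∀ l ∈ vs i \ L, x l = y l := by
    intro w hw l hl
    obtain ⟨x, hx, rfl⟩ := Finset.mem_image.1 hw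
    show mix (vs i) x c l = y l
    rw [mix_in (Finset.mem_sdiff.1 hl).1]
    exact (Finset.mem_filter.1 hx).2 l hl
  have hFV : ∀ x ∈ F, ∀ l ∉ vs i, x l = c l := by
    intro w hw l hl
    obtain ⟨x, hx, rfl⟩ := Finset.mem_image.1 hw
    exact mix_out hl
  have hFconst : ∀ x ∈ F, ∀ x' ∈ F, ∀ l ∉ L, x l = x' l := by
    intro x hx x' hx' l hl
    by_cases hlV : l ∈ vs i
    · have hl' := Finset.mem_sdiff.2 ⟨hlV, hl⟩
      rw [hFM x hx l hl', hFM x' hx' l hl']
    · rw [hFV x hx l hlV, hFV x' hx' l hlV]
  have hFdist : MinDist d F := fun x hx y hy hxy => hdist x (hFC hx) y (hFC hy) hxy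
  have himg : (C.filter (fun x => ∀ l ∈ vs i \ L, x l = y l)).image (mask L) ⊆
      F.image (mask L) := by
    intro w hw
    obtain ⟨x, hx, rfl⟩ := Finset.mem_image.1 hw
    refine Finset.mem_image.2 ⟨_, hFmix x (Finset.mem_filter.1 hx).1 (Finset.mem_filter.1 hx).2, ?_⟩
    funext l
    by_cases hl : l ∈ L
    · rw [mask_in hl, mask_in hl, mix_in (hLV hl)]
    · rw [mask_out hl, mask_out hl]
  refine ((Finset.card_le_card himg).trans Finset.card_image_le).trans ?_
  rcases F.eq_empty_or_nonempty with hF0 | ⟨x0, hx0⟩
  · rw [hF0]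
    simp
  by_cases hNL : ∃ i' ∈ L, i' ∈ N
  swap
  · push Not at hNL
    have e1 : N ∩ L = ∅ := by
      rw [Finset.eq_empty_iff_forall_notMem]
      intro l hl
      rw [Finset.mem_inter] at hl
      exact hNL l hl.2 hl.1
    have e2 : L \ N = L := by
      rw [Finset.sdiff_eq_self_iff_disjoint, Finset.disjoint_left]
      exact hNL
    unfold Phi
    rw [e1, e2]
    simpa using card_le_A_const L F hFconst d hFdist
  obtain ⟨i', hi'L, hi'N⟩ := hNL
  by_cases hB : ∃ u : ι → Bool → Bool, (∀ x ∈ C, (fun m => u m (x m)) ∈ C) ∧
      (∀ l ∈ vs i \ L, ∀ b, u l b = b) ∧ ∃ l0 ∈ L, u l0 false = u l0 true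
  · obtain ⟨u, hu, huM, l0, hl0, hul0⟩ := hB
    have hM : Rt C (vs i \ L) := by
      have h4 := rt_inter (h1 i) (rt_unary u hu)
      have h5 : vs i ∩ (Finset.univ.filter (fun m => u m false ≠ u m true)) = vs i \ L := by
        ext m
        rw [Finset.mem_inter, Finset.mem_sdiff, Finset.mem_filter]
        constructor
        · rintro ⟨hm1, -, hm2⟩
          refine ⟨hm1, fun hmL => ?_⟩
          have h6 := h3 m _ h4 (by
            rw [Finset.mem_inter, Finset.mem_filter]
            exact ⟨hm1, Finset.mem_univ _, hm2⟩)
          rw [(hL m).1 hmL] at h6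
          have h7 := h6 (hLV hl0)
          rw [Finset.mem_inter, Finset.mem_filter] at h7
          exact h7.2.2 hul0
        · rintro ⟨hm1, hm2⟩
          refine ⟨hm1, Finset.mem_univ _, ?_⟩
          rw [huM m (Finset.mem_sdiff.2 ⟨hm1, hm2⟩), huM m (Finset.mem_sdiff.2 ⟨hm1, hm2⟩)]
          simp
      rw [h5] at h4
      exact h4
    obtain ⟨cM, hcM⟩ := hM
    obtain ⟨k, g, hg1, hg2, hg3, hg4, -⟩ := key_op hN h1 h2 h3 hL hi'L hi'N
    -- the unary operations
    have hU : ∀ J : Fin k → Bool, ∀ x ∈ C, (fun m => g m (fun j => if J j = true then x m else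
        if m ∈ vs i \ L then x m else cM m)) ∈ C := by
      intro J x hx
      have := hg1 (fun j => if J j = true then x else mix (vs i \ L) x cM) (by
        intro j
        by_cases hj : J j = true
        · simp only [hj, if_true]
          exact hx
        · simp only [hj]
          exact hcM x hx)
      convert this using 1
      funext m
      show g m _ = g m _
      congr 1
      funext j
      by_cases hj : J j = true
      · simp only [hj, if_true]
      · simp only [hj]
        rfl
    let H : ι → (Fin k → Bool) → Bool := fun l J =>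
      xor (g l (fun j => xor (J j) (cM l))) (g l (fun _ => cM l))
    have hLM : ∀ l ∈ L, l ∉ vs i \ L := fun l hl h => (Finset.mem_sdiff.1 h).2 hl
    have hperm : ∀ l ∈ L, ∀ J : Fin k → Bool, (g l (fun j => if J j = true then false else
        if l ∈ vs i \ L then false else cM l) ≠ g l (fun j => if J j = true then true else
        if l ∈ vs i \ L then true else cM l)) ↔ H l J = true := by
      intro l hl J
      simp only [hLM l hl, if_false]
      have e1 : ∀ b, g l (fun j => if J j = true then b else cM l) =
          if b = cM l then g l (fun _ => cM l) else g l (fun j => xor (J j) (cM l)) := by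
        intro b
        by_cases hb : b = cM l
        · rw [if_pos hb, hb]
          congr 1
          funext j
          simp
        · rw [if_neg hb]
          congr 1
          funext j
          revert hb
          cases J j <;> cases b <;> cases cM l <;> simp
      rw [e1, e1]
      show _ ↔ xor (g l (fun j => xor (J j) (cM l))) (g l (fun _ => cM l)) = true
      generalize g l (fun j => xor (J j) (cM l)) = p
      generalize g l (fun _ => cM l) = q
      cases cM l <;> cases p <;> cases q <;> simp
    have hunif1 : ∀ l ∈ L, ∀ l' ∈ L, ∀ J, H l J = true → H l' J = true := by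
      intro l hl l' hl' J hJ
      have hW := rt_unary (fun m b => g m (fun j => if J j = true then b else
        if m ∈ vs i \ L then b else cM m)) (hU J)
      have h4 := h3 l _ hW (by
        rw [Finset.mem_filter]
        exact ⟨Finset.mem_univ _, (hperm l hl J).2 hJ⟩)
      rw [(hL l).1 hl] at h4
      have h5 := h4 (hLV hl')
      rw [Finset.mem_filter] at h5
      exact (hperm l' hl' J).1 h5.2
    have hunif : ∀ l ∈ L, H l = H i' := by
      intro l hl
      funext J
      have a1 := hunif1 l hl i' hi'L J
      have a2 := hunif1 i' hi'L l hl J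
      revert a1 a2
      cases H l J <;> cases H i' J <;> simp
    have hHaff : ∀ l, Affine (H l) ↔ Affine (g l) := fun l => affine_pat (g l) _ _
    have hHi : ¬ Affine (H i') := fun h => hg3 ((hHaff i').1 h)
    have hLN : L ⊆ N := by
      intro l hl
      by_contra h
      apply hHi
      rw [← hunif l hl]
      exact (hHaff l).2 (hg2 l h)
    obtain ⟨J0, hJ0⟩ : ∃ J0, H i' J0 = true := by
      obtain ⟨J, hJ⟩ := exists_pattern hg3 (cM i')
      refine ⟨J, ?_⟩
      have e1 : (fun j => if J j = true then !cM i' else cM i') = fun j => xor (J j) (cM i') := by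
        funext j
        cases J j <;> cases cM i' <;> rfl
      rw [e1] at hJ
      show xor (g i' (fun j => xor (J j) (cM i'))) (g i' (fun _ => cM i')) = true
      revert hJ
      generalize g i' (fun j => xor (J j) (cM i')) = p
      generalize g i' (fun _ => cM i') = q
      cases p <;> cases q <;> simp
    -- the base word
    obtain ⟨z, hzF, hzL⟩ : ∃ z ∈ F, ∀ l ∈ L, z l = cM l := by
      refine ⟨mix (vs i) (mix (vs i \ L) x0 cM) c, hFmix _ (hcM x0 (hFC hx0)) ?_, ?_⟩
      · intro l hl
        rw [mix_in hl]
        exact hFM x0 hx0 l hl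
      · intro l hl
        rw [mix_in (hLV hl), mix_out (hLM l hl)]
    let T : (ι → Bool) → (ι → Bool) := fun x l => xor (x l) (z l)
    have TT : ∀ x, T (T x) = x := by
      intro x
      funext l
      show xor (xor (x l) (z l)) (z l) = x l
      cases x l <;> cases z l <;> rfl
    have Tinj : Function.Injective T := Function.LeftInverse.injective TT
    have dT : ∀ x y, hammingDist (T x) (T y) = hammingDist x y := by
      intro x y
      unfold hammingDist
      congr 1
      ext l
      simp only [Finset.mem_filter, Finset.mem_univ, true_and, T]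
      cases x l <;> cases y l <;> cases z l <;> simp
    have hTconst : ∀ x ∈ F.image T, ∀ x' ∈ F.image T, ∀ l ∉ L, x l = x' l := by
      intro w hw w' hw' l hl
      obtain ⟨x, hx, rfl⟩ := Finset.mem_image.1 hw
      obtain ⟨x', hx', rfl⟩ := Finset.mem_image.1 hw'
      show xor (x l) (z l) = xor (x' l) (z l)
      rw [hFconst x hx x' hx' l hl]
    have hTdist : MinDist d (F.image T) := by
      intro w hw w' hw' hne
      obtain ⟨x, hx, rfl⟩ := Finset.mem_image.1 hw
      obtain ⟨x', hx', rfl⟩ := Finset.mem_image.1 hw'
      rw [dT]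
      exact hFdist x hx x' hx' (fun h => hne (by rw [h]))
    have hcl : ClosedU (H i') (res L (F.image T)) := by
      intro X hX
      have : ∀ j, ∃ x ∈ F, ∀ l : {l // l ∈ L}, xor (x l.1) (z l.1) = X j l := by
        intro j
        obtain ⟨w, hw, hwX⟩ := Finset.mem_image.1 (hX j)
        obtain ⟨x, hx, rfl⟩ := Finset.mem_image.1 hw
        exact ⟨x, hx, fun l => congrFun hwX l⟩
      choose x hx hxX using this
      have hw1 : (fun m => g m (fun j => x j m)) ∈ C := hg1 x (fun j => hFC (hx j))
      have hw2 := hU J0 _ hw1
      have hw3 := hFmix _ hw2 (by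
        intro l hl
        have e1 : (fun j => x j l) = fun _ => y l := by
          funext j
          exact hFM _ (hx j) l hl
        simp only [hl, if_true, ite_self]
        rw [e1, hg4 l hl, hg4 l hl])
      refine Finset.mem_image.2 ⟨T _, Finset.mem_image.2 ⟨_, hw3, rfl⟩, ?_⟩
      funext l
      show xor (mix (vs i) _ c l.1) (z l.1) = H i' (fun j => X j l)
      rw [mix_in (hLV l.2), ← hunif l.1 l.2, hzL l.1 l.2]
      simp only [hLM l.1 l.2, if_false]
      have e2 : (fun j => x j l.1) = fun j => xor (X j l) (cM l.1) := by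
        funext j
        rw [← hxX, hzL l.1 l.2]
        cases x j l.1 <;> cases cM l.1 <;> rfl
      rw [e2]
      have e3 : H l.1 J0 = true := by rw [hunif l.1 l.2]; exact hJ0
      have e4 : xor (g l.1 (fun j => xor (J0 j) (cM l.1))) (g l.1 (fun _ => cM l.1)) = true := e3
      have e5 : ∀ b, g l.1 (fun j => if J0 j = true then b else cM l.1) =
          if b = cM l.1 then g l.1 (fun _ => cM l.1) else g l.1 (fun j => xor (J0 j) (cM l.1)) := by
        intro b
        by_cases hb : b = cM l.1
        · rw [if_pos hb, hb]
          congr 1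
          funext j
          simp
        · rw [if_neg hb]
          congr 1
          funext j
          revert hb
          cases J0 j <;> cases b <;> cases cM l.1 <;> simp
      rw [e5]
      show _ = xor (g l.1 (fun j => xor (X j l) (cM l.1))) (g l.1 (fun _ => cM l.1))
      revert e4
      generalize g l.1 (fun j => xor (J0 j) (cM l.1)) = p
      generalize g l.1 (fun _ => cM l.1) = q
      generalize g l.1 (fun j => xor (X j l) (cM l.1)) = s
      cases cM l.1 <;> cases p <;> cases q <;> cases s <;> simp
    have h4 := uniform_bound (H i') hHi (res L (F.image T)) hcl d hd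
      (res_dist _ _ hTconst d hTdist)
    rw [res_card _ _ hTconst, Finset.card_image_of_injective _ Tinj, Fintype.card_coe] at h4
    have e1 : N ∩ L = L := Finset.inter_eq_right.2 hLN
    unfold Phi
    rw [e1]
    calc F.card ≤ 2 ^ (L.card / d) * 1 := by rw [mul_one]; exact h4
      _ ≤ _ := Nat.mul_le_mul_left _ (A_pos _ _)
  · push Not at hB
    have hG : ∀ S : Finset ι, (∀ a ∈ S, a ∈ L ∧ a ∈ N) →
        ∃ (k : ℕ) (G : ι → (Fin k → Bool) → Bool), Closed G C ∧ (∀ l ∉ N, Affine (G l)) ∧
        (∀ a ∈ S, ¬ Affine (G a)) ∧ (∀ l ∈ vs i, ∀ b, G l (fun _ => b) = b) := by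
      intro S
      induction S using Finset.induction_on with
      | empty =>
        intro _
        refine ⟨1, fun _ x => x 0, fun x hx => hx 0, fun l _ x y z => rfl, by simp,
          fun l _ b => rfl⟩
      | insert a S _ ih =>
        intro hS
        obtain ⟨k, G, hG1, hG2, hG3, hG4⟩ := ih (fun b hb => hS b (Finset.mem_insert_of_mem hb))
        obtain ⟨haL, haN⟩ := hS a (Finset.mem_insert_self _ _)
        obtain ⟨r, g, hg1, hg2, hg3, hg4, hg5⟩ := key_op hN h1 h2 h3 hL haL haN
        have hgid : ∀ l ∈ vs i, ∀ b, g l (fun _ => b) = b := by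
          intro l hl
          by_cases hlL : l ∈ L
          · exact hg5 l (hB (fun m b => g m (fun _ => b)) (fun x hx => hg1 (fun _ => x)
              (fun _ => hx)) (fun m hm b => hg4 m hm b) l hlL)
          · exact hg4 l (Finset.mem_sdiff.2 ⟨hl, hlL⟩)
        refine ⟨k * r, fun l => comp (G l) (g l), closed_comp hG1 hg1,
          fun l hl => affine_comp (hG2 l hl) (hg2 l hl), ?_, ?_⟩
        · intro b hb h
          rcases Finset.mem_insert.1 hb with rfl | hb
          · exact hg3 (affine_of_comp_right (hG4 _ (hLV haL)) h)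
          · exact hG3 b hb (affine_of_comp_left
              (hgid b (hLV (hS b (Finset.mem_insert_of_mem hb)).1)) h)
        · intro l hl b
          show G l (fun _ => g l (fun _ => b)) = b
          rw [hgid l hl, hG4 l hl]
    obtain ⟨k, G, hG1, hG2, hG3, hG4⟩ := hG (N ∩ L) (fun a ha =>
      ⟨(Finset.mem_inter.1 ha).2, (Finset.mem_inter.1 ha).1⟩)
    obtain ⟨j0⟩ : Nonempty (Fin k) := by
      by_contra hk
      rw [not_nonempty_iff] at hk
      have a1 := hG4 i' (hLV hi'L) false
      have a2 := hG4 i' (hLV hi'L) true
      have a3 : (fun _ : Fin k => false) = fun _ => true := funext (fun j => hk.elim j)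
      rw [a3, a2] at a1
      exact absurd a1 (by decide)
    let G' : ι → (Fin k → Bool) → Bool := fun l x => if l ∈ L then G l x else x j0
    have hG'L : ∀ l ∈ L, G' l = G l := by
      intro l hl
      funext x
      exact if_pos hl
    have hG'K : ∀ l ∉ L, G' l = fun x => x j0 := by
      intro l hl
      funext x
      exact if_neg hl
    have hcl : Closed G' F := by
      intro x hx
      have hw : (fun m => G m (fun j => x j m)) ∈ C := hG1 x (fun j => hFC (hx j))
      have hw2 := hFmix _ hw (by
        intro l hl
        have e1 : (fun j => x j l) = fun _ => y l := by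
          funext j
          exact hFM _ (hx j) l hl
        show G l (fun j => x j l) = y l
        rw [e1]
        exact hG4 l (Finset.mem_sdiff.1 hl).1 _)
      convert hw2 using 1
      funext l
      by_cases hl : l ∈ L
      · rw [hG'L l hl, mix_in (hLV hl)]
      · rw [hG'K l hl]
        show x j0 l = _
        exact hFconst _ (hx j0) _ hw2 l hl
    have hid' : ∀ l, Idem (G' l) := by
      intro l b
      by_cases hl : l ∈ L
      · rw [hG'L l hl]
        exact hG4 l (hLV hl) b
      · rw [hG'K l hl]
    have hN' : ∀ l, l ∉ N ∩ L ↔ Affine (G' l) := by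
      intro l
      by_cases hl : l ∈ L
      · rw [hG'L l hl, Finset.mem_inter]
        constructor
        · intro h
          exact hG2 l (fun h' => h ⟨h', hl⟩)
        · intro h h'
          exact hG3 l (Finset.mem_inter.2 h') h
      · rw [hG'K l hl]
        constructor
        · intro _ x y z
          rfl
        · intro _ h
          exact hl (Finset.mem_inter.1 h).2
    obtain ⟨E, hEF, hE, hcard⟩ := mixed G' hid' (N ∩ L) hN' F hcl d hd hFdist
    have hEc := card_le_A_const (L \ N) E (by
      intro x hx y hy l hl
      by_cases hlL : l ∈ L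
      · have hlN : l ∈ N := by
          by_contra h
          exact hl (Finset.mem_sdiff.2 ⟨hlL, h⟩)
        exact hE x hx y hy l (Finset.mem_inter.2 ⟨hlN, hlL⟩)
      · exact hFconst x (hEF hx) y (hEF hy) l hlL) d
      (fun x hx y hy hxy => hFdist x (hEF hx) y (hEF hy) hxy)
    exact hcard.trans (Nat.mul_le_mul_left _ hEc)

/-- **The bound for families of operations.** -/
theorem rich_bound (C : Finset (ι → Bool)) (N : Finset ι) (d : ℕ) (hd : 0 < d)
    (hdist : MinDist d C) (hN : Rich C N) : C.card ≤ Phi N d Finset.univ := by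
  classical
  have hvs := vs_exists C
  choose vs h1 h2 h3 using hvs
  have main : ∀ (n : ℕ) (S : Finset ι), S.card = n → (∀ i ∈ S, vs i ⊆ S) →
      (C.image (mask S)).card ≤ Phi N d S := by
    intro n
    induction n using Nat.strong_induction_on with
    | _ n ih =>
      intro S hSn hS
      rcases S.eq_empty_or_nonempty with rfl | hne
      · have h4 : C.image (mask ∅) ⊆ {fun _ => false} := by
          intro w hw
          obtain ⟨x, hx, rfl⟩ := Finset.mem_image.1 hw
          rw [Finset.mem_singleton]
          funext l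
          exact mask_out (Finset.notMem_empty _)
        exact (Finset.card_le_card h4).trans (by simpa using Phi_pos N d ∅)
      obtain ⟨i, hi, hmax⟩ := Finset.exists_max_image S (fun i => (vs i).card) hne
      let L : Finset ι := Finset.univ.filter (fun l => vs l = vs i)
      have hL : ∀ l, l ∈ L ↔ vs l = vs i := fun l => by simp [L]
      have hLS : L ⊆ S := by
        intro l hl
        have := h2 l
        rw [(hL l).1 hl] at this
        exact hS i hi this
      have hiL : i ∈ L := (hL i).2 rfl
      have hS' : ∀ l ∈ S \ L, vs l ⊆ S \ L := by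
        intro l hl m hm
        obtain ⟨hl1, hl2⟩ := Finset.mem_sdiff.1 hl
        refine Finset.mem_sdiff.2 ⟨hS l hl1 hm, fun hmL => ?_⟩
        have h4 := h3 m _ (h1 l) hm
        rw [(hL m).1 hmL] at h4
        have h5 := Finset.eq_of_subset_of_card_le h4 (hmax l hl1)
        exact hl2 ((hL l).2 h5.symm)
      have hlt : (S \ L).card < n := by
        rw [← hSn]
        apply Finset.card_lt_card
        refine Finset.ssubset_iff_subset_ne.2 ⟨Finset.sdiff_subset, fun h => ?_⟩
        rw [← h] at hi
        exact (Finset.mem_sdiff.1 hi).2 hiL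
      have hrec := ih _ hlt (S \ L) rfl hS'
      have hfib : ∀ w ∈ (C.image (mask S)).image (mask (S \ L)),
          ((C.image (mask S)).filter (fun x => mask (S \ L) x = w)).card ≤ Phi N d L := by
        intro w _
        refine le_trans ?_ (fibre_bound C N d hd hdist hN vs h1 h2 h3 i L hL w)
        apply Finset.card_le_card_of_injOn (mask L)
        · intro x hx
          obtain ⟨hx1, hx2⟩ := Finset.mem_filter.1 hx
          obtain ⟨x', hx', rfl⟩ := Finset.mem_image.1 hx1
          refine Finset.mem_coe.2 (Finset.mem_image.2 ⟨x', Finset.mem_filter.2 ⟨hx', ?_⟩, ?_⟩)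
          · intro l hl
            obtain ⟨hl1, hl2⟩ := Finset.mem_sdiff.1 hl
            have hlS : l ∈ S := hS i hi hl1
            rw [← hx2, mask_in (Finset.mem_sdiff.2 ⟨hlS, hl2⟩), mask_in hlS]
          · funext l
            by_cases hl : l ∈ L
            · rw [mask_in hl, mask_in hl, mask_in (hLS hl)]
            · rw [mask_out hl, mask_out hl]
        · intro x hx x' hx' hxx
          obtain ⟨hx1, hx2⟩ := Finset.mem_filter.1 hx
          obtain ⟨hx1', hx2'⟩ := Finset.mem_filter.1 hx'
          obtain ⟨v, hv, rfl⟩ := Finset.mem_image.1 hx1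
          obtain ⟨v', hv', rfl⟩ := Finset.mem_image.1 hx1'
          funext l
          by_cases hlL : l ∈ L
          · have := congrFun hxx l
            rwa [mask_in hlL, mask_in hlL] at this
          · by_cases hlS : l ∈ S
            · have := congrFun (hx2.trans hx2'.symm) l
              rwa [mask_in (Finset.mem_sdiff.2 ⟨hlS, hlL⟩),
                mask_in (Finset.mem_sdiff.2 ⟨hlS, hlL⟩)] at this
            · rw [mask_out hlS, mask_out hlS]
      have himg : (C.image (mask S)).image (mask (S \ L)) ⊆ C.image (mask (S \ L)) := by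
        intro w hw
        obtain ⟨x, hx, rfl⟩ := Finset.mem_image.1 hw
        obtain ⟨x', hx', rfl⟩ := Finset.mem_image.1 hx
        refine Finset.mem_image.2 ⟨x', hx', ?_⟩
        funext l
        by_cases hl : l ∈ S \ L
        · rw [mask_in hl, mask_in hl, mask_in (Finset.mem_sdiff.1 hl).1]
        · rw [mask_out hl, mask_out hl]
      calc (C.image (mask S)).card ≤
          Phi N d L * ((C.image (mask S)).image (mask (S \ L))).card :=
            Finset.card_le_mul_card_image _ _ hfib
        _ ≤ Phi N d L * Phi N d (S \ L) :=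
            Nat.mul_le_mul_left _ ((Finset.card_le_card himg).trans hrec)
        _ ≤ Phi N d (L ∪ (S \ L)) := Phi_mul N d _ _ Finset.disjoint_sdiff
        _ = Phi N d S := by rw [Finset.union_sdiff_of_subset hLS]
  have h4 := main _ Finset.univ rfl (fun i _ => Finset.subset_univ _)
  have h5 : C.image (mask Finset.univ) = C := by
    ext w
    rw [Finset.mem_image]
    have e : ∀ x : ι → Bool, mask Finset.univ x = x := by
      intro x
      funext l
      exact mask_in (Finset.mem_univ _)
    constructor
    · rintro ⟨x, hx, rfl⟩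
      rw [e]
      exact hx
    · intro hw
      exact ⟨w, hw, e w⟩
  rwa [h5] at h4

end Pool.Agent.Helper951_poly
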