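import Pool.Agent.Helper951_poly.Zero

set_option autoImplicit false

namespace Pool.Agent.Helper951_poly

open Finset

lemma affine_xor {k : ℕ} (f : (Fin k → Bool) → Bool) (c : Bool) :
    Affine (fun x => xor (f x) c) ↔ Affine f := by
  have key : ∀ a b e g : Bool, (xor g c = x3 (xor a c) (xor b c) (xor e c)) ↔ g = x3 a b e := by
    intro a b e g
    unfold x3
    cases a <;> cases b <;> cases e <;> cases g <;> cases c <;> simp
  constructor
  · intro h x y z
    exact (key _ _ _ _).1 (h x y z)
  · intro h x y z
    exact (key _ _ _ _).2 (h x y z)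

lemma affine_shift {k : ℕ} (f : (Fin k → Bool) → Bool) (c : Bool)
    (h : Affine (fun x => f (fun a => xor (x a) c))) : Affine f := by
  intro x y z
  have := h (fun a => xor (x a) c) (fun a => xor (y a) c) (fun a => xor (z a) c)
  have e1 : ∀ x : Fin k → Bool, (fun a => xor (xor (x a) c) c) = x := by
    intro x
    funext a
    cases x a <;> cases c <;> rfl
  have e2 : (fun a => xor (x3 (xor (x a) c) (xor (y a) c) (xor (z a) c)) c) =
      fun a => x3 (x a) (y a) (z a) := by
    funext a
    unfold x3
    cases x a <;> cases y a <;> cases z a <;> cases c <;> rfl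
  simp only [e1, e2] at this
  exact this

/-- the operation used in the coordinates with a constant diagonal -/
def dbl {r : ℕ} (f : (Fin r → Bool) → Bool) (c : Bool) (y : Fin (r * r) → Bool) : Bool :=
  xor (f (fun a => f (fun b => xor (y (finProdFinEquiv (a, b))) c))) c

lemma affine_dbl {r : ℕ} (f : (Fin r → Bool) → Bool) (c : Bool) (h0 : f (fun _ => false) = c) :
    Affine (dbl f c) ↔ Affine f := by
  constructor
  · intro h
    have h1 : Affine (fun y : Fin (r * r) → Bool =>
        f (fun a => f (fun b => xor (y (finProdFinEquiv (a, b))) c))) := (affine_xor _ c).1 h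
    by_cases hu : ∃ u, f u ≠ c
    · obtain ⟨u, hu⟩ := hu
      have hu' : f u = !c := by
        revert hu
        cases f u <;> cases c <;> simp
      apply affine_shift f c
      intro x y z
      let Y : (Fin r → Bool) → (Fin (r * r) → Bool) := fun x m =>
        xor (x (finProdFinEquiv.symm m).1 && u (finProdFinEquiv.symm m).2) c
      have hY : ∀ x : Fin r → Bool,
          f (fun a => f (fun b => xor (Y x (finProdFinEquiv (a, b))) c)) =
            f (fun a => xor (x a) c) := by
        intro x
        congr 1
        funext a
        have e1 : (fun b => xor (Y x (finProdFinEquiv (a, b))) c) = fun b => (x a && u b) := by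
          funext b
          show xor (xor (x (finProdFinEquiv.symm (finProdFinEquiv (a, b))).1 &&
            u (finProdFinEquiv.symm (finProdFinEquiv (a, b))).2) c) c = _
          rw [Equiv.symm_apply_apply]
          cases x a <;> cases u b <;> cases c <;> rfl
        rw [e1]
        cases x a
        · simpa using h0
        · simpa using hu'
      have h2 := h1 (Y x) (Y y) (Y z)
      have e2 : (fun m => x3 (Y x m) (Y y m) (Y z m)) = Y (fun j => x3 (x j) (y j) (z j)) := by
        funext m
        show x3 (xor (x _ && u _) c) (xor (y _ && u _) c) (xor (z _ && u _) c) =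
          xor (x3 (x _) (y _) (z _) && u _) c
        unfold x3
        cases x (finProdFinEquiv.symm m).1 <;> cases y (finProdFinEquiv.symm m).1 <;>
          cases z (finProdFinEquiv.symm m).1 <;> cases u (finProdFinEquiv.symm m).2 <;>
          cases c <;> rfl
      rw [e2] at h2
      simp only [hY] at h2
      exact h2
    · push Not at hu
      intro x y z
      rw [hu, hu, hu, hu]
      unfold x3
      cases c <;> rfl
  · intro h
    refine (affine_xor _ c).2 ?_
    intro x y z
    show f (fun a => f (fun b => xor (x3 (x (finProdFinEquiv (a, b)))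
      (y (finProdFinEquiv (a, b))) (z (finProdFinEquiv (a, b)))) c)) = _
    rw [← h]
    congr 1
    funext a
    rw [← h]
    congr 1
    funext b
    unfold x3
    cases x (finProdFinEquiv (a, b)) <;> cases y (finProdFinEquiv (a, b)) <;>
      cases z (finProdFinEquiv (a, b)) <;> cases c <;> rfl

/-- **The general bound.** -/
theorem general_bound {ι : Type} [Fintype ι] [DecidableEq ι] {r : ℕ}
    (f : ι → (Fin r → Bool) → Bool) (C : Finset (ι → Bool)) (N : Finset ι) (d : ℕ) (hd : 0 < d)
    (hc : Closed f C) (hN : ∀ i, i ∉ N ↔ Affine (f i)) (hdist : MinDist d C) :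
    C.card ≤ Phi N d Finset.univ := by
  classical
  rcases r with _ | r
  · -- constants
    have hN0 : N = ∅ := by
      rw [Finset.eq_empty_iff_forall_notMem]
      intro i
      rw [hN]
      intro x y z
      have e1 : y = x := Subsingleton.elim _ _
      have e2 : z = x := Subsingleton.elim _ _
      have e3 : (fun j => x3 (x j) (y j) (z j)) = x := Subsingleton.elim _ _
      rw [e3, e1, e2]
      unfold x3
      cases f i x <;> rfl
    unfold Phi
    rw [hN0]
    simpa using card_le_A C d hdist
  -- the diagonals
  let φ : ι → Bool → Bool := fun i b => f i (fun _ => b)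
  have hφC : ∀ x ∈ C, (fun i => φ i (x i)) ∈ C := fun x hx => hc (fun _ => x) (fun _ => hx)
  let P : Finset ι := Finset.univ.filter (fun i => φ i false ≠ φ i true)
  have memP : ∀ i, i ∈ P ↔ φ i false ≠ φ i true := fun i => by simp [P]
  have φP : ∀ i ∈ P, ∀ b, φ i b = xor b (φ i false) := by
    intro i hi b
    have := (memP i).1 hi
    revert this
    cases b <;> cases φ i false <;> cases φ i true <;> simp
  have φP2 : ∀ i ∈ P, ∀ b, φ i (φ i b) = b := by
    intro i hi b
    rw [φP i hi (φ i b), φP i hi b]
    cases b <;> cases φ i false <;> rfl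
  have φK : ∀ i ∉ P, ∀ b, φ i b = φ i false := by
    intro i hi b
    rw [memP] at hi
    push Not at hi
    cases b
    · rfl
    · exact hi.symm
  let e : (ι → Bool) → (ι → Bool) := fun x i => φ i (φ i (x i))
  have eP : ∀ x, ∀ i ∈ P, e x i = x i := fun x i hi => φP2 i hi _
  have eK : ∀ x, ∀ i ∉ P, e x i = φ i false := fun x i hi => φK i hi _
  have eC : ∀ x ∈ C, e x ∈ C := fun x hx => hφC _ (hφC x hx)
  have ee : ∀ x, e (e x) = e x := by
    intro x
    funext i
    by_cases hi : i ∈ P
    · exact eP _ i hi
    · rw [eK _ i hi, eK _ i hi]
  have hfix : ∀ w : ι → Bool, (∀ i ∉ P, w i = φ i false) → e w = w := by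
    intro w hw
    funext i
    by_cases hi : i ∈ P
    · exact eP w i hi
    · rw [eK w i hi, hw i hi]
  let D := C.image e
  have hDC : D ⊆ C := by
    intro x hx
    obtain ⟨y, hy, rfl⟩ := Finset.mem_image.1 hx
    exact eC y hy
  have heD : ∀ x ∈ D, e x = x := by
    intro x hx
    obtain ⟨y, hy, rfl⟩ := Finset.mem_image.1 hx
    exact ee y
  have hDK : ∀ x ∈ D, ∀ i ∉ P, x i = φ i false := by
    intro x hx i hi
    rw [← heD x hx]
    exact eK _ i hi
  -- the image
  have hD : D.card ≤ Phi N d P := by
    let f' : ι → (Fin (r + 1) → Bool) → Bool := fun i x =>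
      if i ∈ P then xor (f i x) (φ i false) else x 0
    have hf'P : ∀ i ∈ P, f' i = fun x => xor (f i x) (φ i false) := by
      intro i hi
      funext x
      exact if_pos hi
    have hf'K : ∀ i ∉ P, f' i = fun x => x 0 := by
      intro i hi
      funext x
      exact if_neg hi
    have hc' : Closed f' D := by
      intro x hx
      have hw : (fun i => φ i (f i (fun j => x j i))) ∈ C :=
        hφC _ (hc x (fun j => hDC (hx j)))
      have hew : e (fun i => φ i (f i (fun j => x j i))) = fun i => φ i (f i (fun j => x j i)) :=
        hfix _ (fun i hi => φK i hi _)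
      have hwD : (fun i => φ i (f i (fun j => x j i))) ∈ D := by
        rw [← hew]
        exact Finset.mem_image.2 ⟨_, hw, rfl⟩
      convert hwD using 1
      funext i
      by_cases hi : i ∈ P
      · rw [hf'P i hi]
        exact (φP i hi _).symm
      · rw [hf'K i hi]
        show x 0 i = _
        rw [hDK _ (hx 0) i hi]
        exact (φK i hi _).symm
    have hid' : ∀ i, Idem (f' i) := by
      intro i b
      by_cases hi : i ∈ P
      · rw [hf'P i hi]
        show xor (φ i b) (φ i false) = b
        rw [← φP i hi]
        exact φP2 i hi b
      · rw [hf'K i hi]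
    have hN' : ∀ i, i ∉ N ∩ P ↔ Affine (f' i) := by
      intro i
      by_cases hi : i ∈ P
      · rw [hf'P i hi, affine_xor, ← hN, Finset.mem_inter]
        constructor
        · exact fun h h' => h ⟨h', hi⟩
        · exact fun h h' => h h'.1
      · rw [hf'K i hi]
        constructor
        · intro _ x y z
          rfl
        · intro _ h
          exact hi (Finset.mem_inter.1 h).2
    obtain ⟨E, hED, hE, hcard⟩ := mixed f' hid' (N ∩ P) hN' D hc' d hd
      (fun x hx y hy hxy => hdist x (hDC hx) y (hDC hy) hxy)
    have hEc := card_le_A_const (P \ N) E (by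
      intro x hx y hy i hi
      by_cases hiP : i ∈ P
      · have hiN : i ∈ N := by
          by_contra h
          exact hi (Finset.mem_sdiff.2 ⟨hiP, h⟩)
        exact hE x hx y hy i (Finset.mem_inter.2 ⟨hiN, hiP⟩)
      · rw [hDK x (hED hx) i hiP, hDK y (hED hy) i hiP]) d
      (fun x hx y hy hxy => hdist x (hDC (hED hx)) y (hDC (hED hy)) hxy)
    exact hcard.trans (Nat.mul_le_mul_left _ hEc)
  -- the fibres
  have hfib : ∀ z ∈ D, (C.filter (fun x => e x = z)).card ≤ Phi N d (Finset.univ \ P) := by
    intro z hz
    have hzz : e z = z := heD z hz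
    have hzC : z ∈ C := hDC hz
    let T : (ι → Bool) → (ι → Bool) := fun x i => xor (x i) (z i)
    have TT : ∀ x, T (T x) = x := by
      intro x
      funext i
      show xor (xor (x i) (z i)) (z i) = x i
      cases x i <;> cases z i <;> rfl
    have Tinj : Function.Injective T := Function.LeftInverse.injective TT
    have dT : ∀ x y, hammingDist (T x) (T y) = hammingDist x y := by
      intro x y
      unfold hammingDist
      congr 1
      ext i
      simp only [Finset.mem_filter, Finset.mem_univ, true_and, T]
      cases x i <;> cases y i <;> cases z i <;> simp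
    let Fz := C.filter (fun x => e x = z)
    have memFz : ∀ x, x ∈ Fz ↔ x ∈ C ∧ e x = z := fun x => Finset.mem_filter
    have hzF : z ∈ Fz := (memFz z).2 ⟨hzC, hzz⟩
    have hez : ∀ w : ι → Bool, (∀ i ∈ P, w i = z i) → e w = z := by
      intro w hw
      funext i
      by_cases hi : i ∈ P
      · rw [eP w i hi, hw i hi]
      · rw [eK w i hi, ← hzz, eK z i hi]
    have FzP : ∀ x ∈ Fz, ∀ i ∈ P, x i = z i := by
      intro x hx i hi
      rw [← ((memFz x).1 hx).2, eP x i hi]
    let g : ι → (Fin ((r + 1) * (r + 1)) → Bool) → Bool := fun i y =>
      if i ∈ P then false else dbl (f i) (φ i false) y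
    have hgP : ∀ i ∈ P, g i = fun _ => false := by
      intro i hi
      funext x
      exact if_pos hi
    have hgK : ∀ i ∉ P, g i = dbl (f i) (φ i false) := by
      intro i hi
      funext x
      exact if_neg hi
    have h1 : (Fz.image T).card ≤ Phi (N \ P) d (Finset.univ \ P) := by
      apply zero_bound g (Fz.image T) (Finset.univ \ P) (N \ P) d hd
      · refine Finset.mem_image.2 ⟨z, hzF, ?_⟩
        funext i
        show xor (z i) (z i) = false
        cases z i <;> rfl
      · intro y hy
        have : ∀ j, ∃ x ∈ Fz, T x = y j := fun j => Finset.mem_image.1 (hy j)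
        choose x hx hxy using this
        have hw : (fun i => f i (fun a => f i (fun b => x (finProdFinEquiv (a, b)) i))) ∈ C :=
          hc (fun a i => f i (fun b => x (finProdFinEquiv (a, b)) i)) (fun a =>
            hc (fun b => x (finProdFinEquiv (a, b))) (fun b => ((memFz _).1 (hx _)).1))
        have hwP : ∀ i ∈ P, f i (fun a => f i (fun b => x (finProdFinEquiv (a, b)) i)) = z i := by
          intro i hi
          have : (fun a => f i (fun b => x (finProdFinEquiv (a, b)) i)) =
              fun _ : Fin (r + 1) => φ i (z i) := by
            funext a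
            show f i _ = f i _
            congr 1
            funext b
            exact FzP _ (hx _) i hi
          rw [this]
          exact φP2 i hi _
        refine Finset.mem_image.2 ⟨_, (memFz _).2 ⟨hw, hez _ hwP⟩, ?_⟩
        · funext i
          by_cases hi : i ∈ P
          · rw [hgP i hi]
            show xor (f i (fun a => f i (fun b => x (finProdFinEquiv (a, b)) i))) (z i) = false
            rw [hwP i hi]
            cases z i <;> rfl
          · rw [hgK i hi]
            have hzi : z i = φ i false := by rw [← hzz, eK _ i hi]
            show xor (f i (fun a => f i (fun b => x (finProdFinEquiv (a, b)) i))) (z i) =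
              xor (f i (fun a => f i (fun b => xor (y (finProdFinEquiv (a, b)) i) (φ i false))))
                (φ i false)
            rw [← hzi]
            congr 2
            funext a
            congr 1
            funext b
            rw [← hxy]
            show x _ i = xor (xor (x _ i) (z i)) (z i)
            cases x (finProdFinEquiv (a, b)) i <;> cases z i <;> rfl
      · intro i b
        by_cases hi : i ∈ P
        · rw [hgP i hi]
        · rw [hgK i hi]
          show xor (φ i (φ i (xor b (φ i false)))) (φ i false) = false
          rw [φK i hi (φ i _)]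
          cases φ i false <;> rfl
      · intro i hi y
        have hi : i ∈ P := by
          by_contra h
          exact hi (Finset.mem_sdiff.2 ⟨Finset.mem_univ _, h⟩)
        rw [hgP i hi]
      · intro x hx i hi
        have hi : i ∈ P := by
          by_contra h
          exact hi (Finset.mem_sdiff.2 ⟨Finset.mem_univ _, h⟩)
        obtain ⟨y, hy, rfl⟩ := Finset.mem_image.1 hx
        show xor (y i) (z i) = false
        rw [FzP y hy i hi]
        cases z i <;> rfl
      · intro i
        by_cases hi : i ∈ P
        · rw [hgP i hi, Finset.mem_sdiff]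
          constructor
          · intro _ x y z
            rfl
          · intro _ h
            exact h.2 hi
        · rw [hgK i hi, affine_dbl (f i) _ rfl, ← hN, Finset.mem_sdiff]
          constructor
          · exact fun h h' => h ⟨h', hi⟩
          · exact fun h h' => h h'.1
      · intro x' hx' y' hy' hxy
        obtain ⟨x, hx, rfl⟩ := Finset.mem_image.1 hx'
        obtain ⟨y, hy, rfl⟩ := Finset.mem_image.1 hy'
        rw [dT]
        exact hdist x ((memFz x).1 hx).1 y ((memFz y).1 hy).1 (fun h => hxy (by rw [h]))
    rw [Finset.card_image_of_injective _ Tinj] at h1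
    have h2 : Phi (N \ P) d (Finset.univ \ P) = Phi N d (Finset.univ \ P) := by
      unfold Phi
      have e1 : (N \ P) ∩ (Finset.univ \ P) = N ∩ (Finset.univ \ P) := by
        ext i
        simp only [Finset.mem_inter, Finset.mem_sdiff, Finset.mem_univ, true_and]
        tauto
      have e2 : (Finset.univ \ P) \ (N \ P) = (Finset.univ \ P) \ N := by
        ext i
        simp only [Finset.mem_sdiff, Finset.mem_univ, true_and]
        tauto
      rw [e1, e2]
    rw [h2] at h1
    exact h1
  calc C.card ≤ Phi N d (Finset.univ \ P) * D.card := Finset.card_le_mul_card_image C _ hfib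
    _ ≤ Phi N d (Finset.univ \ P) * Phi N d P := Nat.mul_le_mul_left _ hD
    _ ≤ Phi N d ((Finset.univ \ P) ∪ P) := Phi_mul N d _ _ Finset.sdiff_disjoint
    _ = Phi N d Finset.univ := by rw [Finset.sdiff_union_of_subset (Finset.subset_univ _)]

end Pool.Agent.Helper951_poly
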