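import Pool.Agent.Helper951_poly.Uniform

set_option autoImplicit false

namespace Pool.Agent.Helper951_poly

open Finset

lemma ball_card {n : ℕ} (d : ℕ) (x : Fin n → Bool) :
    (Finset.univ.filter (fun v : Fin n → Bool => hammingDist x v < d)).card ≤
      ∑ j ∈ Finset.range d, n.choose j := by
  classical
  have h1 : (Finset.univ.filter (fun v : Fin n → Bool => hammingDist x v < d)).card ≤
      ((Finset.range d).biUnion
        (fun j => Finset.powersetCard j (Finset.univ : Finset (Fin n)))).card := by
    apply Finset.card_le_card_of_injOn (fun v => Finset.univ.filter (fun i => x i ≠ v i))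
    · intro v hv
      have hv : hammingDist x v < d := (Finset.mem_filter.1 hv).2
      refine Finset.mem_coe.2 (Finset.mem_biUnion.2 ⟨hammingDist x v, Finset.mem_range.2 hv, ?_⟩)
      exact Finset.mem_powersetCard.2 ⟨Finset.subset_univ _, rfl⟩
    · intro v _ w _ h
      have h : Finset.univ.filter (fun i => x i ≠ v i) = Finset.univ.filter (fun i => x i ≠ w i) := h
      funext i
      have h2 : i ∈ Finset.univ.filter (fun i => x i ≠ v i) ↔
        i ∈ Finset.univ.filter (fun i => x i ≠ w i) := by rw [h]
      simp only [Finset.mem_filter, Finset.mem_univ, true_and] at h2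
      revert h2
      cases x i <;> cases v i <;> cases w i <;> simp
  refine h1.trans (Finset.card_biUnion_le.trans ?_)
  apply Finset.sum_le_sum
  intro j _
  rw [Finset.card_powersetCard, Finset.card_univ, Fintype.card_fin]

/-- closed under sums of three words, contains the two constant words -/
structure Lin {ι : Type} (C : Finset (ι → Bool)) : Prop where
  zero : (fun _ => false) ∈ C
  one : (fun _ => true) ∈ C
  add : ∀ x ∈ C, ∀ y ∈ C, ∀ z ∈ C, (fun i => x3 (x i) (y i) (z i)) ∈ C

lemma Lin.add2 {ι : Type} {C : Finset (ι → Bool)} (h : Lin C) {x y : ι → Bool} (hx : x ∈ C)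
    (hy : y ∈ C) : (fun i => xor (x i) (y i)) ∈ C := by
  have := h.add x hx y hy _ h.zero
  simpa [x3] using this

lemma Lin.closed {ι : Type} {C : Finset (ι → Bool)} (h : Lin C) {r : ℕ}
    (f : (Fin r → Bool) → Bool) (hf : Affine f) : ClosedU f C := by
  classical
  intro x hx
  have hconst : ∀ b : Bool, (fun _ : ι => b) ∈ C := by
    intro b
    cases b
    · exact h.zero
    · exact h.one
  have step : ∀ s : Finset (Fin r),
      (fun i => f (fun j => if j ∈ s then x j i else false)) ∈ C := by
    intro s
    induction s using Finset.induction_on with
    | empty =>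
      have := hconst (f fun _ => false)
      simpa using this
    | insert j s hj ih =>
      have h1 : (fun i => f (fun l => if l = j then x j i else false)) ∈ C := by
        by_cases hc : f (fun l => if l = j then true else false) = f (fun _ => false)
        · have := hconst (f fun _ => false)
          convert this using 1
          funext i
          cases x j i
          · simp
          · exact hc
        · cases h0 : f (fun _ => false)
          · -- the word `x j`
            rw [h0] at hc
            convert hx j using 1
            funext i
            cases x j i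
            · simpa using h0
            · revert hc
              cases f (fun l => if l = j then true else false) <;> simp
          · rw [h0] at hc
            have := h.add2 (hx j) h.one
            convert this using 1
            funext i
            cases x j i
            · simpa using h0
            · revert hc
              cases f (fun l => if l = j then true else false) <;> simp
      have h2 := h.add _ ih _ h1 _ (hconst (f fun _ => false))
      convert h2 using 1
      funext i
      show f (fun l => if l ∈ insert j s then x l i else false) =
        x3 (f fun l => if l ∈ s then x l i else false) (f fun l => if l = j then x j i else false)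
          (f fun _ => false)
      rw [← hf]
      congr 1
      funext l
      by_cases hlj : l = j
      · subst hlj
        simp [hj, x3]
      · by_cases hls : l ∈ s
        · simp [hlj, hls, x3]
        · simp [hlj, hls, x3]
  have := step Finset.univ
  simpa using this

/-- **Gilbert and Varshamov**, for codes closed under all affine operations. -/
theorem gv {n d : ℕ} (hd : 0 < d) (hdn : d ≤ n) :
    ∃ C : Finset (Fin n → Bool), MinDist d C ∧
      (∀ (r : ℕ) (f : (Fin r → Bool) → Bool), Affine f → ClosedU f C) ∧
      2 ^ n ≤ C.card * ∑ j ∈ Finset.range d, n.choose j := by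
  classical
  let F : Finset (Finset (Fin n → Bool)) := Finset.univ.filter (fun C => Lin C ∧ MinDist d C)
  have hF : F.Nonempty := by
    refine ⟨{fun _ => false, fun _ => true}, Finset.mem_filter.2 ⟨Finset.mem_univ _, ?_, ?_⟩⟩
    · refine ⟨by simp, by simp, ?_⟩
      intro x hx y hy z hz
      simp only [Finset.mem_insert, Finset.mem_singleton] at hx hy hz ⊢
      rcases hx with rfl | rfl <;> rcases hy with rfl | rfl <;> rcases hz with rfl | rfl <;>
        simp [x3]
    · intro x hx y hy hxy
      simp only [Finset.mem_insert, Finset.mem_singleton] at hx hy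
      rcases hx with rfl | rfl <;> rcases hy with rfl | rfl
      · exact absurd rfl hxy
      · simpa [hammingDist] using hdn
      · simpa [hammingDist] using hdn
      · exact absurd rfl hxy
  obtain ⟨C, hC, hmax⟩ := Finset.exists_max_image F Finset.card hF
  obtain ⟨-, hlin, hdist⟩ := Finset.mem_filter.1 hC
  refine ⟨C, hdist, fun r f hf => hlin.closed f hf, ?_⟩
  by_contra hcon
  push Not at hcon
  -- a word far from the code
  obtain ⟨v, hv⟩ : ∃ v : Fin n → Bool, ∀ x ∈ C, d ≤ hammingDist x v := by
    by_contra hno
    push Not at hno
    have h1 : (Finset.univ : Finset (Fin n → Bool)) ⊆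
        C.biUnion (fun x => Finset.univ.filter (fun v => hammingDist x v < d)) := by
      intro v _
      obtain ⟨x, hx, h⟩ := hno v
      exact Finset.mem_biUnion.2 ⟨x, hx, Finset.mem_filter.2 ⟨Finset.mem_univ _, h⟩⟩
    have h2 := (Finset.card_le_card h1).trans Finset.card_biUnion_le
    have h3 : ∑ x ∈ C, (Finset.univ.filter (fun v => hammingDist x v < d)).card ≤
        C.card * ∑ j ∈ Finset.range d, n.choose j := by
      rw [← smul_eq_mul, ← Finset.sum_const]
      exact Finset.sum_le_sum (fun x _ => ball_card d x)
    rw [Finset.card_univ, Fintype.card_fun, Fintype.card_bool, Fintype.card_fin] at h2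
    omega
  have hvC : v ∉ C := by
    intro h
    have := hv v h
    rw [hammingDist_self] at this
    omega
  let tr : (Fin n → Bool) → (Fin n → Bool) := fun x i => xor (x i) (v i)
  have tr_tr : ∀ x, tr (tr x) = x := by
    intro x
    funext i
    show xor (xor (x i) (v i)) (v i) = x i
    cases x i <;> cases v i <;> rfl
  let C' := C ∪ C.image tr
  have mem' : ∀ x, x ∈ C' ↔ x ∈ C ∨ tr x ∈ C := by
    intro x
    rw [Finset.mem_union, Finset.mem_image]
    constructor
    · rintro (h | ⟨y, hy, rfl⟩)
      · exact Or.inl h
      · exact Or.inr (by rw [tr_tr]; exact hy)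
    · rintro (h | h)
      · exact Or.inl h
      · exact Or.inr ⟨_, h, tr_tr x⟩
  have dist_tr : ∀ x y, hammingDist (tr x) (tr y) = hammingDist x y := by
    intro x y
    unfold hammingDist
    congr 1
    ext i
    simp only [Finset.mem_filter, Finset.mem_univ, true_and, tr]
    cases x i <;> cases y i <;> cases v i <;> simp
  have hlin' : Lin C' := by
    refine ⟨(mem' _).2 (Or.inl hlin.zero), (mem' _).2 (Or.inl hlin.one), ?_⟩
    intro x hx y hy z hz
    have e1 : tr (fun i => x3 (x i) (y i) (z i)) = fun i => x3 (tr x i) (y i) (z i) := by
      funext i
      simp only [tr, x3]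
      cases x i <;> cases y i <;> cases z i <;> cases v i <;> rfl
    have e2 : tr (fun i => x3 (x i) (y i) (z i)) = fun i => x3 (x i) (tr y i) (z i) := by
      funext i
      simp only [tr, x3]
      cases x i <;> cases y i <;> cases z i <;> cases v i <;> rfl
    have e3 : tr (fun i => x3 (x i) (y i) (z i)) = fun i => x3 (x i) (y i) (tr z i) := by
      funext i
      simp only [tr, x3]
      cases x i <;> cases y i <;> cases z i <;> cases v i <;> rfl
    have e4 : (fun i => x3 (x i) (y i) (z i)) = fun i => x3 (x i) (tr y i) (tr z i) := by
      funext i
      simp only [tr, x3]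
      cases x i <;> cases y i <;> cases z i <;> cases v i <;> rfl
    have e5 : (fun i => x3 (x i) (y i) (z i)) = fun i => x3 (tr x i) (y i) (tr z i) := by
      funext i
      simp only [tr, x3]
      cases x i <;> cases y i <;> cases z i <;> cases v i <;> rfl
    have e6 : (fun i => x3 (x i) (y i) (z i)) = fun i => x3 (tr x i) (tr y i) (z i) := by
      funext i
      simp only [tr, x3]
      cases x i <;> cases y i <;> cases z i <;> cases v i <;> rfl
    have e7 : tr (fun i => x3 (x i) (y i) (z i)) = fun i => x3 (tr x i) (tr y i) (tr z i) := by
      funext i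
      simp only [tr, x3]
      cases x i <;> cases y i <;> cases z i <;> cases v i <;> rfl
    rw [mem'] at hx hy hz ⊢
    rcases hx with hx | hx <;> rcases hy with hy | hy <;> rcases hz with hz | hz
    · exact Or.inl (hlin.add _ hx _ hy _ hz)
    · exact Or.inr (by rw [e3]; exact hlin.add _ hx _ hy _ hz)
    · exact Or.inr (by rw [e2]; exact hlin.add _ hx _ hy _ hz)
    · exact Or.inl (by rw [e4]; exact hlin.add _ hx _ hy _ hz)
    · exact Or.inr (by rw [e1]; exact hlin.add _ hx _ hy _ hz)
    · exact Or.inl (by rw [e5]; exact hlin.add _ hx _ hy _ hz)
    · exact Or.inl (by rw [e6]; exact hlin.add _ hx _ hy _ hz)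
    · exact Or.inr (by rw [e7]; exact hlin.add _ hx _ hy _ hz)
  have cross : ∀ x ∈ C, ∀ y, tr y ∈ C → d ≤ hammingDist x y := by
    intro x hx y hy
    have h1 := hv _ (hlin.add2 hx hy)
    have : hammingDist (fun i => xor (x i) (tr y i)) v = hammingDist x y := by
      unfold hammingDist
      congr 1
      ext i
      simp only [Finset.mem_filter, Finset.mem_univ, true_and, tr]
      cases x i <;> cases y i <;> cases v i <;> simp
    rw [this] at h1
    exact h1
  have hdist' : MinDist d C' := by
    intro x hx y hy hxy
    rw [mem'] at hx hy
    rcases hx with hx | hx <;> rcases hy with hy | hy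
    · exact hdist x hx y hy hxy
    · exact cross x hx y hy
    · rw [hammingDist_comm]
      exact cross y hy x hx
    · rw [← dist_tr]
      exact hdist _ hx _ hy (fun h => hxy (by rw [← tr_tr x, h, tr_tr]))
  have hmem : C' ∈ F := Finset.mem_filter.2 ⟨Finset.mem_univ _, hlin', hdist'⟩
  have hlt : C.card < C'.card := by
    apply Finset.card_lt_card
    refine Finset.ssubset_iff_subset_ne.2 ⟨Finset.subset_union_left, ?_⟩
    intro h
    apply hvC
    rw [h, mem']
    right
    have : tr v = fun _ => false := by
      funext i
      show xor (v i) (v i) = false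
      cases v i <;> rfl
    rw [this]
    exact hlin.zero
  exact absurd (hmax C' hmem) (not_le.2 hlt)

end Pool.Agent.Helper951_poly
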