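import Pool.Agent.Helper951_poly.Gen

set_option autoImplicit false

namespace Pool.Agent.Helper951_poly

open Finset

/-! ### Compositions -/

/-- composition of two operations, all variables different -/
def comp {p q : ℕ} (a : (Fin p → Bool) → Bool) (b : (Fin q → Bool) → Bool)
    (y : Fin (p * q) → Bool) : Bool := a (fun s => b (fun t => y (finProdFinEquiv (s, t))))

lemma affine_comp {p q : ℕ} {a : (Fin p → Bool) → Bool} {b : (Fin q → Bool) → Bool}
    (ha : Affine a) (hb : Affine b) : Affine (comp a b) := by
  intro x y z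
  show a (fun s => b (fun t => x3 (x (finProdFinEquiv (s, t))) (y (finProdFinEquiv (s, t)))
    (z (finProdFinEquiv (s, t))))) = x3 (a fun s => b _) (a fun s => b _) (a fun s => b _)
  rw [← ha]
  congr 1
  funext s
  exact hb _ _ _

lemma affine_of_comp_left {p q : ℕ} {a : (Fin p → Bool) → Bool} {b : (Fin q → Bool) → Bool}
    (hb : ∀ c, b (fun _ => c) = c) (h : Affine (comp a b)) : Affine a := by
  intro x y z
  have h1 := h (fun m => x (finProdFinEquiv.symm m).1) (fun m => y (finProdFinEquiv.symm m).1)
    (fun m => z (finProdFinEquiv.symm m).1)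
  have e1 : ∀ x : Fin p → Bool, comp a b (fun m => x (finProdFinEquiv.symm m).1) = a x := by
    intro x
    unfold comp
    congr 1
    funext s
    have : (fun t : Fin q => x (finProdFinEquiv.symm (finProdFinEquiv (s, t))).1) =
        fun _ => x s := by
      funext t
      rw [Equiv.symm_apply_apply]
    rw [this, hb]
  rw [e1, e1, e1] at h1
  rw [← h1]
  exact (e1 (fun j => x3 (x j) (y j) (z j))).symm

lemma affine_of_comp_right {p q : ℕ} {a : (Fin p → Bool) → Bool} {b : (Fin q → Bool) → Bool}
    (ha : ∀ c, a (fun _ => c) = c) (h : Affine (comp a b)) : Affine b := by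
  intro x y z
  have h1 := h (fun m => x (finProdFinEquiv.symm m).2) (fun m => y (finProdFinEquiv.symm m).2)
    (fun m => z (finProdFinEquiv.symm m).2)
  have e1 : ∀ x : Fin q → Bool, comp a b (fun m => x (finProdFinEquiv.symm m).2) = b x := by
    intro x
    unfold comp
    have : (fun s : Fin p => b (fun t : Fin q =>
        x (finProdFinEquiv.symm (finProdFinEquiv (s, t))).2)) = fun _ => b x := by
      funext s
      congr 1
      funext t
      rw [Equiv.symm_apply_apply]
    rw [this, ha]
  rw [e1, e1, e1] at h1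
  rw [← h1]
  exact (e1 (fun j => x3 (x j) (y j) (z j))).symm

lemma affine_of_sq {r : ℕ} {f : (Fin r → Bool) → Bool} (h : Affine (comp f f)) : Affine f := by
  by_cases huv : ∃ u v, f u ≠ f v
  · obtain ⟨u, v, huv⟩ := huv
    have huv' : f v = !f u := by
      revert huv
      cases f u <;> cases f v <;> simp
    apply affine_shift f (f u)
    intro x y z
    let Y : (Fin r → Bool) → (Fin (r * r) → Bool) := fun x m =>
      xor (u (finProdFinEquiv.symm m).2) (x (finProdFinEquiv.symm m).1 &&
        xor (u (finProdFinEquiv.symm m).2) (v (finProdFinEquiv.symm m).2))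
    have hY : ∀ x : Fin r → Bool, comp f f (Y x) = f (fun a => xor (x a) (f u)) := by
      intro x
      unfold comp
      congr 1
      funext a
      have e1 : (fun b => Y x (finProdFinEquiv (a, b))) = if x a = true then v else u := by
        funext b
        show xor (u (finProdFinEquiv.symm (finProdFinEquiv (a, b))).2)
          (x (finProdFinEquiv.symm (finProdFinEquiv (a, b))).1 &&
          xor (u (finProdFinEquiv.symm (finProdFinEquiv (a, b))).2)
          (v (finProdFinEquiv.symm (finProdFinEquiv (a, b))).2)) = _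
        rw [Equiv.symm_apply_apply]
        cases hx : x a <;> cases hu : u b <;> cases hv : v b <;> simp [hx, hu, hv]
      rw [e1]
      cases x a
      · simp
      · simp [huv']
    have h2 := h (Y x) (Y y) (Y z)
    have e2 : (fun m => x3 (Y x m) (Y y m) (Y z m)) = Y (fun j => x3 (x j) (y j) (z j)) := by
      funext m
      show x3 (xor (u _) (x _ && xor (u _) (v _))) (xor (u _) (y _ && xor (u _) (v _)))
        (xor (u _) (z _ && xor (u _) (v _))) = xor (u _) (x3 (x _) (y _) (z _) && xor (u _) (v _))
      unfold x3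
      cases x (finProdFinEquiv.symm m).1 <;> cases y (finProdFinEquiv.symm m).1 <;>
        cases z (finProdFinEquiv.symm m).1 <;> cases u (finProdFinEquiv.symm m).2 <;>
        cases v (finProdFinEquiv.symm m).2 <;> rfl
    rw [e2] at h2
    simp only [hY] at h2
    exact h2
  · push Not at huv
    intro x y z
    rw [huv _ (fun _ => false), huv x (fun _ => false), huv y (fun _ => false),
      huv z (fun _ => false)]
    unfold x3
    cases f (fun _ => false) <;> rfl

lemma closed_comp {ι : Type} {p q : ℕ} {C : Finset (ι → Bool)} {a : ι → (Fin p → Bool) → Bool}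
    {b : ι → (Fin q → Bool) → Bool} (ha : Closed a C) (hb : Closed b C) :
    Closed (fun i => comp (a i) (b i)) C := by
  intro x hx
  exact ha (fun s i => b i (fun t => x (finProdFinEquiv (s, t)) i)) (fun s =>
    hb (fun t => x (finProdFinEquiv (s, t))) (fun t => hx _))

/-! ### Retracts -/

variable {ι : Type} [Fintype ι] [DecidableEq ι]

/-- `x` on `V` and `c` elsewhere -/
def mix (V : Finset ι) (x c : ι → Bool) : ι → Bool := fun i => if i ∈ V then x i else c i

omit [Fintype ι] in
lemma mix_in {V : Finset ι} {x c : ι → Bool} {i : ι} (h : i ∈ V) : mix V x c i = x i := if_pos h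

omit [Fintype ι] in
lemma mix_out {V : Finset ι} {x c : ι → Bool} {i : ι} (h : i ∉ V) : mix V x c i = c i := if_neg h

/-- `C` has a retraction on the coordinates in `V` -/
def Rt (C : Finset (ι → Bool)) (V : Finset ι) : Prop := ∃ c, ∀ x ∈ C, mix V x c ∈ C

lemma rt_univ (C : Finset (ι → Bool)) : Rt C Finset.univ := by
  refine ⟨fun _ => false, fun x hx => ?_⟩
  have : mix Finset.univ x (fun _ => false) = x := by
    funext i
    exact mix_in (Finset.mem_univ _)
  rw [this]
  exact hx

omit [Fintype ι] in
lemma rt_inter {C : Finset (ι → Bool)} {V V' : Finset ι} (h : Rt C V) (h' : Rt C V') :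
    Rt C (V ∩ V') := by
  obtain ⟨c, hc⟩ := h
  obtain ⟨c', hc'⟩ := h'
  refine ⟨mix V c' c, fun x hx => ?_⟩
  have : mix (V ∩ V') x (mix V c' c) = mix V (mix V' x c') c := by
    funext i
    unfold mix
    by_cases h1 : i ∈ V <;> by_cases h2 : i ∈ V' <;> simp [h1, h2]
  rw [this]
  exact hc _ (hc' x hx)

lemma rt_unary {C : Finset (ι → Bool)} (u : ι → Bool → Bool)
    (hu : ∀ x ∈ C, (fun i => u i (x i)) ∈ C) :
    Rt C (Finset.univ.filter (fun i => u i false ≠ u i true)) := by
  have hm : ∀ m, m ∈ Finset.univ.filter (fun i => u i false ≠ u i true) ↔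
      u m false ≠ u m true := by
    intro m
    simp
  refine ⟨fun i => u i false, fun x hx => ?_⟩
  have h1 := hu _ (hu x hx)
  convert h1 using 1
  funext i
  by_cases hi : u i false ≠ u i true
  · rw [mix_in ((hm i).2 hi)]
    show x i = u i (u i (x i))
    revert hi
    cases h2 : u i false <;> cases h3 : u i true <;> cases x i <;> simp [h2, h3]
  · rw [mix_out (fun h => hi ((hm i).1 h))]
    show u i false = u i (u i (x i))
    push Not at hi
    cases u i (x i)
    · rfl
    · exact hi

lemma vs_exists (C : Finset (ι → Bool)) (i : ι) : ∃ V : Finset ι, Rt C V ∧ i ∈ V ∧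
    ∀ V', Rt C V' → i ∈ V' → V ⊆ V' := by
  classical
  let T : Finset (Finset ι) := Finset.univ.filter (fun V => Rt C V ∧ i ∈ V)
  have hT : T.Nonempty :=
    ⟨Finset.univ, Finset.mem_filter.2 ⟨Finset.mem_univ _, rt_univ C, Finset.mem_univ _⟩⟩
  obtain ⟨V, hV, hmin⟩ := Finset.exists_min_image T Finset.card hT
  obtain ⟨-, hV1, hV2⟩ := Finset.mem_filter.1 hV
  refine ⟨V, hV1, hV2, ?_⟩
  intro V' h1 h2
  have h3 := hmin (V ∩ V') (Finset.mem_filter.2 ⟨Finset.mem_univ _, rt_inter hV1 h1,
    Finset.mem_inter.2 ⟨hV2, h2⟩⟩)
  have h4 := Finset.eq_of_subset_of_card_le (Finset.inter_subset_left (s₁ := V) (s₂ := V')) h3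
  rw [← h4]
  exact Finset.inter_subset_right

/-- the pattern `J` with the base `b` -/
lemma exists_pattern {k : ℕ} {f : (Fin k → Bool) → Bool} (hf : ¬ Affine f) (b : Bool) :
    ∃ J : Fin k → Bool, f (fun j => if J j = true then !b else b) ≠ f (fun _ => b) := by
  by_contra hcon
  push Not at hcon
  have hconst : ∀ y, f y = f (fun _ => b) := by
    intro y
    rw [← hcon (fun j => xor (y j) b)]
    congr 1
    funext j
    cases y j <;> cases b <;> rfl
  apply hf
  intro x y z
  rw [hconst, hconst x, hconst y, hconst z]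
  unfold x3
  cases f (fun _ => b) <;> rfl

end Pool.Agent.Helper951_poly
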