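import Pool.Agent.Helper951_poly.Linear

set_option autoImplicit false

namespace Pool.Agent.Helper951_poly

open Finset

/-- The largest size of a binary code of length `n` with minimum distance at least `d`. -/
noncomputable def A (n d : ℕ) : ℕ :=
  sSup {m | ∃ C : Finset (Fin n → Bool), MinDist d C ∧ C.card = m}

lemma A_bdd (n d : ℕ) : BddAbove {m | ∃ C : Finset (Fin n → Bool), MinDist d C ∧ C.card = m} := by
  refine ⟨2 ^ n, ?_⟩
  rintro m ⟨C, -, rfl⟩
  calc C.card ≤ Fintype.card (Fin n → Bool) := Finset.card_le_univ _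
    _ = 2 ^ n := by simp

lemma A_mem (n d : ℕ) : ∃ C : Finset (Fin n → Bool), MinDist d C ∧ C.card = A n d := by
  have h : A n d ∈ {m | ∃ C : Finset (Fin n → Bool), MinDist d C ∧ C.card = m} := by
    apply Nat.sSup_mem
    · exact ⟨0, ∅, by intro x hx; simp at hx, by simp⟩
    · exact A_bdd n d
  exact h

lemma hd_comp {ι κ : Type} [Fintype ι] [Fintype κ] (e : κ ≃ ι) (x y : ι → Bool) :
    hammingDist (fun k => x (e k)) (fun k => y (e k)) = hammingDist x y := by
  classical
  unfold hammingDist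
  apply Finset.card_bij (fun k _ => e k)
  · intro k hk
    rw [Finset.mem_filter] at hk ⊢
    exact ⟨Finset.mem_univ _, hk.2⟩
  · intro k _ l _ h
    exact e.injective h
  · intro i hi
    refine ⟨e.symm i, ?_, by simp⟩
    rw [Finset.mem_filter] at hi ⊢
    refine ⟨Finset.mem_univ _, ?_⟩
    simpa using hi.2

lemma card_le_A {ι : Type} [Fintype ι] (E : Finset (ι → Bool)) (d : ℕ) (h : MinDist d E) :
    E.card ≤ A (Fintype.card ι) d := by
  classical
  let e : Fin (Fintype.card ι) ≃ ι := (Fintype.equivFin ι).symm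
  let Φ : (ι → Bool) → (Fin (Fintype.card ι) → Bool) := fun x k => x (e k)
  have hinj : Function.Injective Φ := by
    intro x y hxy
    funext i
    have := congrFun hxy (e.symm i)
    simpa [Φ] using this
  have h1 : (E.image Φ).card = E.card := Finset.card_image_of_injective _ hinj
  rw [← h1]
  apply le_csSup (A_bdd _ _)
  refine ⟨E.image Φ, ?_, rfl⟩
  intro x' hx' y' hy' hxy
  obtain ⟨x, hx, rfl⟩ := Finset.mem_image.1 hx'
  obtain ⟨y, hy, rfl⟩ := Finset.mem_image.1 hy'
  have := h x hx y hy (fun h => hxy (by rw [h]))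
  rwa [← hd_comp e x y] at this

lemma hd_res {ι : Type} [Fintype ι] [DecidableEq ι] (S : Finset ι) (x y : ι → Bool)
    (h : ∀ i ∉ S, x i = y i) :
    hammingDist (fun i : {i // i ∈ S} => x i.1) (fun i : {i // i ∈ S} => y i.1) =
      hammingDist x y := by
  classical
  unfold hammingDist
  apply Finset.card_bij (fun k _ => k.1)
  · intro k hk
    rw [Finset.mem_filter] at hk ⊢
    exact ⟨Finset.mem_univ _, hk.2⟩
  · intro k _ l _ h
    exact Subtype.ext h
  · intro i hi
    rw [Finset.mem_filter] at hi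
    have hiS : i ∈ S := by
      by_contra hiS
      exact hi.2 (h i hiS)
    exact ⟨⟨i, hiS⟩, Finset.mem_filter.2 ⟨Finset.mem_univ _, hi.2⟩, rfl⟩

/-- Restriction of a code to the coordinates in `S`. -/
def res {ι : Type} [DecidableEq ι] (S : Finset ι) (E : Finset (ι → Bool)) :
    Finset ({i // i ∈ S} → Bool) := E.image (fun x i => x i.1)

lemma res_card {ι : Type} [DecidableEq ι] (S : Finset ι) (E : Finset (ι → Bool))
    (hE : ∀ x ∈ E, ∀ y ∈ E, ∀ i ∉ S, x i = y i) : (res S E).card = E.card := by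
  apply Finset.card_image_of_injOn
  intro x hx y hy hxy
  funext i
  by_cases hi : i ∈ S
  · exact congrFun hxy ⟨i, hi⟩
  · exact hE x hx y hy i hi

lemma res_dist {ι : Type} [Fintype ι] [DecidableEq ι] (S : Finset ι) (E : Finset (ι → Bool))
    (hE : ∀ x ∈ E, ∀ y ∈ E, ∀ i ∉ S, x i = y i) (d : ℕ) (h : MinDist d E) :
    MinDist d (res S E) := by
  intro x' hx' y' hy' hxy
  obtain ⟨x, hx, rfl⟩ := Finset.mem_image.1 hx'
  obtain ⟨y, hy, rfl⟩ := Finset.mem_image.1 hy'
  have h1 := h x hx y hy (fun h => hxy (by rw [h]))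
  rwa [← hd_res S x y (hE x hx y hy)] at h1

lemma card_le_A_const {ι : Type} [Fintype ι] [DecidableEq ι] (S : Finset ι)
    (E : Finset (ι → Bool)) (hE : ∀ x ∈ E, ∀ y ∈ E, ∀ i ∉ S, x i = y i) (d : ℕ)
    (h : MinDist d E) : E.card ≤ A S.card d := by
  have h1 := card_le_A _ d (res_dist S E hE d h)
  rwa [res_card S E hE, Fintype.card_coe] at h1

lemma A_pos (n d : ℕ) : 1 ≤ A n d := by
  have h := card_le_A ({fun _ => false} : Finset (Fin n → Bool)) d (by
    intro x hx y hy hxy
    rw [Finset.mem_singleton] at hx hy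
    exact absurd (hx.trans hy.symm) hxy)
  simpa using h

/-- The product of two codes. -/
def prodCode {α β : Type} [DecidableEq α] [DecidableEq β] [Fintype α] [Fintype β]
    (C₁ : Finset (α → Bool)) (C₂ : Finset (β → Bool)) :
    Finset (α ⊕ β → Bool) := (C₁ ×ˢ C₂).image (fun p => Sum.elim p.1 p.2)

lemma prodCode_card {α β : Type} [DecidableEq α] [DecidableEq β] [Fintype α] [Fintype β]
    (C₁ : Finset (α → Bool)) (C₂ : Finset (β → Bool)) :
    (prodCode C₁ C₂).card = C₁.card * C₂.card := by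
  unfold prodCode
  rw [Finset.card_image_of_injective, Finset.card_product]
  rintro ⟨x, y⟩ ⟨x', y'⟩ h
  have h : Sum.elim x y = Sum.elim x' y' := h
  have h1 : x = x' := by
    funext i
    exact congrFun h (Sum.inl i)
  have h2 : y = y' := by
    funext i
    exact congrFun h (Sum.inr i)
  rw [h1, h2]

lemma prodCode_dist {α β : Type} [DecidableEq α] [DecidableEq β] [Fintype α] [Fintype β]
    (C₁ : Finset (α → Bool)) (C₂ : Finset (β → Bool)) (d : ℕ) (h₁ : MinDist d C₁)
    (h₂ : MinDist d C₂) : MinDist d (prodCode C₁ C₂) := by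
  classical
  intro p hp q hq hpq
  obtain ⟨⟨x, y⟩, hxy, rfl⟩ := Finset.mem_image.1 hp
  obtain ⟨⟨x', y'⟩, hxy', rfl⟩ := Finset.mem_image.1 hq
  obtain ⟨hx, hy⟩ := Finset.mem_product.1 hxy
  obtain ⟨hx', hy'⟩ := Finset.mem_product.1 hxy'
  have hx : x ∈ C₁ := hx
  have hy : y ∈ C₂ := hy
  have hx' : x' ∈ C₁ := hx'
  have hy' : y' ∈ C₂ := hy'
  show d ≤ hammingDist (Sum.elim x y) (Sum.elim x' y')
  by_cases h : x = x'
  · have h' : y ≠ y' := by
      rintro rfl
      exact hpq (by rw [h])
    refine (h₂ y hy y' hy' h').trans ?_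
    unfold hammingDist
    apply Finset.card_le_card_of_injOn Sum.inr
    · intro i hi
      have hi : y i ≠ y' i := (Finset.mem_filter.1 hi).2
      exact Finset.mem_coe.2 (Finset.mem_filter.2 ⟨Finset.mem_univ _, hi⟩)
    · intro i _ j _ hij
      exact Sum.inr_injective hij
  · refine (h₁ x hx x' hx' h).trans ?_
    unfold hammingDist
    apply Finset.card_le_card_of_injOn Sum.inl
    · intro i hi
      have hi : x i ≠ x' i := (Finset.mem_filter.1 hi).2
      exact Finset.mem_coe.2 (Finset.mem_filter.2 ⟨Finset.mem_univ _, hi⟩)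
    · intro i _ j _ hij
      exact Sum.inl_injective hij

lemma A_mul (a b d : ℕ) : A a d * A b d ≤ A (a + b) d := by
  obtain ⟨C₁, h₁, e₁⟩ := A_mem a d
  obtain ⟨C₂, h₂, e₂⟩ := A_mem b d
  have h := card_le_A _ d (prodCode_dist C₁ C₂ d h₁ h₂)
  rw [prodCode_card, e₁, e₂] at h
  simpa using h

/-- The bound for the coordinates in `S`, where `N` is the set of the coordinates in which the
operation is not affine. -/
noncomputable def Phi {ι : Type} [DecidableEq ι] (N : Finset ι) (d : ℕ) (S : Finset ι) : ℕ :=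
  2 ^ ((N ∩ S).card / d) * A (S \ N).card d

lemma Phi_mul {ι : Type} [DecidableEq ι] (N : Finset ι) (d : ℕ) (S T : Finset ι)
    (h : Disjoint S T) : Phi N d S * Phi N d T ≤ Phi N d (S ∪ T) := by
  unfold Phi
  have h1 : (N ∩ (S ∪ T)).card = (N ∩ S).card + (N ∩ T).card := by
    rw [Finset.inter_union_distrib_left, Finset.card_union_of_disjoint]
    exact h.mono Finset.inter_subset_right Finset.inter_subset_right
  have h2 : ((S ∪ T) \ N).card = (S \ N).card + (T \ N).card := by
    rw [Finset.union_sdiff_distrib, Finset.card_union_of_disjoint]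
    exact h.mono Finset.sdiff_subset Finset.sdiff_subset
  rw [h1, h2]
  have h3 : (N ∩ S).card / d + (N ∩ T).card / d ≤ ((N ∩ S).card + (N ∩ T).card) / d :=
    Nat.div_add_div_le_add_div
  calc 2 ^ ((N ∩ S).card / d) * A (S \ N).card d * (2 ^ ((N ∩ T).card / d) * A (T \ N).card d)
      = 2 ^ ((N ∩ S).card / d + (N ∩ T).card / d) * (A (S \ N).card d * A (T \ N).card d) := by
        rw [pow_add]; ring
    _ ≤ 2 ^ (((N ∩ S).card + (N ∩ T).card) / d) * A ((S \ N).card + (T \ N).card) d :=
        Nat.mul_le_mul (Nat.pow_le_pow_right (by norm_num) h3) (A_mul _ _ _)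

lemma Phi_pos {ι : Type} [DecidableEq ι] (N : Finset ι) (d : ℕ) (S : Finset ι) :
    1 ≤ Phi N d S := Nat.mul_pos (by positivity) (A_pos _ _)

lemma Phi_prod {ι : Type} [DecidableEq ι] (N : Finset ι) (d : ℕ) (V : Finset (Finset ι))
    (h : ∀ S ∈ V, ∀ T ∈ V, S ≠ T → Disjoint S T) : ∏ S ∈ V, Phi N d S ≤ Phi N d (V.biUnion id) := by
  classical
  induction V using Finset.induction_on with
  | empty => simpa using Phi_pos N d ∅
  | insert S V hS ih =>
    rw [Finset.prod_insert hS, Finset.biUnion_insert]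
    refine (Nat.mul_le_mul_left _ (ih (fun A hA B hB => h A (Finset.mem_insert_of_mem hA) B
      (Finset.mem_insert_of_mem hB)))).trans ?_
    apply Phi_mul
    rw [Finset.disjoint_biUnion_right]
    intro T hT
    exact h S (Finset.mem_insert_self _ _) T (Finset.mem_insert_of_mem hT)
      (fun he => hS (he ▸ hT))

end Pool.Agent.Helper951_poly
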