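import Pool.Agent.Helper951_poly.Sharp

set_option autoImplicit false

namespace Pool.Agent.Helper951_poly

open Finset Filter

lemma A_le_pow (n d : ℕ) : A n d ≤ 2 ^ n := by
  obtain ⟨C, -, h⟩ := A_mem n d
  rw [← h]
  calc C.card ≤ Fintype.card (Fin n → Bool) := Finset.card_le_univ _
    _ = 2 ^ n := by simp

lemma A_anti {n d d' : ℕ} (h : d' ≤ d) : A n d ≤ A n d' := by
  obtain ⟨C, h1, h2⟩ := A_mem n d
  rw [← h2]
  exact le_csSup (A_bdd n d') ⟨C, fun x hx y hy hxy => h.trans (h1 x hx y hy hxy), rfl⟩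

lemma logA_nonneg (n d : ℕ) : 0 ≤ Real.logb 2 (A n d) :=
  Real.logb_nonneg (by norm_num) (by exact_mod_cast A_pos n d)

lemma logA_le (n d : ℕ) : Real.logb 2 (A n d) ≤ n := by
  have h1 : (0 : ℝ) < A n d := by exact_mod_cast A_pos n d
  rw [Real.logb_le_iff_le_rpow (by norm_num) h1, Real.rpow_natCast]
  exact_mod_cast A_le_pow n d

/-- The asymptotic rate. -/
noncomputable def RR (δ : ℝ) : ℝ :=
  limsup (fun n : ℕ => Real.logb 2 (A n ⌈δ * n⌉₊) / n) atTop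

lemma rate_le_one (δ : ℝ) (n : ℕ) : Real.logb 2 (A n ⌈δ * n⌉₊) / n ≤ 1 := by
  rcases Nat.eq_zero_or_pos n with rfl | hn
  · simp
  · have : (0 : ℝ) < n := by exact_mod_cast hn
    rw [div_le_one this]
    exact logA_le _ _

lemma rate_bdd (δ : ℝ) :
    IsBoundedUnder (· ≤ ·) atTop (fun n : ℕ => Real.logb 2 (A n ⌈δ * n⌉₊) / n) :=
  isBoundedUnder_of ⟨1, rate_le_one δ⟩

lemma eventually_rate (δ ε : ℝ) (hε : 0 < ε) :
    ∃ m₀ : ℕ, ∀ m ≥ m₀, Real.logb 2 (A m ⌈δ * m⌉₊) / m < RR δ + ε := by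
  have h : limsup (fun n : ℕ => Real.logb 2 (A n ⌈δ * n⌉₊) / n) atTop < RR δ + ε := by
    show RR δ < RR δ + ε
    linarith
  exact eventually_atTop.1 (eventually_lt_of_limsup_lt h (rate_bdd δ))

/-- The entropy bound for a sum of binomial coefficients. -/
lemma choose_sum_le {n d : ℕ} {δ : ℝ} (h0 : 0 < δ) (h1 : δ < 1 / 2) (hdn : d ≤ n)
    (hd : ∀ j < d, (j : ℝ) ≤ δ * n) :
    (∑ j ∈ Finset.range d, (n.choose j : ℝ)) * Real.exp (-(n * Real.binEntropy δ)) ≤ 1 := by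
  have hδ1 : 0 < 1 - δ := by linarith
  have hterm : ∀ j ∈ Finset.range d, (n.choose j : ℝ) * Real.exp (-(n * Real.binEntropy δ)) ≤
      δ ^ j * (1 - δ) ^ (n - j) * n.choose j := by
    intro j hj
    have hj : j < d := Finset.mem_range.1 hj
    have hjn : j ≤ n := hj.le.trans hdn
    rw [mul_comm]
    apply mul_le_mul_of_nonneg_right _ (Nat.cast_nonneg _)
    have e1 : δ ^ j * (1 - δ) ^ (n - j) =
        Real.exp (j * Real.log δ + (n - j : ℝ) * Real.log (1 - δ)) := by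
      rw [Real.exp_add, mul_comm (j : ℝ), Real.exp_mul, Real.exp_log h0, Real.rpow_natCast,
        mul_comm (n - j : ℝ), Real.exp_mul, Real.exp_log hδ1]
      congr 1
      rw [← Nat.cast_sub hjn, Real.rpow_natCast]
    rw [e1, Real.exp_le_exp]
    unfold Real.binEntropy
    rw [Real.log_inv, Real.log_inv]
    have h2 : Real.log δ ≤ Real.log (1 - δ) := Real.log_le_log h0 (by linarith)
    have h3 := hd j hj
    nlinarith [mul_nonneg (sub_nonneg.2 h3) (sub_nonneg.2 h2)]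
  rw [Finset.sum_mul]
  refine (Finset.sum_le_sum hterm).trans ?_
  have h4 : ∑ j ∈ Finset.range d, δ ^ j * (1 - δ) ^ (n - j) * (n.choose j : ℝ) ≤
      ∑ j ∈ Finset.range (n + 1), δ ^ j * (1 - δ) ^ (n - j) * (n.choose j : ℝ) := by
    apply Finset.sum_le_sum_of_subset_of_nonneg
    · intro j hj
      rw [Finset.mem_range] at hj ⊢
      omega
    · intro j _ _
      positivity
  refine h4.trans ?_
  rw [← add_pow]
  simp

lemma rate_ge {δ : ℝ} (h0 : 0 < δ) (h1 : δ < 1 / 2) {n : ℕ} (hn : 1 ≤ n) :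
    1 - Real.binEntropy δ / Real.log 2 ≤ Real.logb 2 (A n ⌈δ * n⌉₊) / n := by
  have hn' : (0 : ℝ) < n := by exact_mod_cast hn
  have hd : 0 < ⌈δ * n⌉₊ := Nat.ceil_pos.2 (by positivity)
  have hdn : ⌈δ * n⌉₊ ≤ n := Nat.ceil_le.2 (by nlinarith)
  obtain ⟨C, h2, -, h3⟩ := gv hd hdn
  have h4 : C.card ≤ A n ⌈δ * n⌉₊ := le_csSup (A_bdd _ _) ⟨C, h2, rfl⟩
  have h5 := choose_sum_le (n := n) (d := ⌈δ * n⌉₊) h0 h1 hdn (fun j hj => (Nat.lt_ceil.1 hj).le)
  have hS : (2 : ℝ) ^ n ≤ A n ⌈δ * n⌉₊ * ∑ j ∈ Finset.range ⌈δ * n⌉₊, (n.choose j : ℝ) := by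
    have : (2 ^ n : ℕ) ≤ A n ⌈δ * n⌉₊ * ∑ j ∈ Finset.range ⌈δ * n⌉₊, n.choose j :=
      h3.trans (Nat.mul_le_mul_right _ h4)
    exact_mod_cast this
  have hApos : (0 : ℝ) < A n ⌈δ * n⌉₊ := by exact_mod_cast A_pos _ _
  have h6 : (2 : ℝ) ^ n * Real.exp (-(n * Real.binEntropy δ)) ≤ A n ⌈δ * n⌉₊ := by
    calc (2 : ℝ) ^ n * Real.exp (-(n * Real.binEntropy δ)) ≤
        (A n ⌈δ * n⌉₊ * ∑ j ∈ Finset.range ⌈δ * n⌉₊, (n.choose j : ℝ)) *
          Real.exp (-(n * Real.binEntropy δ)) :=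
          mul_le_mul_of_nonneg_right hS (Real.exp_pos _).le
      _ = A n ⌈δ * n⌉₊ * ((∑ j ∈ Finset.range ⌈δ * n⌉₊, (n.choose j : ℝ)) *
          Real.exp (-(n * Real.binEntropy δ))) := by ring
      _ ≤ A n ⌈δ * n⌉₊ * 1 := mul_le_mul_of_nonneg_left h5 hApos.le
      _ = _ := mul_one _
  have hlog2 : 0 < Real.log 2 := Real.log_pos (by norm_num)
  have h7 : (n : ℝ) * Real.log 2 - n * Real.binEntropy δ ≤ Real.log (A n ⌈δ * n⌉₊) := by
    have := Real.log_le_log (by positivity) h6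
    rwa [Real.log_mul (by positivity) (Real.exp_pos _).ne', Real.log_exp, Real.log_pow] at this
  rw [le_div_iff₀ hn', Real.logb, le_div_iff₀ hlog2]
  calc (1 - Real.binEntropy δ / Real.log 2) * n * Real.log 2 =
      n * Real.log 2 - n * Real.binEntropy δ := by
        field_simp
    _ ≤ _ := h7

lemma RR_pos {δ : ℝ} (h0 : 0 < δ) (h1 : δ < 1 / 2) : 0 < RR δ := by
  have h2 : Real.binEntropy δ < Real.log 2 := Real.binEntropy_lt_log_two.2 (by
    intro h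
    rw [h] at h1
    norm_num at h1)
  have hlog2 : 0 < Real.log 2 := Real.log_pos (by norm_num)
  have h3 : 0 < 1 - Real.binEntropy δ / Real.log 2 := by
    rw [sub_pos, div_lt_one hlog2]
    exact h2
  refine h3.trans_le ?_
  apply le_limsup_of_frequently_le _ (rate_bdd δ)
  apply Eventually.frequently
  filter_upwards [eventually_ge_atTop 1] with n hn
  exact rate_ge h0 h1 hn

/-- The sizes of the codes closed under an operation, in terms of the rate. -/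
theorem rate_upper {δ : ℝ} (h0 : 0 < δ) (h1 : δ < 1 / 2) {ε : ℝ} (hε : 0 < ε) :
    ∃ K : ℝ, 0 ≤ K ∧ ∀ n : ℕ, 1 ≤ n → ∀ N ≤ n, ∀ m : ℕ, 0 < m →
      m ≤ 2 ^ (N / ⌈δ * n⌉₊) * A (n - N) ⌈δ * n⌉₊ →
      Real.logb 2 m ≤ (n - N : ℝ) * (RR δ + ε) + K := by
  obtain ⟨m₀, hm₀⟩ := eventually_rate δ ε hε
  have hR := RR_pos h0 h1
  refine ⟨1 / δ + m₀, by positivity, ?_⟩
  intro n hn N hNn m hm hup
  have hn' : (0 : ℝ) < n := by exact_mod_cast hn
  have hd : 0 < ⌈δ * n⌉₊ := Nat.ceil_pos.2 (by positivity)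
  have hcpos : (0 : ℝ) < m := by exact_mod_cast hm
  have hApos : (0 : ℝ) < A (n - N) ⌈δ * n⌉₊ := by exact_mod_cast A_pos _ _
  have e1 : Real.logb 2 m ≤ ((N / ⌈δ * n⌉₊ : ℕ) : ℝ) + Real.logb 2 (A (n - N) ⌈δ * n⌉₊) := by
    have h2 : (m : ℝ) ≤ 2 ^ (N / ⌈δ * n⌉₊) * (A (n - N) ⌈δ * n⌉₊) := by exact_mod_cast hup
    have h3 := (Real.logb_le_logb (by norm_num : (1 : ℝ) < 2) hcpos (by positivity)).2 h2
    rwa [Real.logb_mul (by positivity) hApos.ne', ← Real.rpow_natCast, Real.logb_rpow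
      (by norm_num) (by norm_num)] at h3
  have e2 : ((N / ⌈δ * n⌉₊ : ℕ) : ℝ) ≤ 1 / δ := by
    have h2 : (0 : ℝ) < ⌈δ * n⌉₊ := by exact_mod_cast hd
    calc ((N / ⌈δ * n⌉₊ : ℕ) : ℝ) ≤ (N : ℝ) / (⌈δ * n⌉₊ : ℝ) := Nat.cast_div_le
      _ ≤ n / (δ * n) := by
          apply div_le_div₀ hn'.le (by exact_mod_cast hNn) (by positivity) (Nat.le_ceil _)
      _ = 1 / δ := by field_simp
  have e3 : Real.logb 2 (A (n - N) ⌈δ * n⌉₊) ≤ (n - N : ℝ) * (RR δ + ε) + m₀ := by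
    have h2 : A (n - N) ⌈δ * n⌉₊ ≤ A (n - N) ⌈δ * ((n - N : ℕ) : ℝ)⌉₊ := by
      apply A_anti
      apply Nat.ceil_le_ceil
      have : ((n - N : ℕ) : ℝ) ≤ n := by exact_mod_cast Nat.sub_le n N
      nlinarith
    have h3 : Real.logb 2 (A (n - N) ⌈δ * n⌉₊) ≤
        Real.logb 2 (A (n - N) ⌈δ * ((n - N : ℕ) : ℝ)⌉₊) :=
      (Real.logb_le_logb (by norm_num : (1 : ℝ) < 2) hApos
        (by exact_mod_cast A_pos _ _)).2 (by exact_mod_cast h2)
    have hcast : ((n - N : ℕ) : ℝ) = n - N := by rw [Nat.cast_sub hNn]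
    have hnn : (0 : ℝ) ≤ n - N := by
      rw [← hcast]
      positivity
    by_cases hm : m₀ ≤ n - N
    · have h4 := hm₀ (n - N) hm
      rcases Nat.eq_zero_or_pos (n - N) with h5 | h5
      · have h6 := logA_le (n - N) ⌈δ * n⌉₊
        rw [hcast] at h6
        have h7 : (n - N : ℝ) = 0 := by rw [← hcast, h5]; simp
        rw [h7] at h6 ⊢
        have : (0 : ℝ) ≤ m₀ := by positivity
        linarith
      · have h6 : (0 : ℝ) < ((n - N : ℕ) : ℝ) := by exact_mod_cast h5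
        rw [div_lt_iff₀ h6] at h4
        have : (0 : ℝ) ≤ m₀ := by positivity
        rw [hcast] at h4
        rw [hcast] at h3
        nlinarith
    · have h4 := logA_le (n - N) ⌈δ * n⌉₊
      have h5 : ((n - N : ℕ) : ℝ) ≤ m₀ := by exact_mod_cast (not_le.1 hm).le
      have : 0 ≤ (n - N : ℝ) * (RR δ + ε) := mul_nonneg hnn (by linarith)
      linarith
  linarith

/-- The operations of a nearly optimal code are affine in almost all coordinates. -/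
theorem near_optimal {δ : ℝ} (h0 : 0 < δ) (h1 : δ < 1 / 2) {η : ℝ} (hη : 0 < η) :
    ∃ ε : ℝ, 0 < ε ∧ ∃ n₀ : ℕ, ∀ n ≥ n₀, ∀ (C : Finset (Fin n → Bool)),
      MinDist ⌈δ * n⌉₊ C → (2 : ℝ) ^ ((RR δ - ε) * n) ≤ C.card →
      (Nat.card {i // ∃ (k : ℕ) (f : Fin n → (Fin k → Bool) → Bool), Closed f C ∧
        ¬ Affine (f i)} : ℝ) ≤ η * n := by
  have hR := RR_pos h0 h1
  obtain ⟨K, hK0, hK⟩ := rate_upper h0 h1 (ε := η * RR δ / 4) (by positivity)
  refine ⟨η * RR δ / 4, by positivity, ⌈K / (η * RR δ / 2)⌉₊ + 1, ?_⟩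
  intro n hn C hdist hcard
  have hn1 : 1 ≤ n := by omega
  have hn' : (0 : ℝ) < n := by exact_mod_cast hn1
  have hn2 : K / (η * RR δ / 2) ≤ n :=
    (Nat.le_ceil _).trans (by exact_mod_cast (by omega : ⌈K / (η * RR δ / 2)⌉₊ ≤ n))
  rw [div_le_iff₀ (by positivity)] at hn2
  have hd : 0 < ⌈δ * n⌉₊ := Nat.ceil_pos.2 (by positivity)
  have hcpos : (0 : ℝ) < C.card := lt_of_lt_of_le (by positivity) hcard
  have hcpos' : 0 < C.card := by exact_mod_cast hcpos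
  obtain ⟨N, hN⟩ : ∃ N, N = Nat.card {i // ∃ (k : ℕ) (f : Fin n → (Fin k → Bool) → Bool),
    Closed f C ∧ ¬ Affine (f i)} := ⟨_, rfl⟩
  have hup := upper hd {f : Σ k, (Fin n → (Fin k → Bool) → Bool) | Closed f.2 C} C
    (fun f hf => hf) hdist
  have hset : Nat.card {i // ∃ f ∈ {f : Σ k, (Fin n → (Fin k → Bool) → Bool) | Closed f.2 C},
      ¬ Affine (f.2 i)} = N := by
    rw [hN]
    congr 1
    apply congrArg
    funext i
    simp [Sigma.exists]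
  rw [hset] at hup
  have hNn : N ≤ n := by
    rw [hN]
    calc _ ≤ Nat.card (Fin n) := Nat.card_le_card_of_injective _ Subtype.val_injective
      _ = n := by simp
  rw [← hN]
  have h2 := hK n hn1 N hNn C.card hcpos' hup
  have h3 : (RR δ - η * RR δ / 4) * n ≤ Real.logb 2 C.card :=
    (Real.le_logb_iff_rpow_le (by norm_num) hcpos).2 hcard
  have h5 : (N : ℝ) * RR δ ≤ η * n * RR δ := by
    have h6 : 0 ≤ (N : ℝ) * (η * RR δ / 4) := by positivity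
    nlinarith
  exact le_of_mul_le_mul_right h5 hR

/-- The bound of Gilbert and Varshamov for codes closed under all affine operations. -/
theorem gv_rate {δ : ℝ} (h0 : 0 < δ) (h1 : δ < 1 / 2) {n : ℕ} (hn : 1 ≤ n) :
    ∃ C : Finset (Fin n → Bool), MinDist ⌈δ * n⌉₊ C ∧
      (∀ (k : ℕ) (g : (Fin k → Bool) → Bool), Affine g → ClosedU g C) ∧
      (2 : ℝ) ^ ((1 - (-δ * Real.logb 2 δ - (1 - δ) * Real.logb 2 (1 - δ))) * n) ≤ C.card := by
  have hn' : (0 : ℝ) < n := by exact_mod_cast hn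
  have hd : 0 < ⌈δ * n⌉₊ := Nat.ceil_pos.2 (by positivity)
  have hdn : ⌈δ * n⌉₊ ≤ n := Nat.ceil_le.2 (by nlinarith)
  obtain ⟨C, h2, h4, h3⟩ := gv hd hdn
  refine ⟨C, h2, h4, ?_⟩
  have h5 := choose_sum_le (n := n) (d := ⌈δ * n⌉₊) h0 h1 hdn (fun j hj => (Nat.lt_ceil.1 hj).le)
  have hS : (2 : ℝ) ^ n ≤ C.card * ∑ j ∈ Finset.range ⌈δ * n⌉₊, (n.choose j : ℝ) := by
    exact_mod_cast h3
  have h6 : (2 : ℝ) ^ n * Real.exp (-(n * Real.binEntropy δ)) ≤ C.card := by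
    calc (2 : ℝ) ^ n * Real.exp (-(n * Real.binEntropy δ)) ≤
        (C.card * ∑ j ∈ Finset.range ⌈δ * n⌉₊, (n.choose j : ℝ)) *
          Real.exp (-(n * Real.binEntropy δ)) :=
          mul_le_mul_of_nonneg_right hS (Real.exp_pos _).le
      _ = C.card * ((∑ j ∈ Finset.range ⌈δ * n⌉₊, (n.choose j : ℝ)) *
          Real.exp (-(n * Real.binEntropy δ))) := by ring
      _ ≤ C.card * 1 := mul_le_mul_of_nonneg_left h5 (Nat.cast_nonneg _)
      _ = _ := mul_one _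
  refine le_trans (le_of_eq ?_) h6
  have hlog2 : Real.log 2 ≠ 0 := (Real.log_pos (by norm_num)).ne'
  rw [Real.rpow_def_of_pos (by norm_num : (0 : ℝ) < 2), ← Real.rpow_natCast,
    Real.rpow_def_of_pos (by norm_num : (0 : ℝ) < 2), ← Real.exp_add]
  congr 1
  unfold Real.binEntropy Real.logb
  rw [Real.log_inv, Real.log_inv]
  field_simp
  ring

end Pool.Agent.Helper951_poly
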