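import Pool.Agent.Helper951_poly.Fibre

set_option autoImplicit false

namespace Pool.Agent.Helper951_poly

open Finset

lemma and_not_affine : ¬ Affine (fun x : Fin 2 → Bool => x 0 && x 1) := by
  intro h
  have := h (fun _ => false) ![true, false] ![false, true]
  revert this
  simp [x3]

/-- The extremal codes. -/
theorem sharp (n d N : ℕ) (hd : 0 < d) (hN : N ≤ n) :
    ∃ (f : Fin n → (Fin 2 → Bool) → Bool) (C : Finset (Fin n → Bool)),
      Nat.card {i // ¬ Affine (f i)} = N ∧ Closed f C ∧ MinDist d C ∧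
      C.card = 2 ^ (N / d) * A (n - N) d := by
  classical
  obtain ⟨C₁, h1, h2, h3⟩ : ∃ C : Finset (Fin N → Bool), C.card = 2 ^ (N / d) ∧ MinDist d C ∧
      ClosedU (fun x : Fin 2 → Bool => x 0 && x 1) C := by
    by_cases h : d ≤ N
    · obtain ⟨C, h1, h2, h3⟩ := blowup hd h
      exact ⟨C, h1, h2, h3 2 _⟩
    · refine ⟨{fun _ => false}, ?_, ?_, ?_⟩
      · rw [Nat.div_eq_of_lt (by omega)]
        simp
      · intro x hx y hy hxy
        rw [Finset.mem_singleton] at hx hy
        exact absurd (hx.trans hy.symm) hxy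
      · intro x hx
        rw [Finset.mem_singleton]
        funext i
        have := hx 0
        rw [Finset.mem_singleton] at this
        show (x 0 i && x 1 i) = false
        rw [this]
        rfl
  obtain ⟨C₂, h4, h5⟩ := A_mem (n - N) d
  let e : Fin n ≃ Fin N ⊕ Fin (n - N) :=
    (finSumFinEquiv.trans (finCongr (by omega : N + (n - N) = n))).symm
  let g : Fin N ⊕ Fin (n - N) → (Fin 2 → Bool) → Bool :=
    Sum.elim (fun _ x => x 0 && x 1) (fun _ x => x 0)
  let Φ : (Fin N ⊕ Fin (n - N) → Bool) → (Fin n → Bool) := fun x i => x (e i)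
  have hinj : Function.Injective Φ := by
    intro x y hxy
    funext s
    have := congrFun hxy (e.symm s)
    simpa [Φ] using this
  refine ⟨fun i => g (e i), (prodCode C₁ C₂).image Φ, ?_, ?_, ?_, ?_⟩
  · have h6 : ∀ i, ¬ Affine (g (e i)) ↔ ∃ j, e i = Sum.inl j := by
      intro i
      cases h : e i with
      | inl j =>
        simp only [Sum.inl.injEq, exists_eq', iff_true]
        exact and_not_affine
      | inr j =>
        simp only [reduceCtorEq, exists_false, iff_false, not_not]
        intro x y z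
        rfl
    have h7 : Nat.card {i // ¬ Affine (g (e i))} = Nat.card (Fin N) := by
      refine (Nat.card_congr (Equiv.ofBijective
        (fun j : Fin N => (⟨e.symm (Sum.inl j), (h6 _).2 ⟨j, by simp⟩⟩ :
          {i // ¬ Affine (g (e i))})) ⟨?_, ?_⟩)).symm
      · intro j j' h
        have := congrArg Subtype.val h
        exact Sum.inl_injective (e.symm.injective this)
      · rintro ⟨i, hi⟩
        obtain ⟨j, hj⟩ := (h6 i).1 hi
        refine ⟨j, Subtype.ext ?_⟩
        show e.symm (Sum.inl j) = i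
        rw [← hj, Equiv.symm_apply_apply]
    rw [h7, Nat.card_eq_fintype_card, Fintype.card_fin]
  · intro x hx
    have : ∀ j, ∃ p ∈ C₁ ×ˢ C₂, Φ (Sum.elim p.1 p.2) = x j := by
      intro j
      obtain ⟨y, hy, hyx⟩ := Finset.mem_image.1 (hx j)
      obtain ⟨p, hp, rfl⟩ := Finset.mem_image.1 hy
      exact ⟨p, hp, hyx⟩
    choose p hp hpx using this
    refine Finset.mem_image.2 ⟨Sum.elim (fun i => (p 0).1 i && (p 1).1 i) (p 0).2, ?_, ?_⟩
    · refine Finset.mem_image.2 ⟨(fun i => (p 0).1 i && (p 1).1 i, (p 0).2), ?_, rfl⟩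
      rw [Finset.mem_product]
      refine ⟨?_, (Finset.mem_product.1 (hp 0)).2⟩
      exact h3 (fun j => (p j).1) (fun j => (Finset.mem_product.1 (hp j)).1)
    · funext i
      show Sum.elim (fun i => (p 0).1 i && (p 1).1 i) (p 0).2 (e i) = g (e i) (fun j => x j i)
      have h6 : (fun j => x j i) = fun j => Sum.elim (p j).1 (p j).2 (e i) := by
        funext j
        rw [← hpx]
      rw [h6]
      cases e i with
      | inl j => rfl
      | inr j => rfl
  · intro x' hx' y' hy' hxy
    obtain ⟨x, hx, rfl⟩ := Finset.mem_image.1 hx'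
    obtain ⟨y, hy, rfl⟩ := Finset.mem_image.1 hy'
    have h6 := prodCode_dist C₁ C₂ d h2 h4 x hx y hy (fun h => hxy (by rw [h]))
    rwa [← hd_comp e x y] at h6
  · rw [Finset.card_image_of_injective _ hinj, prodCode_card, h1, h5]

/-- The upper bound in terms of the number of coordinates in which some operation is not
affine. -/
theorem upper {n d : ℕ} (hd : 0 < d) (O : Set (Σ k, (Fin n → (Fin k → Bool) → Bool)))
    (C : Finset (Fin n → Bool)) (hC : ∀ f ∈ O, Closed f.2 C) (hdist : MinDist d C) :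
    C.card ≤ 2 ^ (Nat.card {i // ∃ f ∈ O, ¬ Affine (f.2 i)} / d) *
      A (n - Nat.card {i // ∃ f ∈ O, ¬ Affine (f.2 i)}) d := by
  classical
  have h := rich_bound C (Finset.univ.filter (fun i => ∃ f ∈ O, ¬ Affine (f.2 i))) d hd hdist (by
    intro i hi
    obtain ⟨f, hf, hfi⟩ := (Finset.mem_filter.1 hi).2
    refine ⟨f.1, f.2, hC f hf, ?_, hfi⟩
    intro l hl
    by_contra h
    exact hl (Finset.mem_filter.2 ⟨Finset.mem_univ _, f, hf, h⟩))
  unfold Phi at h
  have hcard : (Finset.univ.filter (fun i => ∃ f ∈ O, ¬ Affine (f.2 i))).card =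
      Nat.card {i // ∃ f ∈ O, ¬ Affine (f.2 i)} := by
    rw [Nat.card_eq_fintype_card, Fintype.card_subtype]
  rw [Finset.inter_univ, Finset.card_sdiff_of_subset (Finset.subset_univ _), hcard,
    Finset.card_univ, Fintype.card_fin] at h
  exact h

theorem greatest (n d N : ℕ) (hd : 1 ≤ d) (hN : N ≤ n) :
    IsGreatest {m | ∃ (O : Set (Σ k, (Fin n → (Fin k → Bool) → Bool)))
      (C : Finset (Fin n → Bool)), Nat.card {i // ∃ f ∈ O, ¬ Affine (f.2 i)} = N ∧
      (∀ f ∈ O, Closed f.2 C) ∧ MinDist d C ∧ C.card = m}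
      (2 ^ (N / d) * A (n - N) d) := by
  constructor
  · obtain ⟨f, C, h1, h2, h3, h4⟩ := sharp n d N hd hN
    refine ⟨{⟨2, f⟩}, C, ?_, ?_, h3, h4⟩
    · rw [← h1]
      congr 1
      simp
    · intro g hg
      rw [Set.mem_singleton_iff] at hg
      rw [hg]
      exact h2
  · rintro m ⟨O, C, rfl, h2, h3, rfl⟩
    exact upper hd O C h2 h3

end Pool.Agent.Helper951_poly
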