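import Pool.Agent.Helper951_poly.Count

set_option autoImplicit false

namespace Pool.Agent.Helper951_poly

open Finset

/-- Sum modulo `2` of three bits. -/
def x3 (a b c : Bool) : Bool := xor a (xor b c)

/-- Affine Boolean functions. -/
def Affine {k : ℕ} (f : (Fin k → Bool) → Bool) : Prop :=
  ∀ x y z : Fin k → Bool, f (fun j => x3 (x j) (y j) (z j)) = x3 (f x) (f y) (f z)

/-- Idempotent Boolean functions. -/
def Idem {k : ℕ} (f : (Fin k → Bool) → Bool) : Prop := ∀ b, f (fun _ => b) = b

/-- `C` is closed under the operation which acts by `f i` in the coordinate `i`. -/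
def Closed {ι : Type} {k : ℕ} (f : ι → (Fin k → Bool) → Bool) (C : Finset (ι → Bool)) : Prop :=
  ∀ x : Fin k → ι → Bool, (∀ j, x j ∈ C) → (fun i => f i (fun j => x j i)) ∈ C

/-! ### Two-dimensional faces -/

/-- flip the `j`-th bit -/
def flip {k : ℕ} (j : Fin k) (a : Fin k → Bool) : Fin k → Bool := Function.update a j (!a j)

lemma affine_of_faces {k : ℕ} (f : (Fin k → Bool) → Bool)
    (h : ∀ a : Fin k → Bool, ∀ i j, i ≠ j →
      xor (xor (f a) (f (flip i a))) (xor (f (flip j a)) (f (flip i (flip j a)))) = false) :
    Affine f := by
  classical
  -- the derivative in the direction `i` is constant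
  have inv : ∀ i j a, xor (f (flip j a)) (f (flip i (flip j a))) = xor (f a) (f (flip i a)) := by
    intro i j a
    by_cases hij : i = j
    · subst hij
      have e : flip i (flip i a) = a := by
        funext l
        unfold flip
        by_cases hl : l = i
        · subst hl; simp
        · simp [Function.update_of_ne hl]
      rw [e, Bool.xor_comm]
    · have := h a i j hij
      revert this
      cases f a <;> cases f (flip i a) <;> cases f (flip j a) <;> cases f (flip i (flip j a)) <;> simp
  have const : ∀ i (s : Finset (Fin k)) a, (∀ j ∉ s, a j = false) →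
      xor (f a) (f (flip i a)) = xor (f fun _ => false) (f (flip i fun _ => false)) := by
    intro i s
    induction s using Finset.induction_on with
    | empty =>
      intro a ha
      have : a = fun _ => false := by
        funext j
        exact ha j (by simp)
      rw [this]
    | insert j s _ ih =>
      intro a ha
      by_cases haj : a j = false
      · apply ih
        intro l hl
        by_cases hlj : l = j
        · rw [hlj, haj]
        · exact ha l (by simp [hlj, hl])
      · rw [← inv i j a]
        apply ih
        intro l hl
        unfold flip
        by_cases hlj : l = j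
        · subst hlj
          simp only [Function.update_self]
          revert haj
          cases a l <;> simp
        · rw [Function.update_of_ne hlj]
          exact ha l (by simp [hlj, hl])
  have const' : ∀ i a, f (flip i a) =
      x3 (f a) (f fun _ => false) (f (flip i fun _ => false)) := by
    intro i a
    have := const i Finset.univ a (by simp)
    unfold x3
    revert this
    cases f a <;> cases f (flip i a) <;> cases f (fun _ => false) <;>
      cases f (flip i fun _ => false) <;> simp
  -- the affine identity by induction on the support of the third argument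
  have step : ∀ (s : Finset (Fin k)) (x y z : Fin k → Bool), (∀ j ∉ s, z j = y j) →
      f (fun j => x3 (x j) (y j) (z j)) = x3 (f x) (f y) (f z) := by
    intro s
    induction s using Finset.induction_on with
    | empty =>
      intro x y z hz
      have : z = y := by
        funext j
        exact hz j (by simp)
      rw [this]
      have e : (fun j => x3 (x j) (y j) (y j)) = x := by
        funext j
        unfold x3
        cases x j <;> cases y j <;> rfl
      rw [e]
      unfold x3
      cases f x <;> cases f y <;> rfl
    | insert j s _ ih =>
      intro x y z hz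
      by_cases hzj : z j = y j
      · apply ih
        intro l hl
        by_cases hlj : l = j
        · rw [hlj, hzj]
        · exact hz l (by simp [hlj, hl])
      · have h1 := ih x y (flip j z) (by
          intro l hl
          unfold flip
          by_cases hlj : l = j
          · subst hlj
            rw [Function.update_self]
            revert hzj
            cases z l <;> cases y l <;> simp
          · rw [Function.update_of_ne hlj]
            exact hz l (by simp [hlj, hl]))
        have e : (fun l => x3 (x l) (y l) (flip j z l)) =
            flip j (fun l => x3 (x l) (y l) (z l)) := by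
          funext l
          unfold flip
          by_cases hlj : l = j
          · subst hlj
            rw [Function.update_self, Function.update_self]
            show x3 (x l) (y l) (!z l) = !(x3 (x l) (y l) (z l))
            unfold x3
            cases x l <;> cases y l <;> cases z l <;> rfl
          · rw [Function.update_of_ne hlj, Function.update_of_ne hlj]
        rw [e, const', const' j z] at h1
        revert h1
        unfold x3
        cases f (fun l => xor (x l) (xor (y l) (z l))) <;> cases f x <;> cases f y <;>
          cases f z <;> cases f (fun _ => false) <;> cases f (flip j fun _ => false) <;> simp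
  intro x y z
  exact step Finset.univ x y z (by simp)

/-- The value of a function which is not affine on some face. -/
lemma face_of_not_affine {k : ℕ} (f : (Fin k → Bool) → Bool) (hf : ¬ Affine f) :
    ∃ (a : Fin k → Bool) (i j : Fin k), i ≠ j ∧
      xor (xor (f a) (f (flip i a))) (xor (f (flip j a)) (f (flip i (flip j a)))) = true := by
  by_contra hcon
  push Not at hcon
  apply hf
  apply affine_of_faces
  intro a i j hij
  have := hcon a i j hij
  simpa using this

/-! ### Binary and ternary operations -/

/-- Binary operations used below: `C` is closed, idempotent, and affine outside `N`. -/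
structure Good2 {ι : Type} (C : Finset (ι → Bool)) (N : Finset ι) (s : ι → Bool → Bool → Bool) :
    Prop where
  closed : ∀ x ∈ C, ∀ y ∈ C, (fun i => s i (x i) (y i)) ∈ C
  idem : ∀ i b, s i b b = b
  aff : ∀ i ∉ N, ∀ a b a' b' a'' b'', s i (x3 a a' a'') (x3 b b' b'') =
    x3 (s i a b) (s i a' b') (s i a'' b'')

/-- Ternary operations used below: `C` is closed, idempotent, and affine outside `N`. -/
structure Good3 {ι : Type} (C : Finset (ι → Bool)) (N : Finset ι)
    (t : ι → Bool → Bool → Bool → Bool) : Prop where
  closed : ∀ x ∈ C, ∀ y ∈ C, ∀ z ∈ C, (fun i => t i (x i) (y i) (z i)) ∈ C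
  idem : ∀ i b, t i b b b = b
  aff : ∀ i ∉ N, ∀ a b c a' b' c' a'' b'' c'', t i (x3 a a' a'') (x3 b b' b'') (x3 c c' c'') =
    x3 (t i a b c) (t i a' b' c') (t i a'' b'' c'')

variable {ι : Type} {C : Finset (ι → Bool)} {N : Finset ι}

/-- `u` is the minimum or the maximum. -/
def Semi (u : Bool → Bool → Bool) : Prop := u false true = u true false

instance (u : Bool → Bool → Bool) : Decidable (Semi u) := by unfold Semi; infer_instance

lemma semi_comm {u : Bool → Bool → Bool} (h : Semi u) (a b : Bool) : u a b = u b a := by
  unfold Semi at h
  cases a <;> cases b <;> simp [h]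

lemma proj_of_not_semi {u : Bool → Bool → Bool} (hi : ∀ b, u b b = b) (h : ¬ Semi u) :
    (∀ a b, u a b = a) ∨ (∀ a b, u a b = b) := by
  unfold Semi at h
  have h0 := hi false
  have h1 := hi true
  cases h2 : u false true
  · left
    have h3 : u true false = true := by
      rw [h2] at h
      revert h
      cases u true false <;> simp
    intro a b
    cases a <;> cases b <;> simp [h0, h1, h2, h3]
  · right
    have h3 : u true false = false := by
      rw [h2] at h
      revert h
      cases u true false <;> simp
    intro a b
    cases a <;> cases b <;> simp [h0, h1, h2, h3]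

lemma good2_fst : Good2 C N (fun _ a _ => a) :=
  ⟨fun x hx _ _ => hx, fun _ _ => rfl, fun _ _ _ _ _ _ _ _ => rfl⟩

lemma good3_fst : Good3 C N (fun _ a _ _ => a) :=
  ⟨fun x hx _ _ _ _ => hx, fun _ _ => rfl, fun _ _ _ _ _ _ _ _ _ _ _ => rfl⟩

lemma good2_comp {s t : ι → Bool → Bool → Bool} (hs : Good2 C N s) (ht : Good2 C N t) :
    Good2 C N (fun i a b => t i (s i a b) (s i b a)) := by
  refine ⟨fun x hx y hy => ht.closed _ (hs.closed x hx y hy) _ (hs.closed y hy x hx), ?_, ?_⟩
  · intro i b
    simp only [hs.idem, ht.idem]
  · intro i hi a b a' b' a'' b''
    simp only [hs.aff i hi, ht.aff i hi]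

lemma good2_left {s : ι → Bool → Bool → Bool} (hs : Good2 C N s) :
    Good2 C N (fun i a b => s i (s i a b) a) := by
  refine ⟨fun x hx y hy => hs.closed _ (hs.closed x hx y hy) _ hx, ?_, ?_⟩
  · intro i b
    simp only [hs.idem]
  · intro i hi a b a' b' a'' b''
    simp only [hs.aff i hi]

lemma good2_m1 {t : ι → Bool → Bool → Bool → Bool} (ht : Good3 C N t) :
    Good2 C N (fun i a b => t i a b b) :=
  ⟨fun x hx y hy => ht.closed x hx y hy y hy, fun i b => ht.idem i b,
    fun i hi a b a' b' a'' b'' => ht.aff i hi a b b a' b' b' a'' b'' b''⟩

lemma good2_m2 {t : ι → Bool → Bool → Bool → Bool} (ht : Good3 C N t) :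
    Good2 C N (fun i a b => t i a b a) :=
  ⟨fun x hx y hy => ht.closed x hx y hy x hx, fun i b => ht.idem i b,
    fun i hi a b a' b' a'' b'' => ht.aff i hi a b a a' b' a' a'' b'' a''⟩

lemma good2_m3 {t : ι → Bool → Bool → Bool → Bool} (ht : Good3 C N t) :
    Good2 C N (fun i a b => t i a a b) :=
  ⟨fun x hx y hy => ht.closed x hx x hx y hy, fun i b => ht.idem i b,
    fun i hi a b a' b' a'' b'' => ht.aff i hi a a b a' a' b' a'' a'' b''⟩

lemma good3_c3 {t : ι → Bool → Bool → Bool → Bool} (ht : Good3 C N t) :
    Good3 C N (fun i a b c => t i a b (t i a b c)) := by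
  refine ⟨fun x hx y hy z hz => ht.closed x hx y hy _ (ht.closed x hx y hy z hz), ?_, ?_⟩
  · intro i b
    simp only [ht.idem]
  · intro i hi a b c a' b' c' a'' b'' c''
    simp only [ht.aff i hi]

lemma good3_c2 {t : ι → Bool → Bool → Bool → Bool} (ht : Good3 C N t) :
    Good3 C N (fun i a b c => t i a (t i a b c) c) := by
  refine ⟨fun x hx y hy z hz => ht.closed x hx _ (ht.closed x hx y hy z hz) z hz, ?_, ?_⟩
  · intro i b
    simp only [ht.idem]
  · intro i hi a b c a' b' c' a'' b'' c''
    simp only [ht.aff i hi]

lemma good3_c1 {t : ι → Bool → Bool → Bool → Bool} (ht : Good3 C N t) :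
    Good3 C N (fun i a b c => t i (t i a b c) b c) := by
  refine ⟨fun x hx y hy z hz => ht.closed _ (ht.closed x hx y hy z hz) y hy z hz, ?_, ?_⟩
  · intro i b
    simp only [ht.idem]
  · intro i hi a b c a' b' c' a'' b'' c''
    simp only [ht.aff i hi]

lemma good3_comp {g t : ι → Bool → Bool → Bool → Bool} (hg : Good3 C N g) (ht : Good3 C N t) :
    Good3 C N (fun i a b c => t i (g i a b c) (g i b c a) (g i c a b)) := by
  refine ⟨fun x hx y hy z hz => ht.closed _ (hg.closed x hx y hy z hz) _
    (hg.closed y hy z hz x hx) _ (hg.closed z hz x hx y hy), ?_, ?_⟩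
  · intro i b
    simp only [ht.idem, hg.idem]
  · intro i hi a b c a' b' c' a'' b'' c''
    simp only [ht.aff i hi, hg.aff i hi]

lemma good3_last {g : ι → Bool → Bool → Bool → Bool} (hg : Good3 C N g) :
    Good3 C N (fun i a b c => g i a (g i b a b) (g i c c a)) := by
  refine ⟨fun x hx y hy z hz => hg.closed _ hx _ (hg.closed y hy x hx y hy) _
    (hg.closed z hz z hz x hx), ?_, ?_⟩
  · intro i b
    simp only [hg.idem]
  · intro i hi a b c a' b' c' a'' b'' c''
    simp only [hg.aff i hi]

/-- Selfdual idempotent ternary operations. -/
def SD (t : Bool → Bool → Bool → Bool) : Prop :=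
  (∀ b, t b b b = b) ∧ t false true true = !(t true false false) ∧
    t true false true = !(t false true false) ∧ t true true false = !(t false false true)

/-- The parity of a selfdual ternary operation. -/
def par (t : Bool → Bool → Bool → Bool) : Bool :=
  x3 (t true false false) (t false true false) (t false false true)

/-- majority or a projection -/
def MP (t : Bool → Bool → Bool → Bool) : Prop :=
  (∀ a b c, t a b c = maj a b c) ∨ (∀ a b c, t a b c = a) ∨ (∀ a b c, t a b c = b) ∨
    (∀ a b c, t a b c = c)

/-- the composition which turns selfdual operations into projections and majorities -/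
def phi (t : Bool → Bool → Bool → Bool) : Bool → Bool → Bool → Bool :=
  let t3 := fun a b c => t a b (t a b c)
  let t2 := fun a b c => t3 a (t3 a b c) c
  fun a b c => t2 (t2 a b c) b c

lemma good3_phi {t : ι → Bool → Bool → Bool → Bool} (ht : Good3 C N t) :
    Good3 C N (fun i => phi (t i)) :=
  good3_c1 (good3_c2 (good3_c3 ht))

/-- normal form of a selfdual operation -/
def nf (p q r a b c : Bool) : Bool :=
  if a = b then (if b = c then a else xor a r) else if b = c then xor b p else xor a q

lemma sd_nf {t : Bool → Bool → Bool → Bool} (h : SD t) :
    t = nf (t true false false) (t false true false) (t false false true) := by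
  obtain ⟨h0, h1, h2, h3⟩ := h
  funext a b c
  have e0 := h0 false
  have e1 := h0 true
  cases a <;> cases b <;> cases c <;> simp [nf, h1, h2, h3, e0, e1]

lemma nf_phi : ∀ p q r : Bool, (∀ a b c, phi (nf p q r) a b c = maj a b c) ∨
    (∀ a b c, phi (nf p q r) a b c = a) ∨ (∀ a b c, phi (nf p q r) a b c = b) ∨
    (∀ a b c, phi (nf p q r) a b c = c) := by
  decide

lemma nf_phi_maj : ∀ p q r : Bool, x3 p q r = false →
    (∀ a b c, phi (nf p q r) a b c = maj a b c) := by
  decide

lemma phi_mp {t : Bool → Bool → Bool → Bool} (h : SD t) : MP (phi t) := by
  have := nf_phi (t true false false) (t false true false) (t false false true)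
  rw [← sd_nf h] at this
  exact this

lemma phi_maj {t : Bool → Bool → Bool → Bool} (h : SD t) (hp : par t = false) (a b c : Bool) :
    phi t a b c = maj a b c := by
  have := nf_phi_maj (t true false false) (t false true false) (t false false true) hp
  rw [← sd_nf h] at this
  exact this a b c

/-- The coordinates with a binary operation which is a minimum or a maximum there. -/
def Sset (C : Finset (ι → Bool)) (N : Finset ι) : Set ι := {i | ∃ s, Good2 C N s ∧ Semi (s i)}

lemma sset_sub {i : ι} (hi : i ∈ Sset C N) : i ∈ N := by
  obtain ⟨s, hs, hsi⟩ := hi
  by_contra hN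
  have h1 := hs.aff i hN false false false true true false
  have e0 := hs.idem i false
  have e1 := hs.idem i true
  unfold Semi at hsi
  have h2 : s i true true = x3 (s i false false) (s i false true) (s i true false) := h1
  rw [e0, e1, hsi] at h2
  revert h2
  unfold x3
  cases s i true false <;> simp

/-- One binary operation which is a minimum or a maximum on the whole set. -/
lemma exists_semi (A : Finset ι) (hA : ∀ i ∈ A, i ∈ Sset C N) :
    ∃ s, Good2 C N s ∧ ∀ i ∈ A, Semi (s i) := by
  classical
  induction A using Finset.induction_on with
  | empty => exact ⟨_, good2_fst, by simp⟩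
  | insert j A _ ih =>
    obtain ⟨s, hs, hsA⟩ := ih (fun i hi => hA i (Finset.mem_insert_of_mem hi))
    obtain ⟨t, ht, htj⟩ := hA j (Finset.mem_insert_self _ _)
    by_cases hj : Semi (s j)
    · refine ⟨s, hs, ?_⟩
      intro i hi
      rcases Finset.mem_insert.1 hi with rfl | hi
      · exact hj
      · exact hsA i hi
    · refine ⟨_, good2_comp hs ht, ?_⟩
      intro i hi
      show t i (s i false true) (s i true false) = t i (s i true false) (s i false true)
      rcases Finset.mem_insert.1 hi with rfl | hi
      · exact semi_comm htj _ _
      · have := hsA i hi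
        unfold Semi at this
        rw [this]

lemma sd_of_not_mem {t : ι → Bool → Bool → Bool → Bool} (ht : Good3 C N t) {i : ι}
    (hi : i ∉ Sset C N) : SD (t i) := by
  have h1 : ¬ Semi (fun a b => t i a b b) := fun h => hi ⟨_, good2_m1 ht, h⟩
  have h2 : ¬ Semi (fun a b => t i a b a) := fun h => hi ⟨_, good2_m2 ht, h⟩
  have h3 : ¬ Semi (fun a b => t i a a b) := fun h => hi ⟨_, good2_m3 ht, h⟩
  replace h1 : t i false true true ≠ t i true false false := h1
  replace h2 : t i false true false ≠ t i true false true := h2
  replace h3 : t i false false true ≠ t i true true false := h3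
  refine ⟨ht.idem i, ?_, ?_, ?_⟩
  · revert h1
    cases t i false true true <;> cases t i true false false <;> simp
  · revert h2
    cases t i true false true <;> cases t i false true false <;> simp
  · revert h3
    cases t i true true false <;> cases t i false false true <;> simp

/-- the ternary operation given by a pattern -/
def patt {r : ℕ} (f : ι → (Fin r → Bool) → Bool) (π : Fin r → Fin 3) :
    ι → Bool → Bool → Bool → Bool := fun i a b c => f i (fun j => ![a, b, c] (π j))

lemma good3_patt {r : ℕ} {f : ι → (Fin r → Bool) → Bool} (hc : Closed f C) (hid : ∀ i, Idem (f i))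
    (haff : ∀ i ∉ N, Affine (f i)) (π : Fin r → Fin 3) : Good3 C N (patt f π) := by
  refine ⟨?_, ?_, ?_⟩
  · intro x hx y hy z hz
    have := hc (fun j => ![x, y, z] (π j)) (by
      intro j
      generalize π j = m
      fin_cases m <;> simp [hx, hy, hz])
    convert this using 1
    funext i
    unfold patt
    congr 1
    funext j
    generalize π j = m
    fin_cases m <;> rfl
  · intro i b
    unfold patt
    have : (fun j => ![b, b, b] (π j)) = fun _ : Fin r => b := by
      funext j
      generalize π j = m
      fin_cases m <;> rfl
    rw [this]
    exact hid i b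
  · intro i hi a b c a' b' c' a'' b'' c''
    unfold patt
    rw [← haff i hi]
    congr 1
    funext j
    generalize π j = m
    fin_cases m <;> rfl

/-- In a coordinate of `N` outside `Sset` there is a ternary operation with even parity. -/
lemma exists_even {r : ℕ} {f : ι → (Fin r → Bool) → Bool} (hc : Closed f C)
    (hid : ∀ i, Idem (f i)) (haff : ∀ i ∉ N, Affine (f i)) {i : ι} (hi : ¬ Affine (f i))
    (hS : i ∉ Sset C N) : ∃ t, Good3 C N t ∧ par (t i) = false := by
  classical
  obtain ⟨a, j, k, hjk, hface⟩ := face_of_not_affine (f i) hi
  -- the patterns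
  let π : Bool → Fin r → Fin 3 := fun b l =>
    if l = k then 0 else if l = j then (if b then 2 else 1) else (if a l then 2 else 1)
  have hG : ∀ b, Good3 C N (patt f (π b)) := fun b => good3_patt hc hid haff _
  have hSD : ∀ b, SD (patt f (π b) i) := fun b => sd_of_not_mem (hG b) hS
  -- values
  have val : ∀ b p, patt f (π b) i p false true =
      f i (Function.update (Function.update a j b) k p) := by
    intro b p
    unfold patt
    congr 1
    funext l
    show ![p, false, true] (π b l) = _
    by_cases hlk : l = k
    · subst hlk
      simp [π]
    · rw [Function.update_of_ne hlk]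
      by_cases hlj : l = j
      · subst hlj
        rw [Function.update_self]
        cases b <;> simp [π, hlk]
      · rw [Function.update_of_ne hlj]
        cases hal : a l <;> simp [π, hlk, hlj, hal]
  have valk : ∀ b, patt f (π b) i true false false = patt f (π true) i true false false := by
    intro b
    unfold patt
    congr 1
    funext l
    show ![true, false, false] (π b l) = ![true, false, false] (π true l)
    by_cases hlk : l = k
    · subst hlk
      simp [π]
    · by_cases hlj : l = j
      · subst hlj
        cases b <;> simp [π, hlk]
      · simp [π, hlk, hlj]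
  have hsum : xor (xor (f i (Function.update (Function.update a j false) k false))
      (f i (Function.update (Function.update a j true) k false)))
      (xor (f i (Function.update (Function.update a j false) k true))
      (f i (Function.update (Function.update a j true) k true))) = true := by
    have ea : a = Function.update (Function.update a j (a j)) k (a k) := by
      simp
    have e1 : flip j a = Function.update (Function.update a j (!a j)) k (a k) := by
      funext l
      unfold flip
      by_cases hlk : l = k
      · subst hlk
        rw [Function.update_self, Function.update_of_ne (Ne.symm hjk)]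
      · rw [Function.update_of_ne hlk]
    have e2 : flip k a = Function.update (Function.update a j (a j)) k (!a k) := by
      unfold flip
      rw [Function.update_eq_self]
    have e3 : flip j (flip k a) = Function.update (Function.update a j (!a j)) k (!a k) := by
      funext l
      unfold flip
      by_cases hlj : l = j
      · subst hlj
        rw [Function.update_self, Function.update_of_ne hjk, Function.update_of_ne hjk,
          Function.update_self]
      · rw [Function.update_of_ne hlj]
        by_cases hlk : l = k
        · subst hlk
          rw [Function.update_self, Function.update_self]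
        · rw [Function.update_of_ne hlk, Function.update_of_ne hlk, Function.update_of_ne hlj]
    rw [e1, e3, e2] at hface
    rw [show f i a = f i (Function.update (Function.update a j (a j)) k (a k)) by rw [← ea]] at hface
    have gen : ∀ (G : Bool → Bool → Bool) (b c : Bool),
        xor (xor (G b c) (G (!b) c)) (xor (G b (!c)) (G (!b) (!c))) = true →
        xor (xor (G false false) (G true false)) (xor (G false true) (G true true)) = true := by
      intro G b c
      cases b <;> cases c <;> simp only [Bool.not_false, Bool.not_true] <;>
        cases G false false <;> cases G true false <;> cases G false true <;>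
        cases G true true <;> simp
    exact gen (fun b c => f i (Function.update (Function.update a j b) k c)) (a j) (a k) hface
  by_contra hcon
  push Not at hcon
  have p0 := hcon _ (hG false)
  have p1 := hcon _ (hG true)
  obtain ⟨-, -, q0, -⟩ := hSD false
  obtain ⟨-, -, q1, -⟩ := hSD true
  rw [val] at q0 q1
  unfold par x3 at p0 p1
  rw [val, valk false] at p0
  rw [val] at p1
  revert p0 p1 q0 q1 hsum
  cases f i (Function.update (Function.update a j false) k false) <;>
    cases f i (Function.update (Function.update a j true) k false) <;>
    cases f i (Function.update (Function.update a j false) k true) <;>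
    cases f i (Function.update (Function.update a j true) k true) <;>
    cases patt f (π true) i true false false <;>
    cases patt f (π false) i false true false <;>
    cases patt f (π true) i false true false <;> simp

/-- One ternary operation which is the majority in all the coordinates of `A`. -/
lemma exists_maj {r : ℕ} {f : ι → (Fin r → Bool) → Bool} (hc : Closed f C)
    (hid : ∀ i, Idem (f i)) (haff : ∀ i ∉ N, Affine (f i)) (A : Finset ι)
    (hA : ∀ i ∈ A, ¬ Affine (f i) ∧ i ∉ Sset C N) :
    ∃ g, Good3 C N g ∧ (∀ i ∉ Sset C N, MP (g i)) ∧ ∀ i ∈ A, ∀ a b c, g i a b c = maj a b c := by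
  classical
  induction A using Finset.induction_on with
  | empty => exact ⟨_, good3_fst, fun _ _ => Or.inr (Or.inl fun _ _ _ => rfl), by simp⟩
  | insert j A _ ih =>
    obtain ⟨g, hg, hgM, hgA⟩ := ih (fun i hi => hA i (Finset.mem_insert_of_mem hi))
    obtain ⟨h1, h2⟩ := hA j (Finset.mem_insert_self _ _)
    obtain ⟨t0, ht0, hpar⟩ := exists_even hc hid haff h1 h2
    obtain ⟨t, ht, htM, htj⟩ : ∃ t, Good3 C N t ∧ (∀ i ∉ Sset C N, MP (t i)) ∧
        ∀ a b c, t j a b c = maj a b c :=
      ⟨_, good3_phi ht0, fun i hi => phi_mp (sd_of_not_mem ht0 hi),
        phi_maj (sd_of_not_mem ht0 h2) hpar⟩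
    have cyc : ∀ a b c, maj b c a = maj a b c ∧ maj c a b = maj a b c ∧
        maj (maj a b c) (maj a b c) (maj a b c) = maj a b c := by decide
    refine ⟨_, good3_comp hg ht, ?_, ?_⟩
    · intro i hi
      have hti : ∀ b, t i b b b = b := ht.idem i
      rcases hgM i hi with h | h | h | h
      · left
        intro a b c
        show t i (g i a b c) (g i b c a) (g i c a b) = _
        obtain ⟨c1, c2, _⟩ := cyc a b c
        rw [h, h, h, c1, c2, hti]
      · show MP (fun a b c => t i (g i a b c) (g i b c a) (g i c a b))
        have e : (fun a b c => t i (g i a b c) (g i b c a) (g i c a b)) = fun a b c => t i a b c := by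
          funext a b c
          rw [h, h, h]
        rw [e]
        exact htM i hi
      · show MP (fun a b c => t i (g i a b c) (g i b c a) (g i c a b))
        have e : (fun a b c => t i (g i a b c) (g i b c a) (g i c a b)) = fun a b c => t i b c a := by
          funext a b c
          rw [h, h, h]
        rw [e]
        rcases htM i hi with h' | h' | h' | h'
        · exact Or.inl fun a b c => (h' b c a).trans (cyc a b c).1
        · exact Or.inr (Or.inr (Or.inl fun a b c => h' b c a))
        · exact Or.inr (Or.inr (Or.inr fun a b c => h' b c a))
        · exact Or.inr (Or.inl fun a b c => h' b c a)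
      · show MP (fun a b c => t i (g i a b c) (g i b c a) (g i c a b))
        have e : (fun a b c => t i (g i a b c) (g i b c a) (g i c a b)) = fun a b c => t i c a b := by
          funext a b c
          rw [h, h, h]
        rw [e]
        rcases htM i hi with h' | h' | h' | h'
        · exact Or.inl fun a b c => (h' c a b).trans (cyc a b c).2.1
        · exact Or.inr (Or.inr (Or.inr fun a b c => h' c a b))
        · exact Or.inr (Or.inl fun a b c => h' c a b)
        · exact Or.inr (Or.inr (Or.inl fun a b c => h' c a b))
    · intro i hi a b c
      show t i (g i a b c) (g i b c a) (g i c a b) = _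
      obtain ⟨c1, c2, _⟩ := cyc a b c
      rcases Finset.mem_insert.1 hi with rfl | hi
      · rcases hgM i h2 with h | h | h | h
        · rw [h, h, h, c1, c2, ht.idem]
        · rw [h, h, h, htj]
        · rw [h, h, h, htj, c1]
        · rw [h, h, h, htj, c2]
      · rw [hgA i hi, hgA i hi, hgA i hi, c1, c2, ht.idem]

/-- The two operations used for counting. -/
theorem terms {r : ℕ} {f : ι → (Fin r → Bool) → Bool} (hc : Closed f C)
    (hid : ∀ i, Idem (f i)) (haff : ∀ i, i ∉ N ↔ Affine (f i)) :
    ∃ (S M : Finset ι) (s : ι → Bool → Bool → Bool) (g : ι → Bool → Bool → Bool → Bool),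
      (∀ i, i ∈ N ↔ i ∈ S ∨ i ∈ M) ∧ Disjoint S M ∧ Good2 C N s ∧ Good3 C N g ∧
      (∀ i ∈ S, Semi (s i)) ∧ (∀ i ∉ S, ∀ a b, s i a b = a) ∧
      (∀ i ∈ M, ∀ a b c, g i a b c = maj a b c) ∧
      (∀ i ∉ N, ∀ a b c, g i a b c = a) := by
  classical
  let S := N.filter (fun i => i ∈ Sset C N)
  let M := N.filter (fun i => i ∉ Sset C N)
  have hS : ∀ i, i ∈ S ↔ i ∈ Sset C N := by
    intro i
    simp only [S, Finset.mem_filter]
    exact ⟨fun h => h.2, fun h => ⟨sset_sub h, h⟩⟩
  have hM : ∀ i, i ∈ M ↔ i ∈ N ∧ i ∉ Sset C N := by
    intro i
    simp only [M, Finset.mem_filter]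
  obtain ⟨s, hs, hsS⟩ := exists_semi (C := C) (N := N) S (fun i hi => (hS i).1 hi)
  obtain ⟨g, hg, hgM, hgA⟩ := exists_maj (C := C) (N := N) hc hid (fun i hi => (haff i).1 hi) M
    (fun i hi => ⟨fun h => ((haff i).2 h) ((hM i).1 hi).1, ((hM i).1 hi).2⟩)
  refine ⟨S, M, _, _, ?_, ?_, good2_left hs, good3_last hg, ?_, ?_, ?_, ?_⟩
  · intro i
    rw [hS, hM]
    constructor
    · intro h
      by_cases h' : i ∈ Sset C N
      · exact Or.inl h'
      · exact Or.inr ⟨h, h'⟩
    · rintro (h | h)
      · exact sset_sub h
      · exact h.1
  · rw [Finset.disjoint_left]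
    intro i h1 h2
    exact ((hM i).1 h2).2 ((hS i).1 h1)
  · intro i hi
    have h1 := hsS i hi
    have e0 := hs.idem i false
    have e1 := hs.idem i true
    show s i (s i false true) false = s i (s i true false) true
    unfold Semi at h1
    rw [← h1]
    cases h2 : s i false true
    · rw [e0, h2]
    · rw [e1, ← h1, h2]
  · intro i hi a b
    have hn : ¬ Semi (s i) := fun h => hi ((hS i).2 ⟨s, hs, h⟩)
    show s i (s i a b) a = a
    rcases proj_of_not_semi (hs.idem i) hn with h | h
    · rw [h, h]
    · rw [h]
  · intro i hi a b c
    have h := hgA i hi
    show g i a (g i b a b) (g i c c a) = _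
    rw [h, h, h]
    revert a b c
    decide
  · intro i hi a b c
    have hiS : i ∉ Sset C N := fun h => hi (sset_sub h)
    show g i a (g i b a b) (g i c c a) = a
    rcases hgM i hiS with h | h | h | h
    · exfalso
      have h1 := hg.aff i hi false false false true false false false true false
      have e1 : g i true true false = true := by rw [h]; rfl
      have e2 : g i false false false = false := by rw [h]; rfl
      have e3 : g i true false false = false := by rw [h]; rfl
      have e4 : g i false true false = false := by rw [h]; rfl
      have h2 : g i true true false = x3 (g i false false false) (g i true false false)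
        (g i false true false) := h1
      rw [e1, e2, e3, e4] at h2
      exact absurd h2 (by decide)
    · rw [h]
    · rw [h, h]
    · rw [h, h]

end Pool.Agent.Helper951_poly
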