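import Pool.Agent.Helper951_poly.Bound

set_option autoImplicit false

namespace Pool.Agent.Helper951_poly

open Finset

lemma face_normal {k : ℕ} (f : (Fin k → Bool) → Bool) (hf : ¬ Affine f) :
    ∃ (a : Fin k → Bool) (j l : Fin k), j ≠ l ∧
      xor (xor (f (Function.update (Function.update a j false) l false))
      (f (Function.update (Function.update a j true) l false)))
      (xor (f (Function.update (Function.update a j false) l true))
      (f (Function.update (Function.update a j true) l true))) = true := by
  classical
  obtain ⟨a, j, k, hjk, hface⟩ := face_of_not_affine f hf
  refine ⟨a, j, k, hjk, ?_⟩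
  have ea : a = Function.update (Function.update a j (a j)) k (a k) := by
    simp
  have e1 : flip j a = Function.update (Function.update a j (!a j)) k (a k) := by
    funext l
    unfold flip
    by_cases hlk : l = k
    · subst hlk
      rw [Function.update_self, Function.update_of_ne (Ne.symm hjk)]
    · rw [Function.update_of_ne hlk]
  have e2 : flip k a = Function.update (Function.update a j (a j)) k (!a k) := by
    unfold flip
    rw [Function.update_eq_self]
  have e3 : flip j (flip k a) = Function.update (Function.update a j (!a j)) k (!a k) := by
    funext l
    unfold flip
    by_cases hlj : l = j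
    · subst hlj
      rw [Function.update_self, Function.update_of_ne hjk, Function.update_of_ne hjk,
        Function.update_self]
    · rw [Function.update_of_ne hlj]
      by_cases hlk : l = k
      · subst hlk
        rw [Function.update_self, Function.update_self]
      · rw [Function.update_of_ne hlk, Function.update_of_ne hlk, Function.update_of_ne hlj]
  rw [e1, e3, e2] at hface
  rw [show f a = f (Function.update (Function.update a j (a j)) k (a k)) by rw [← ea]] at hface
  have gen : ∀ (G : Bool → Bool → Bool) (b c : Bool),
      xor (xor (G b c) (G (!b) c)) (xor (G b (!c)) (G (!b) (!c))) = true →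
      xor (xor (G false false) (G true false)) (xor (G false true) (G true true)) = true := by
    intro G b c
    cases b <;> cases c <;> simp only [Bool.not_false, Bool.not_true] <;>
      cases G false false <;> cases G true false <;> cases G false true <;>
      cases G true true <;> simp
  exact gen (fun b c => f (Function.update (Function.update a j b) k c)) (a j) (a k) hface

/-- binary function with given values -/
def bf (p q r s a b : Bool) : Bool := if a then (if b then s else r) else (if b then q else p)

lemma bf_eq (B : Bool → Bool → Bool) :
    B = bf (B false false) (B false true) (B true false) (B true true) := by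
  funext a b
  cases a <;> cases b <;> rfl

/-- `u` is the minimum or the maximum. -/
def MM (u : Bool → Bool → Bool) : Prop :=
  u false false = false ∧ u true true = true ∧ u false true = u true false

instance (u : Bool → Bool → Bool) : Decidable (MM u) := by unfold MM; infer_instance

lemma bf_gen : ∀ p q r s : Bool, xor (xor p q) (xor r s) = true →
    MM (bf p q r s) ∨ MM (fun a b => bf p q r s a (bf p q r s a b)) ∨
    MM (fun a b => bf p q r s (bf p q r s a b) b) ∨
    MM (fun a b => bf p q r s (bf p q r s a b) (bf p q r s a b)) := by decide

/-- `C` is closed under the operation `B` applied in all coordinates. -/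
def Cl2 {ι : Type} (C : Finset (ι → Bool)) (B : Bool → Bool → Bool) : Prop :=
  ∀ x ∈ C, ∀ y ∈ C, (fun i => B (x i) (y i)) ∈ C

lemma odd_gen {ι : Type} {C : Finset (ι → Bool)} {B : Bool → Bool → Bool} (hB : Cl2 C B)
    (hodd : xor (xor (B false false) (B false true)) (xor (B true false) (B true true)) = true) :
    ∃ u, Cl2 C u ∧ MM u := by
  have h := bf_gen (B false false) (B false true) (B true false) (B true true) hodd
  rw [← bf_eq B] at h
  rcases h with h | h | h | h
  · exact ⟨B, hB, h⟩
  · exact ⟨fun a b => B a (B a b), fun x hx y hy => hB x hx _ (hB x hx y hy), h⟩
  · exact ⟨fun a b => B (B a b) b, fun x hx y hy => hB _ (hB x hx y hy) y hy, h⟩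
  · exact ⟨fun a b => B (B a b) (B a b),
      fun x hx y hy => hB _ (hB x hx y hy) _ (hB x hx y hy), h⟩

/-- `C` is closed under `f`, applied in all coordinates. -/
def ClosedU {ι : Type} {r : ℕ} (f : (Fin r → Bool) → Bool) (C : Finset (ι → Bool)) : Prop :=
  ∀ x : Fin r → ι → Bool, (∀ j, x j ∈ C) → (fun i => f (fun j => x j i)) ∈ C

lemma const_case {ι : Type} {r : ℕ} (f : (Fin r → Bool) → Bool) (hf : ¬ Affine f)
    (C : Finset (ι → Bool)) (hne : C.Nonempty) (hC : ClosedU f C) (c : Bool)
    (h0 : f (fun _ => false) = c) (h1 : f (fun _ => true) = c) : ∃ u, Cl2 C u ∧ MM u := by
  classical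
  obtain ⟨a, j, k, hjk, hface⟩ := face_normal f hf
  -- the constant word
  obtain ⟨w, hw⟩ := hne
  have hcw : (fun _ : ι => c) ∈ C := by
    have := hC (fun _ => w) (fun _ => hw)
    convert this using 1
    funext i
    cases w i
    · exact h0.symm
    · exact h1.symm
  let T : Bool → Bool → Bool → Bool → Bool := fun b y u v =>
    f (fun l => if l = k then y else if l = j then (if b then v else u)
      else (if a l then v else u))
  have hT : ∀ b, ∀ x ∈ C, ∀ y ∈ C, ∀ z ∈ C, (fun i => T b (x i) (y i) (z i)) ∈ C := by
    intro b x hx y hy z hz
    have := hC (fun l => if l = k then x else if l = j then (if b then z else y)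
      else (if a l then z else y)) (by
        intro l
        by_cases hlk : l = k
        · simp [hlk, hx]
        · by_cases hlj : l = j
          · cases b <;> simp [hlk, hlj, hjk, hy, hz]
          · cases hal : a l <;> simp [hlk, hlj, hal, hy, hz])
    convert this using 1
    funext i
    show f _ = f _
    congr 1
    funext l
    by_cases hlk : l = k
    · simp [hlk]
    · by_cases hlj : l = j
      · cases b <;> simp [hlk, hlj, hjk]
      · cases hal : a l <;> simp [hlk, hlj, hal]
  have val : ∀ b p, T b p false true = f (Function.update (Function.update a j b) k p) := by
    intro b p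
    show f _ = f _
    congr 1
    funext l
    by_cases hlk : l = k
    · subst hlk
      simp
    · rw [Function.update_of_ne hlk]
      by_cases hlj : l = j
      · subst hlj
        rw [Function.update_self]
        cases b <;> simp [hlk]
      · rw [Function.update_of_ne hlj]
        cases hal : a l <;> simp [hlk, hlj, hal]
  rw [← val, ← val, ← val, ← val] at hface
  cases c
  · -- constant `0`
    have v0 : ∀ b, T b false false false = false := by
      intro b
      have e : T b false false false = f (fun _ => false) := by
        show f _ = f _
        congr 1
        funext l
        cases b <;> simp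
      exact e.trans h0
    have vk : ∀ b, T b true false false = T true true false false := by
      intro b
      show f _ = f _
      congr 1
      funext l
      cases b <;> simp
    have hB : ∀ b, Cl2 C (fun y v => T b y false v) := fun b x hx y hy =>
      hT b x hx _ hcw y hy
    by_cases hodd : xor (xor (T false false false false) (T false false false true))
        (xor (T false true false false) (T false true false true)) = true
    · exact odd_gen (hB false) hodd
    · apply odd_gen (hB true)
      show xor (xor (T true false false false) (T true false false true))
        (xor (T true true false false) (T true true false true)) = true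
      rw [v0] at hodd ⊢
      rw [vk false] at hodd
      revert hodd hface
      cases T false false false true <;> cases T true false false true <;>
        cases T false true false true <;> cases T true true false true <;>
        cases T true true false false <;> simp
  · -- constant `1`
    have v1 : ∀ b, T b true true true = true := by
      intro b
      have e : T b true true true = f (fun _ => true) := by
        show f _ = f _
        congr 1
        funext l
        cases b <;> simp
      exact e.trans h1
    have vk : ∀ b, T b false true true = T true false true true := by
      intro b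
      show f _ = f _
      congr 1
      funext l
      cases b <;> simp
    have hB : ∀ b, Cl2 C (fun y u => T b y u true) := fun b x hx y hy =>
      hT b x hx y hy _ hcw
    by_cases hodd : xor (xor (T false false false true) (T false false true true))
        (xor (T false true false true) (T false true true true)) = true
    · exact odd_gen (hB false) hodd
    · apply odd_gen (hB true)
      show xor (xor (T true false false true) (T true false true true))
        (xor (T true true false true) (T true true true true)) = true
      rw [v1] at hodd ⊢
      rw [vk false] at hodd
      revert hodd hface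
      cases T false false false true <;> cases T true false false true <;>
        cases T false true false true <;> cases T true true false true <;>
        cases T true false true true <;> simp

/-- The mixed bound, when no coordinate is affine. -/
lemma all_bound {ι : Type} [Fintype ι] [DecidableEq ι] {r : ℕ} (f : (Fin r → Bool) → Bool)
    (hid : Idem f) (hf : ¬ Affine f) (C : Finset (ι → Bool)) (hC : ClosedU f C) (d : ℕ)
    (hd : 0 < d) (hdist : MinDist d C) : C.card ≤ 2 ^ (Fintype.card ι / d) := by
  obtain ⟨E, -, hE, hcard⟩ := mixed (fun _ : ι => f) (fun _ => hid) Finset.univ
    (fun i => by simp [hf]) C hC d hd hdist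
  have hE1 : E.card ≤ 1 := by
    rw [Finset.card_le_one]
    intro x hx y hy
    funext i
    exact hE x hx y hy i (Finset.mem_univ _)
  calc C.card ≤ 2 ^ ((Finset.univ : Finset ι).card / d) * E.card := hcard
    _ ≤ 2 ^ ((Finset.univ : Finset ι).card / d) * 1 := Nat.mul_le_mul_left _ hE1
    _ = 2 ^ (Fintype.card ι / d) := by rw [mul_one, Finset.card_univ]

/-- A code closed under an operation which is not affine. -/
theorem uniform_bound {ι : Type} [Fintype ι] [DecidableEq ι] {r : ℕ} (f : (Fin r → Bool) → Bool)
    (hf : ¬ Affine f) (C : Finset (ι → Bool)) (hC : ClosedU f C) (d : ℕ) (hd : 0 < d)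
    (hdist : MinDist d C) : C.card ≤ 2 ^ (Fintype.card ι / d) := by
  classical
  rcases C.eq_empty_or_nonempty with rfl | hne
  · simp
  by_cases hconst : f (fun _ => false) = f (fun _ => true)
  · -- the diagonal is constant
    obtain ⟨u, hu, h0, h1, h2⟩ := const_case f hf C hne hC _ hconst rfl
    apply all_bound (fun x : Fin 2 → Bool => u (x 0) (x 1)) _ _ C _ d hd hdist
    · intro b
      cases b
      · exact h0
      · exact h1
    · intro h
      have := h ![false, false] ![false, true] ![true, false]
      simp only [x3, Matrix.cons_val_zero, Matrix.cons_val_one, Bool.xor_false, Bool.false_xor,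
        Bool.xor_true] at this
      rw [h0, h2] at this
      have h3 : u true true = xor false (xor (u true false) (u true false)) := by
        simpa using this
      rw [h1] at h3
      simp at h3
    · intro x hx
      exact hu _ (hx 0) _ (hx 1)
  · by_cases h0 : f (fun _ => false) = false
    · apply all_bound f _ hf C hC d hd hdist
      intro b
      cases b
      · exact h0
      · revert hconst
        rw [h0]
        cases f (fun _ => true) <;> simp
    · -- the diagonal is the negation
      have h0' : f (fun _ => false) = true := by
        revert h0
        cases f (fun _ => false) <;> simp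
      have h1' : f (fun _ => true) = false := by
        revert hconst
        rw [h0']
        cases f (fun _ => true) <;> simp
      have hneg : ∀ x ∈ C, (fun i => !x i) ∈ C := by
        intro x hx
        have := hC (fun _ => x) (fun _ => hx)
        convert this using 1
        funext i
        cases x i
        · exact h0'.symm
        · exact h1'.symm
      apply all_bound (fun x => !f x) _ _ C _ d hd hdist
      · intro b
        cases b
        · show (!f fun _ => false) = false
          rw [h0']; rfl
        · show (!f fun _ => true) = true
          rw [h1']; rfl
      · intro h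
        apply hf
        intro x y z
        have := h x y z
        revert this
        simp only [x3]
        cases f (fun j => xor (x j) (xor (y j) (z j))) <;> cases f x <;> cases f y <;>
          cases f z <;> simp
      · intro x hx
        exact hneg _ (hC x hx)

/-- The blow-ups of the cube. -/
theorem blowup {n d : ℕ} (hd : 0 < d) (hdn : d ≤ n) :
    ∃ C : Finset (Fin n → Bool), C.card = 2 ^ (n / d) ∧ MinDist d C ∧
      ∀ (r : ℕ) (f : (Fin r → Bool) → Bool), ClosedU f C := by
  classical
  have hk : 0 < n / d := Nat.div_pos hdn hd
  obtain ⟨k, hkdef⟩ : ∃ k, k = n / d := ⟨_, rfl⟩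
  rw [← hkdef] at hk ⊢
  let β : Fin n → Fin k := fun i => ⟨min (i.1 / d) (k - 1), by omega⟩
  have hkd : k * d ≤ n := by rw [hkdef]; exact Nat.div_mul_le_self n d
  -- the `j`-th element of the block `m`
  have hpt : ∀ (m : Fin k) (j : Fin d), d * m.1 + j.1 < n := by
    intro m j
    have h1 : d * (m.1 + 1) ≤ d * k := Nat.mul_le_mul_left _ m.2
    rw [Nat.mul_succ] at h1
    have h2 : d * k ≤ n := by rw [mul_comm]; exact hkd
    omega
  have hβ : ∀ (m : Fin k) (j : Fin d), β ⟨d * m.1 + j.1, hpt m j⟩ = m := by
    intro m j
    apply Fin.ext
    show min ((d * m.1 + j.1) / d) (k - 1) = m.1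
    have : (d * m.1 + j.1) / d = m.1 := by
      rw [Nat.mul_add_div hd, Nat.div_eq_of_lt j.2, add_zero]
    rw [this]
    have := m.2
    omega
  have hsurj : ∀ m, ∃ i, β i = m := fun m => ⟨_, hβ m ⟨0, hd⟩⟩
  let Φ : (Fin k → Bool) → (Fin n → Bool) := fun b i => b (β i)
  have hinj : Function.Injective Φ := by
    intro b b' h
    funext m
    obtain ⟨i, rfl⟩ := hsurj m
    exact congrFun h i
  refine ⟨Finset.univ.image Φ, ?_, ?_, ?_⟩
  · rw [Finset.card_image_of_injective _ hinj, Finset.card_univ, Fintype.card_fun, Fintype.card_bool,
      Fintype.card_fin]
  · intro x hx y hy hxy
    obtain ⟨b, -, rfl⟩ := Finset.mem_image.1 hx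
    obtain ⟨b', -, rfl⟩ := Finset.mem_image.1 hy
    have hne : b ≠ b' := fun h => hxy (by rw [h])
    obtain ⟨m, hm⟩ := Function.ne_iff.1 hne
    have h1 : (Finset.univ.image (fun j : Fin d => (⟨d * m.1 + j.1, hpt m j⟩ : Fin n))).card = d := by
      rw [Finset.card_image_of_injective]
      · simp
      · intro j j' h
        have := congrArg Fin.val h
        apply Fin.ext
        simp only at this
        omega
    calc d = _ := h1.symm
      _ ≤ _ := Finset.card_le_card ?_
    intro i hi
    obtain ⟨j, -, rfl⟩ := Finset.mem_image.1 hi
    refine Finset.mem_filter.2 ⟨Finset.mem_univ _, ?_⟩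
    show b (β _) ≠ b' (β _)
    rw [hβ]
    exact hm
  · intro r f x hx
    have hb : ∀ j, ∃ b, Φ b = x j := fun j => by
      obtain ⟨b, -, h⟩ := Finset.mem_image.1 (hx j)
      exact ⟨b, h⟩
    choose b hb using hb
    refine Finset.mem_image.2 ⟨fun m => f (fun j => b j m), Finset.mem_univ _, ?_⟩
    funext i
    show f (fun j => b j (β i)) = f (fun j => x j i)
    congr 1
    funext j
    rw [← hb j]

end Pool.Agent.Helper951_poly
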