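import Pool.Agent.Helper951_poly.Prod

set_option autoImplicit false

namespace Pool.Agent.Helper951_poly

open Finset

variable {ι : Type} [Fintype ι] [DecidableEq ι]

/-- keep the coordinates in `V`, zero elsewhere -/
def mask (V : Finset ι) (x : ι → Bool) : ι → Bool := fun i => if i ∈ V then x i else false

/-- the code is mapped to itself by the mask of `V` -/
def Ret (F : Finset (ι → Bool)) (V : Finset ι) : Prop := ∀ x ∈ F, mask V x ∈ F

omit [Fintype ι] in
lemma mask_in {V : Finset ι} {x : ι → Bool} {i : ι} (h : i ∈ V) : mask V x i = x i := if_pos h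

omit [Fintype ι] in
lemma mask_out {V : Finset ι} {x : ι → Bool} {i : ι} (h : i ∉ V) : mask V x i = false := if_neg h

/-- The case in which all the diagonals are zero. -/
theorem zero_bound {r : ℕ} (g : ι → (Fin r → Bool) → Bool) (F : Finset (ι → Bool))
    (S N : Finset ι) (d : ℕ) (hd : 0 < d) (h0 : (fun _ => false) ∈ F) (hc : Closed g F)
    (hg : ∀ i b, g i (fun _ => b) = false) (hgS : ∀ i ∉ S, ∀ y, g i y = false)
    (hF : ∀ x ∈ F, ∀ i ∉ S, x i = false) (hN : ∀ i, i ∉ N ↔ Affine (g i))
    (hdist : MinDist d F) : F.card ≤ Phi N d S := by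
  classical
  have ret_univ : Ret F Finset.univ := by
    intro x hx
    have : mask Finset.univ x = x := by
      funext i
      exact mask_in (Finset.mem_univ _)
    rw [this]
    exact hx
  have ret_empty : Ret F ∅ := by
    intro x _
    have : mask ∅ x = fun _ => false := by
      funext i
      exact mask_out (Finset.notMem_empty _)
    rw [this]
    exact h0
  have ret_inter : ∀ V V', Ret F V → Ret F V' → Ret F (V ∩ V') := by
    intro V V' h h' x hx
    have : mask (V ∩ V') x = mask V (mask V' x) := by
      funext i
      unfold mask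
      by_cases h1 : i ∈ V <;> by_cases h2 : i ∈ V' <;> simp [h1, h2]
    rw [this]
    exact h _ (h' x hx)
  have ret_J : ∀ V, Ret F V → ∀ J : Fin r → Bool,
      Ret F (Finset.univ.filter (fun i => i ∉ V ∧ g i J = true)) := by
    intro V hV J x hx
    have h1 := hc (fun j => if J j = true then x else mask V x) (by
      intro j
      by_cases hj : J j = true
      · simp only [hj, if_true]
        exact hx
      · simp only [hj]
        exact hV x hx)
    convert h1 using 1
    funext i
    by_cases hi : i ∈ V
    · have e1 : (fun j => (if J j = true then x else mask V x) i) = fun _ : Fin r => x i := by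
        funext j
        by_cases hj : J j = true
        · simp only [hj, if_true]
        · simp only [hj]
          exact mask_in hi
      rw [e1, hg]
      apply mask_out
      rw [Finset.mem_filter]
      exact fun h => h.2.1 hi
    · have e1 : (fun j => (if J j = true then x else mask V x) i) =
          fun j : Fin r => if J j = true then x i else false := by
        funext j
        by_cases hj : J j = true
        · simp only [hj, if_true]
        · simp only [hj]
          exact mask_out hi
      rw [e1]
      cases hx' : x i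
      · have e2 : (fun j : Fin r => if J j = true then false else false) = fun _ => false := by
          funext j
          simp
        rw [e2, hg]
        unfold mask
        rw [hx']
        simp
      · have e2 : (fun j : Fin r => if J j = true then true else false) = J := by
          funext j
          cases J j <;> simp
        rw [e2]
        by_cases hJ : g i J = true
        · rw [hJ, mask_in (by rw [Finset.mem_filter]; exact ⟨Finset.mem_univ _, hi, hJ⟩), hx']
        · rw [mask_out (by rw [Finset.mem_filter]; exact fun h => hJ h.2.2)]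
          revert hJ
          cases g i J <;> simp
  have ret_J' : ∀ J : Fin r → Bool, Ret F (Finset.univ.filter (fun i => g i J = true)) := by
    intro J
    have := ret_J ∅ ret_empty J
    simpa using this
  -- atoms
  have atoms : ∀ i, (∃ J, g i J = true) → ∃ V : Finset ι, Ret F V ∧ i ∈ V ∧
      ∀ V', Ret F V' → V ⊆ V' ∨ Disjoint V V' := by
    rintro i ⟨J, hJ⟩
    let T : Finset (Finset ι) := Finset.univ.filter (fun V => Ret F V ∧ i ∈ V)
    have hT : T.Nonempty :=
      ⟨Finset.univ, Finset.mem_filter.2 ⟨Finset.mem_univ _, ret_univ, Finset.mem_univ _⟩⟩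
    obtain ⟨V, hV, hmin⟩ := Finset.exists_min_image T Finset.card hT
    obtain ⟨-, hV1, hV2⟩ := Finset.mem_filter.1 hV
    have hsub : ∀ V', Ret F V' → i ∈ V' → V ⊆ V' := by
      intro V' h1 h2
      have h3 := hmin (V ∩ V') (Finset.mem_filter.2 ⟨Finset.mem_univ _, ret_inter _ _ hV1 h1,
        Finset.mem_inter.2 ⟨hV2, h2⟩⟩)
      have h4 := Finset.eq_of_subset_of_card_le (Finset.inter_subset_left (s₁ := V) (s₂ := V')) h3
      rw [← h4]
      exact Finset.inter_subset_right
    refine ⟨V, hV1, hV2, ?_⟩
    intro V' h1
    by_cases hi : i ∈ V'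
    · exact Or.inl (hsub V' h1 hi)
    · right
      have h2 := hsub _ (ret_J V' h1 J) (Finset.mem_filter.2 ⟨Finset.mem_univ _, hi, hJ⟩)
      rw [Finset.disjoint_left]
      intro l hl
      exact (Finset.mem_filter.1 (h2 hl)).2.1
  choose! V hV using atoms
  let W : Finset ι := Finset.univ.filter (fun i => ∃ J, g i J = true)
  have memW : ∀ i, i ∈ W ↔ ∃ J, g i J = true := fun i => by simp [W]
  have unif : ∀ i ∈ W, ∀ l ∈ V i, g l = g i := by
    intro i hi l hl
    obtain ⟨h1, h2, h3⟩ := hV i ((memW i).1 hi)
    funext J
    rcases h3 _ (ret_J' J) with h | h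
    · rw [(Finset.mem_filter.1 (h hl)).2, (Finset.mem_filter.1 (h h2)).2]
    · rw [Finset.disjoint_left] at h
      have a1 := h hl
      have a2 := h h2
      simp only [Finset.mem_filter, Finset.mem_univ, true_and, Bool.not_eq_true] at a1 a2
      rw [a1, a2]
  let VV : Finset (Finset ι) := W.image V
  have hU : VV.biUnion id = W := by
    ext l
    rw [Finset.mem_biUnion]
    constructor
    · rintro ⟨T, hT, hl⟩
      obtain ⟨i, hi, rfl⟩ := Finset.mem_image.1 hT
      rw [memW, unif i hi l hl]
      exact (memW i).1 hi
    · intro hl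
      exact ⟨V l, Finset.mem_image.2 ⟨l, hl, rfl⟩, (hV l ((memW l).1 hl)).2.1⟩
  have hdisj : ∀ T ∈ VV, ∀ T' ∈ VV, T ≠ T' → Disjoint T T' := by
    intro T hT T' hT' hne
    obtain ⟨i, hi, rfl⟩ := Finset.mem_image.1 hT
    obtain ⟨i', hi', rfl⟩ := Finset.mem_image.1 hT'
    obtain ⟨a1, -, a3⟩ := hV i ((memW i).1 hi)
    obtain ⟨b1, -, b3⟩ := hV i' ((memW i').1 hi')
    rcases a3 _ b1 with h | h
    · rcases b3 _ a1 with h' | h'
      · exact absurd (Finset.Subset.antisymm h h') hne
      · exact h'.symm
    · exact h
  have hbound : ∀ T ∈ VV, (F.image (mask T)).card ≤ Phi N d T := by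
    intro T hT
    obtain ⟨i, hi, rfl⟩ := Finset.mem_image.1 hT
    obtain ⟨hR, hiV, -⟩ := hV i ((memW i).1 hi)
    have hsub : F.image (mask (V i)) ⊆ F := by
      intro x hx
      obtain ⟨y, hy, rfl⟩ := Finset.mem_image.1 hx
      exact hR y hy
    have hconst0 : ∀ x ∈ F.image (mask (V i)), ∀ l ∉ V i, x l = false := by
      intro x hx l hl
      obtain ⟨y, hy, rfl⟩ := Finset.mem_image.1 hx
      exact mask_out hl
    have hconst : ∀ x ∈ F.image (mask (V i)), ∀ y ∈ F.image (mask (V i)), ∀ l ∉ V i,
        x l = y l := fun x hx y hy l hl => by rw [hconst0 x hx l hl, hconst0 y hy l hl]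
    have hdist' : MinDist d (F.image (mask (V i))) :=
      fun x hx y hy hxy => hdist x (hsub hx) y (hsub hy) hxy
    by_cases haff : Affine (g i)
    · have hNV : ∀ l ∈ V i, l ∉ N := fun l hl => (hN l).2 (by rw [unif i hi l hl]; exact haff)
      have e1 : N ∩ V i = ∅ := by
        rw [Finset.eq_empty_iff_forall_notMem]
        intro l hl
        rw [Finset.mem_inter] at hl
        exact hNV l hl.2 hl.1
      have e2 : V i \ N = V i := by
        rw [Finset.sdiff_eq_self_iff_disjoint, Finset.disjoint_left]
        exact hNV
      unfold Phi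
      rw [e1, e2]
      simpa using card_le_A_const (V i) _ hconst d hdist'
    · have hNV : V i ⊆ N := by
        intro l hl
        by_contra h
        have := (hN l).1 h
        rw [unif i hi l hl] at this
        exact haff this
      have e1 : N ∩ V i = V i := Finset.inter_eq_right.2 hNV
      unfold Phi
      rw [e1]
      have h1 := uniform_bound (g i) haff (res (V i) (F.image (mask (V i)))) (by
        intro x hx
        have : ∀ j, ∃ y ∈ F.image (mask (V i)), (fun l : {l // l ∈ V i} => y l.1) = x j := by
          intro j
          exact Finset.mem_image.1 (hx j)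
        choose y hy hyx using this
        have hw := hc y (fun j => hsub (hy j))
        refine Finset.mem_image.2 ⟨fun l => g l (fun j => y j l), ?_, ?_⟩
        · refine Finset.mem_image.2 ⟨_, hw, ?_⟩
          funext l
          by_cases hl : l ∈ V i
          · exact mask_in hl
          · rw [mask_out hl]
            have : (fun j => y j l) = fun _ => false := by
              funext j
              exact hconst0 _ (hy j) l hl
            rw [this, hg]
        · funext l
          show g l.1 (fun j => y j l.1) = g i (fun j => x j l)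
          rw [unif i hi l.1 l.2]
          congr 1
          funext j
          rw [← hyx]) d hd (res_dist _ _ hconst d hdist')
      rw [res_card _ _ hconst, Fintype.card_coe] at h1
      calc _ ≤ 2 ^ ((V i).card / d) * 1 := by rw [mul_one]; exact h1
        _ ≤ _ := Nat.mul_le_mul_left _ (A_pos _ _)
  have hWS : W ⊆ S := by
    intro i hi
    by_contra h
    obtain ⟨J, hJ⟩ := (memW i).1 hi
    rw [hgS i h] at hJ
    exact absurd hJ (by decide)
  have hprod : (F.image (mask W)).card ≤ ∏ T ∈ VV, (F.image (mask T)).card := by
    rw [← Finset.card_pi]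
    apply Finset.card_le_card_of_injOn (fun y (T : Finset ι) (_ : T ∈ VV) => mask T y)
    · intro y hy
      obtain ⟨x, hx, rfl⟩ := Finset.mem_image.1 hy
      refine Finset.mem_coe.2 (Finset.mem_pi.2 ?_)
      intro T hT
      refine Finset.mem_image.2 ⟨x, hx, ?_⟩
      have hTW : T ⊆ W := by
        rw [← hU]
        exact Finset.subset_biUnion_of_mem id hT
      funext i
      show mask T x i = mask T (mask W x) i
      by_cases hi : i ∈ T
      · rw [mask_in hi, mask_in hi, mask_in (hTW hi)]
      · rw [mask_out hi, mask_out hi]
    · intro y hy y' hy' hyy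
      obtain ⟨x, hx, rfl⟩ := Finset.mem_image.1 hy
      obtain ⟨x', hx', rfl⟩ := Finset.mem_image.1 hy'
      funext i
      by_cases hi : i ∈ W
      · have hi' := hi
        rw [← hU, Finset.mem_biUnion] at hi'
        obtain ⟨T, hT, hiT⟩ := hi'
        have h1 := congrFun (congrFun (congrFun hyy T) hT) i
        have h2 : mask T (mask W x) i = mask T (mask W x') i := h1
        have hiT' : i ∈ T := hiT
        rwa [mask_in hiT', mask_in hiT'] at h2
      · rw [mask_out hi, mask_out hi]
  have hfib : ∀ z ∈ F.image (mask W), (F.filter (fun x => mask W x = z)).card ≤ Phi N d (S \ W) := by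
    intro z _
    have hNW : ∀ i ∉ W, i ∉ N := by
      intro i hi
      rw [hN]
      have : ∀ y, g i y = false := by
        intro y
        by_contra h
        exact hi ((memW i).2 ⟨y, by revert h; cases g i y <;> simp⟩)
      intro x y z
      rw [this, this, this, this]
      rfl
    have e1 : N ∩ (S \ W) = ∅ := by
      rw [Finset.eq_empty_iff_forall_notMem]
      intro l hl
      rw [Finset.mem_inter, Finset.mem_sdiff] at hl
      exact hNW l hl.2.2 hl.1
    have e2 : (S \ W) \ N = S \ W := by
      rw [Finset.sdiff_eq_self_iff_disjoint, Finset.disjoint_left]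
      intro l hl
      exact hNW l (Finset.mem_sdiff.1 hl).2
    unfold Phi
    rw [e1, e2]
    have := card_le_A_const (S \ W) (F.filter (fun x => mask W x = z)) (by
      intro x hx y hy i hi
      obtain ⟨hx1, hx2⟩ := Finset.mem_filter.1 hx
      obtain ⟨hy1, hy2⟩ := Finset.mem_filter.1 hy
      by_cases hiS : i ∈ S
      · have hiW : i ∈ W := by
          by_contra h
          exact hi (Finset.mem_sdiff.2 ⟨hiS, h⟩)
        have h1 := congrFun (hx2.trans hy2.symm) i
        rwa [mask_in hiW, mask_in hiW] at h1
      · rw [hF x hx1 i hiS, hF y hy1 i hiS]) d (fun x hx y hy hxy =>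
        hdist x (Finset.mem_filter.1 hx).1 y (Finset.mem_filter.1 hy).1 hxy)
    simpa using this
  calc F.card ≤ Phi N d (S \ W) * (F.image (mask W)).card :=
        Finset.card_le_mul_card_image F _ hfib
    _ ≤ Phi N d (S \ W) * ∏ T ∈ VV, (F.image (mask T)).card := Nat.mul_le_mul_left _ hprod
    _ ≤ Phi N d (S \ W) * ∏ T ∈ VV, Phi N d T :=
        Nat.mul_le_mul_left _ (Finset.prod_le_prod' hbound)
    _ ≤ Phi N d (S \ W) * Phi N d W := by
        rw [← hU]
        exact Nat.mul_le_mul_left _ (Phi_prod N d VV hdisj)
    _ ≤ Phi N d ((S \ W) ∪ W) := Phi_mul N d _ _ Finset.sdiff_disjoint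
    _ = Phi N d S := by rw [Finset.sdiff_union_of_subset hWS]

end Pool.Agent.Helper951_poly
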